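import Pool.Agent.R523.BCMob

/-!
# The two lower levels

Elementary symmetric functions of lists, and the inequalities
`Re ((e₂+3e₁+7) conj (e₁+3)) > 0` (five variables) and
`Re ((e₃+3e₂+7e₁+13) conj (e₂+3e₁+7)) > 0` (six variables) on the closed right half plane.
-/

namespace R523.BC

open Complex

/-- Elementary symmetric function of a list. -/
def es {R : Type*} [CommRing R] : ℕ → List R → R
  | 0, _ => 1
  | _ + 1, [] => 0
  | k + 1, x :: l => es (k + 1) l + x * es k l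

theorem es_I (k : ℕ) (l : List ℝ) :
    es k (l.map (fun x : ℝ => I * (x : ℂ))) = I ^ k * ((es k l : ℝ) : ℂ) := by
  induction l generalizing k with
  | nil => cases k with
    | zero => simp [es]
    | succ k => simp [es]
  | cons x l ih => cases k with
    | zero => simp [es]
    | succ k =>
      simp only [List.map_cons, es, ih]
      push_cast
      ring

/-- Level A. -/
theorem levelA (w : Fin 5 → ℂ) (hw : ∀ i, 0 ≤ (w i).re) :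
    0 < ((es 2 [w 0, w 1, w 2, w 3, w 4] + 3 * es 1 [w 0, w 1, w 2, w 3, w 4] + 7) *
      (starRingEnd ℂ) (es 1 [w 0, w 1, w 2, w 3, w 4] + 3)).re := by
  have key := ind (n := 5) (fun w => es 2 [w 0, w 1, w 2, w 3, w 4] + 2 * es 1 [w 0, w 1, w 2, w 3, w 4] + 4)
    (fun w => es 1 [w 0, w 1, w 2, w 3, w 4] + 3) ?_ ?_ ?_ w hw
  · have hre : 0 < (es 1 [w 0, w 1, w 2, w 3, w 4] + 3 : ℂ).re := by
      have := hw 0; have := hw 1; have := hw 2; have := hw 3; have := hw 4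
      simp [es]; linarith
    set β := es 1 [w 0, w 1, w 2, w 3, w 4] + 3 with hβ
    have e : es 2 [w 0, w 1, w 2, w 3, w 4] + 3 * es 1 [w 0, w 1, w 2, w 3, w 4] + 7 =
      (es 2 [w 0, w 1, w 2, w 3, w 4] + 2 * es 1 [w 0, w 1, w 2, w 3, w 4] + 4) + β := by rw [hβ]; ring
    rw [e, add_mul, add_re]
    have h2 : 0 < (β * (starRingEnd ℂ) β).re := by
      rw [Complex.mul_conj, ofReal_re]
      apply Complex.normSq_pos.mpr
      intro h; rw [h] at hre; simp at hre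
    linarith
  · intro j w
    refine ⟨(fun w : Fin 5 → ℂ => es 2 [w 0, w 1, w 2, w 3, w 4] + 2 * es 1 [w 0, w 1, w 2, w 3, w 4] + 4) (Function.update w j 0),
      (fun w : Fin 5 → ℂ => es 2 [w 0, w 1, w 2, w 3, w 4] + 2 * es 1 [w 0, w 1, w 2, w 3, w 4] + 4) (Function.update w j 1) -
        (fun w : Fin 5 → ℂ => es 2 [w 0, w 1, w 2, w 3, w 4] + 2 * es 1 [w 0, w 1, w 2, w 3, w 4] + 4) (Function.update w j 0), fun x => ?_⟩
    fin_cases j <;> simp [es, Function.update] <;> ring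
  · intro j w hw
    refine ⟨(fun w : Fin 5 → ℂ => es 1 [w 0, w 1, w 2, w 3, w 4] + 3) (Function.update w j 0), 1, fun x => ?_, ?_⟩
    · fin_cases j <;> simp [es, Function.update] <;> ring
    · have h0 := hw 0; have h1 := hw 1; have h2 := hw 2; have h3 := hw 3; have h4 := hw 4
      fin_cases j <;> simp [es, Function.update] <;> linarith
  · intro y
    have h1 := es_I 1 [y 0, y 1, y 2, y 3, y 4]
    have h2 := es_I 2 [y 0, y 1, y 2, y 3, y 4]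
    simp only [List.map_cons, List.map_nil] at h1 h2
    simp only [h1, h2]
    have e : 2 * (es 1 [y 0, y 1, y 2, y 3, y 4]) ^ 2 - 3 * es 2 [y 0, y 1, y 2, y 3, y 4] + 12 =
        3 / 2 * (y 0 ^ 2 + y 1 ^ 2 + y 2 ^ 2 + y 3 ^ 2 + y 4 ^ 2) +
        1 / 2 * (es 1 [y 0, y 1, y 2, y 3, y 4]) ^ 2 + 12 := by
      simp [es]; ring
    have e0 : 0 ≤ 2 * (es 1 [y 0, y 1, y 2, y 3, y 4]) ^ 2 - 3 * es 2 [y 0, y 1, y 2, y 3, y 4] + 12 := by
      rw [e]; positivity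
    generalize es 1 [y 0, y 1, y 2, y 3, y 4] = E1 at *
    generalize es 2 [y 0, y 1, y 2, y 3, y 4] = E2 at *
    have : ((I ^ 2 * (E2 : ℂ) + 2 * (I ^ 1 * (E1 : ℂ)) + 4) * (starRingEnd ℂ) (I ^ 1 * (E1 : ℂ) + 3)).re
        = 2 * E1 ^ 2 - 3 * E2 + 12 := by
      simp [I_sq]; ring
    rw [this]; exact e0

/-- Level B. -/
theorem levelB (w : Fin 6 → ℂ) (hw : ∀ i, 0 ≤ (w i).re) :
    0 < ((es 3 [w 0, w 1, w 2, w 3, w 4, w 5] + 3 * es 2 [w 0, w 1, w 2, w 3, w 4, w 5] + 7 * es 1 [w 0, w 1, w 2, w 3, w 4, w 5] + 13) *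
      (starRingEnd ℂ) (es 2 [w 0, w 1, w 2, w 3, w 4, w 5] + 3 * es 1 [w 0, w 1, w 2, w 3, w 4, w 5] + 7)).re := by
  have hβ : ∀ j : Fin 6, ∀ w : Fin 6 → ℂ, (∀ i, 0 ≤ (w i).re) → ∃ C D : ℂ,
      (∀ x, (fun w : Fin 6 → ℂ => es 2 [w 0, w 1, w 2, w 3, w 4, w 5] + 3 * es 1 [w 0, w 1, w 2, w 3, w 4, w 5] + 7) (Function.update w j x) = C + D * x) ∧
      0 < (C * (starRingEnd ℂ) D).re := by
    intro j w hw
    have hA := levelA (fun i => w (j.succAbove i)) (fun i => hw _)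
    refine ⟨_, _, fun x => ?_, hA⟩
    fin_cases j
    · simp [es, Function.update, Fin.succAbove, Fin.lt_def]; try ring
    · simp [es, Function.update, Fin.succAbove, Fin.lt_def]; try ring
    · simp [es, Function.update, Fin.succAbove, Fin.lt_def]; try ring
    · simp [es, Function.update, Fin.succAbove, Fin.lt_def]; try ring
    · simp [es, Function.update, Fin.succAbove, Fin.lt_def]; try ring
    · simp [es, Function.update, Fin.succAbove, Fin.lt_def]; try ring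
  have key := ind (n := 6) (fun w => es 3 [w 0, w 1, w 2, w 3, w 4, w 5] + 2 * es 2 [w 0, w 1, w 2, w 3, w 4, w 5] + 4 * es 1 [w 0, w 1, w 2, w 3, w 4, w 5] + 6)
    (fun w => es 2 [w 0, w 1, w 2, w 3, w 4, w 5] + 3 * es 1 [w 0, w 1, w 2, w 3, w 4, w 5] + 7) ?_ hβ ?_ w hw
  · obtain ⟨C, D, h1, h2⟩ := hβ 0 w hw
    have h3 := h1 (w 0)
    rw [Function.update_eq_self] at h3
    have hne : es 2 [w 0, w 1, w 2, w 3, w 4, w 5] + 3 * es 1 [w 0, w 1, w 2, w 3, w 4, w 5] + 7 ≠ 0 := by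
      intro h
      have h4 : C + D * w 0 = 0 := by rw [← h3]; exact h
      have h5 : (C * (starRingEnd ℂ) D).re = -((D * (starRingEnd ℂ) D) * w 0).re := by
        have : C = -(D * w 0) := by linear_combination h4
        rw [this, ← neg_re]; congr 1; ring
      rw [Complex.mul_conj, Complex.re_ofReal_mul] at h5
      have := Complex.normSq_nonneg D
      have := hw 0
      nlinarith [mul_nonneg (Complex.normSq_nonneg D) (hw 0)]
    set β := es 2 [w 0, w 1, w 2, w 3, w 4, w 5] + 3 * es 1 [w 0, w 1, w 2, w 3, w 4, w 5] + 7 with hβ'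
    have e : es 3 [w 0, w 1, w 2, w 3, w 4, w 5] + 3 * es 2 [w 0, w 1, w 2, w 3, w 4, w 5] + 7 * es 1 [w 0, w 1, w 2, w 3, w 4, w 5] + 13 =
      (es 3 [w 0, w 1, w 2, w 3, w 4, w 5] + 2 * es 2 [w 0, w 1, w 2, w 3, w 4, w 5] + 4 * es 1 [w 0, w 1, w 2, w 3, w 4, w 5] + 6) + β := by rw [hβ']; ring
    rw [e, add_mul, add_re]
    have h2 : 0 < (β * (starRingEnd ℂ) β).re := by
      rw [Complex.mul_conj, ofReal_re]
      exact Complex.normSq_pos.mpr hne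
    linarith
  · intro j w
    refine ⟨(fun w : Fin 6 → ℂ => es 3 [w 0, w 1, w 2, w 3, w 4, w 5] + 2 * es 2 [w 0, w 1, w 2, w 3, w 4, w 5] + 4 * es 1 [w 0, w 1, w 2, w 3, w 4, w 5] + 6) (Function.update w j 0),
      (fun w : Fin 6 → ℂ => es 3 [w 0, w 1, w 2, w 3, w 4, w 5] + 2 * es 2 [w 0, w 1, w 2, w 3, w 4, w 5] + 4 * es 1 [w 0, w 1, w 2, w 3, w 4, w 5] + 6) (Function.update w j 1) -
        (fun w : Fin 6 → ℂ => es 3 [w 0, w 1, w 2, w 3, w 4, w 5] + 2 * es 2 [w 0, w 1, w 2, w 3, w 4, w 5] + 4 * es 1 [w 0, w 1, w 2, w 3, w 4, w 5] + 6) (Function.update w j 0), fun x => ?_⟩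
    fin_cases j <;> simp [es, Function.update] <;> ring
  · intro y
    have h1 := es_I 1 [y 0, y 1, y 2, y 3, y 4, y 5]
    have h2 := es_I 2 [y 0, y 1, y 2, y 3, y 4, y 5]
    have h3 := es_I 3 [y 0, y 1, y 2, y 3, y 4, y 5]
    simp only [List.map_cons, List.map_nil] at h1 h2 h3
    simp only [h1, h2, h3]
    have e : 2 * (es 2 [y 0, y 1, y 2, y 3, y 4, y 5]) ^ 2 - 3 * es 1 [y 0, y 1, y 2, y 3, y 4, y 5] * es 3 [y 0, y 1, y 2, y 3, y 4, y 5]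
        + 12 * (es 1 [y 0, y 1, y 2, y 3, y 4, y 5]) ^ 2 - 20 * es 2 [y 0, y 1, y 2, y 3, y 4, y 5] + 42 =
        1 / 2 * (y 0 ^ 2 * ((y 1 ^ 2 + y 2 ^ 2 + y 3 ^ 2 + y 4 ^ 2 + y 5 ^ 2) + (y 1 + y 2 + y 3 + y 4 + y 5) ^ 2) + y 1 ^ 2 * ((y 0 ^ 2 + y 2 ^ 2 + y 3 ^ 2 + y 4 ^ 2 + y 5 ^ 2) + (y 0 + y 2 + y 3 + y 4 + y 5) ^ 2) + y 2 ^ 2 * ((y 0 ^ 2 + y 1 ^ 2 + y 3 ^ 2 + y 4 ^ 2 + y 5 ^ 2) + (y 0 + y 1 + y 3 + y 4 + y 5) ^ 2) + y 3 ^ 2 * ((y 0 ^ 2 + y 1 ^ 2 + y 2 ^ 2 + y 4 ^ 2 + y 5 ^ 2) + (y 0 + y 1 + y 2 + y 4 + y 5) ^ 2) + y 4 ^ 2 * ((y 0 ^ 2 + y 1 ^ 2 + y 2 ^ 2 + y 3 ^ 2 + y 5 ^ 2) + (y 0 + y 1 + y 2 + y 3 + y 5) ^ 2) + y 5 ^ 2 * ((y 0 ^ 2 + y 1 ^ 2 + y 2 ^ 2 + y 3 ^ 2 + y 4 ^ 2) + (y 0 + y 1 + y 2 + y 3 + y 4) ^ 2)) +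
        10 * (y 0 ^ 2 + y 1 ^ 2 + y 2 ^ 2 + y 3 ^ 2 + y 4 ^ 2 + y 5 ^ 2) + 2 * (es 1 [y 0, y 1, y 2, y 3, y 4, y 5]) ^ 2 + 42 := by
      simp [es]; ring
    have e0 : 0 ≤ 2 * (es 2 [y 0, y 1, y 2, y 3, y 4, y 5]) ^ 2 - 3 * es 1 [y 0, y 1, y 2, y 3, y 4, y 5] * es 3 [y 0, y 1, y 2, y 3, y 4, y 5]
        + 12 * (es 1 [y 0, y 1, y 2, y 3, y 4, y 5]) ^ 2 - 20 * es 2 [y 0, y 1, y 2, y 3, y 4, y 5] + 42 := by
      rw [e]; positivity
    generalize es 1 [y 0, y 1, y 2, y 3, y 4, y 5] = E1 at *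
    generalize es 2 [y 0, y 1, y 2, y 3, y 4, y 5] = E2 at *
    generalize es 3 [y 0, y 1, y 2, y 3, y 4, y 5] = E3 at *
    have : ((I ^ 3 * (E3 : ℂ) + 2 * (I ^ 2 * (E2 : ℂ)) + 4 * (I ^ 1 * (E1 : ℂ)) + 6) *
        (starRingEnd ℂ) (I ^ 2 * (E2 : ℂ) + 3 * (I ^ 1 * (E1 : ℂ)) + 7)).re
        = 2 * E2 ^ 2 - 3 * E1 * E3 + 12 * E1 ^ 2 - 20 * E2 + 42 := by
      simp [I_sq, pow_succ]; ring
    rw [this]; exact e0

end R523.BC
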