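import Mathlib
import Pool.Agent.R523.BCLevels

/-!
# The matroid: free coextension of the rank-3 matroid on seven points with four three-point lines

Rank 4 on `Fin 8`; the nonbases of size four are the sets `{7} ∪ L`, `L` one of the lines
`{0,2,3}`, `{1,4,5}`, `{2,4,6}`, `{3,5,6}`.
-/

namespace R523.BC

open Complex Finset

/-- The four circuit-hyperplanes. -/
def bad : Finset (Finset (Fin 8)) := {{0, 2, 3, 7}, {1, 4, 5, 7}, {2, 4, 6, 7}, {3, 5, 6, 7}}

/-- Their complements. -/
def badc : Finset (Finset (Fin 8)) := {{1, 4, 5, 6}, {0, 2, 3, 6}, {0, 1, 3, 5}, {0, 1, 2, 4}}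

/-- The independent sets. -/
def Ind (I : Finset (Fin 8)) : Prop := I.card ≤ 4 ∧ I ∉ bad

instance : DecidablePred Ind := fun I => by unfold Ind; infer_instance

theorem bad_card : ∀ X ∈ bad, X.card = 4 := by decide +kernel

theorem bad_inter : ∀ X ∈ bad, ∀ Y ∈ bad, X ≠ Y → (X ∩ Y).card ≤ 2 := by decide +kernel

theorem ind_sub : ∀ ⦃I J : Finset (Fin 8)⦄, Ind J → I ⊆ J → Ind I := by
  intro I J hJ hIJ
  refine ⟨(card_le_card hIJ).trans hJ.1, fun hI => ?_⟩
  have h4 := bad_card I hI
  have : I = J := eq_of_subset_of_card_le hIJ (by rw [h4]; exact hJ.1)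
  exact hJ.2 (this ▸ hI)

theorem ind_aug : ∀ ⦃I J : Finset (Fin 8)⦄, Ind I → Ind J → I.card < J.card →
    ∃ e ∈ J, e ∉ I ∧ Ind (insert e I) := by
  intro I J hI hJ hlt
  have hne : (J \ I).Nonempty := by
    rw [sdiff_nonempty]; intro h; exact absurd (card_le_card h) (by omega)
  obtain ⟨e, he⟩ := hne
  rw [mem_sdiff] at he
  by_cases hc : I.card ≤ 2
  · refine ⟨e, he.1, he.2, ?_, fun hb => ?_⟩
    · rw [card_insert_of_notMem he.2]; omega
    · have := bad_card _ hb
      rw [card_insert_of_notMem he.2] at this; omega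
  · have hI3 : I.card = 3 := by have := hJ.1; omega
    have hJ4 : J.card = 4 := by have := hJ.1; omega
    by_cases hb : insert e I ∈ bad
    · -- need another element
      by_cases h1 : J ⊆ insert e I
      · have : J = insert e I := eq_of_subset_of_card_le h1 (by
          rw [card_insert_of_notMem he.2]; omega)
        exact absurd (this ▸ hb) hJ.2
      · obtain ⟨f, hf⟩ := sdiff_nonempty.mpr h1
        rw [mem_sdiff, mem_insert, not_or] at hf
        refine ⟨f, hf.1, hf.2.2, by rw [card_insert_of_notMem hf.2.2]; omega, fun hb2 => ?_⟩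
        have hneq : insert e I ≠ insert f I := by
          intro h
          have : e ∈ insert f I := h ▸ mem_insert_self e I
          rw [mem_insert] at this
          rcases this with h | h
          · exact hf.2.1 h.symm
          · exact he.2 h
        have h2 := bad_inter _ hb _ hb2 hneq
        have h3 : I ⊆ insert e I ∩ insert f I := by
          intro x hx; simp [hx]
        have := card_le_card h3
        omega
    · exact ⟨e, he.1, he.2, by rw [card_insert_of_notMem he.2]; omega, hb⟩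

/-- The matroid. -/
noncomputable def Mx : Matroid (Fin 8) :=
  (IndepMatroid.ofFinset Set.univ Ind ⟨by simp, by decide⟩ ind_sub ind_aug
    (fun _ _ => Set.subset_univ _)).matroid

theorem Mx_ground : Mx.E = Set.univ := rfl

theorem Mx_indep (I : Finset (Fin 8)) : Mx.Indep (I : Set (Fin 8)) ↔ Ind I := by
  unfold Mx
  rw [IndepMatroid.matroid_Indep]
  exact IndepMatroid.ofFinset_indep _ _ _ _ _ _

theorem Mx_isBase_of (B : Finset (Fin 8)) (h4 : B.card = 4) (hB : B ∉ bad) :
    Mx.IsBase (B : Set (Fin 8)) := by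
  have hI : Mx.Indep (B : Set (Fin 8)) := (Mx_indep B).mpr ⟨h4.le, hB⟩
  obtain ⟨B', hB', hBB'⟩ := hI.exists_isBase_superset
  classical
  have hfin : B'.Finite := Set.toFinite B'
  have hc : ((hfin.toFinset : Finset (Fin 8)) : Set (Fin 8)) = B' := hfin.coe_toFinset
  have hI' : Ind hfin.toFinset := by
    rw [← Mx_indep, hc]; exact hB'.indep
  have hsub : B ⊆ hfin.toFinset := by
    intro x hx; rw [Set.Finite.mem_toFinset]; exact hBB' (by simpa using hx)
  have : B = hfin.toFinset := eq_of_subset_of_card_le hsub (by rw [h4]; exact hI'.1)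
  rw [this, hc]; exact hB'

theorem Mx_isBase (B : Finset (Fin 8)) :
    Mx.IsBase (B : Set (Fin 8)) ↔ B.card = 4 ∧ B ∉ bad := by
  constructor
  · intro h
    have hI : Ind B := (Mx_indep B).mp h.indep
    refine ⟨?_, hI.2⟩
    have h0 : Mx.IsBase (({0, 1, 2, 3} : Finset (Fin 8)) : Set (Fin 8)) :=
      Mx_isBase_of _ (by decide) (by decide)
    have := h.ncard_eq_ncard_of_isBase h0
    rw [Set.ncard_coe_finset, Set.ncard_coe_finset] at this
    rw [this]; decide
  · rintro ⟨h4, hB⟩
    exact Mx_isBase_of B h4 hB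

theorem comb_span : ∀ A : Finset (Fin 8),
    (∃ B ∈ powersetCard 4 A, B ∉ bad) ↔ ((univ \ A).card ≤ 4 ∧ univ \ A ∉ badc) := by
  decide +kernel

theorem Mx_spanning (A : Finset (Fin 8)) :
    Mx.Spanning (A : Set (Fin 8)) ↔ ((univ \ A).card ≤ 4 ∧ univ \ A ∉ badc) := by
  rw [← comb_span, Matroid.spanning_iff_exists_isBase_subset (by rw [Mx_ground]; exact Set.subset_univ _)]
  constructor
  · rintro ⟨B, hB, hBA⟩
    classical
    have hfin : B.Finite := Set.toFinite B
    have hc : ((hfin.toFinset : Finset (Fin 8)) : Set (Fin 8)) = B := hfin.coe_toFinset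
    rw [← hc, Mx_isBase] at hB
    refine ⟨hfin.toFinset, ?_, hB.2⟩
    rw [mem_powersetCard]
    refine ⟨fun x hx => ?_, hB.1⟩
    rw [Set.Finite.mem_toFinset] at hx
    have := hBA hx
    simpa using this
  · rintro ⟨B, hB, hBb⟩
    rw [mem_powersetCard] at hB
    exact ⟨B, (Mx_isBase B).mpr ⟨hB.2, hBb⟩, by exact_mod_cast hB.1⟩

theorem Mx_contract_spanning (A : Finset (Fin 8)) :
    (Mx.contract {7}).Spanning (A : Set (Fin 8)) ↔
      A ⊆ univ.erase 7 ∧ ((univ.erase 7 \ A).card ≤ 4 ∧ univ.erase 7 \ A ∉ badc) := by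
  rw [Matroid.contract_spanning_iff (by rw [Mx_ground]; exact Set.subset_univ _)]
  have h1 : ((A : Set (Fin 8)) ∪ {7}) = ((insert 7 A : Finset (Fin 8)) : Set (Fin 8)) := by
    rw [coe_insert, Set.union_singleton]
  have h2 : (univ \ insert 7 A : Finset (Fin 8)) = univ.erase 7 \ A := by
    ext x; simp
  rw [h1, Mx_spanning, h2, Set.disjoint_singleton_right, mem_coe]
  constructor
  · rintro ⟨h, h7⟩
    exact ⟨fun x hx => by rw [mem_erase]; exact ⟨fun h => h7 (h ▸ hx), mem_univ _⟩, h⟩
  · rintro ⟨h, h'⟩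
    exact ⟨h', fun h7 => by simpa using h h7⟩

theorem sum_le_four (s : Finset (Fin 8)) (g : Finset (Fin 8) → ℂ) :
    ∑ B ∈ s.powerset.filter (fun B => B.card ≤ 4), g B =
      ∑ k ∈ range 5, ∑ B ∈ powersetCard k s, g B := by
  rw [← sum_fiberwise_of_maps_to (s := s.powerset.filter (fun B => B.card ≤ 4)) (t := range 5)
    (g := fun B => B.card)]
  · apply sum_congr rfl
    intro k hk
    apply sum_congr _ (fun _ _ => rfl)
    ext B
    simp only [mem_filter, mem_powerset, mem_powersetCard, mem_range] at hk ⊢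
    constructor
    · rintro ⟨⟨h1, _⟩, h3⟩; exact ⟨h1, h3⟩
    · rintro ⟨h1, h3⟩; exact ⟨⟨h1, by omega⟩, h3⟩
  · intro B hB
    simp only [mem_filter, mem_powerset, mem_range] at hB ⊢
    omega

theorem key_sum (s : Finset (Fin 8)) (hs : univ.erase 7 ⊆ s) (v u : Fin 8 → ℂ)
    (huv : ∀ i ∈ s, v i * u i = -2) :
    (∑ A ∈ s.powerset.filter (fun A => (s \ A).card ≤ 4 ∧ (s \ A) ∉ badc), ∏ i ∈ A, v i) *
      ∏ i ∈ s, u i =
    ∑ k ∈ range 5, (-2) ^ (s.card - k) * ∑ B ∈ powersetCard k s, ∏ i ∈ B, u i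
      - (-2) ^ (s.card - 4) * ∑ B ∈ badc, ∏ i ∈ B, u i := by
  have h1 : (∑ A ∈ s.powerset.filter (fun A => (s \ A).card ≤ 4 ∧ (s \ A) ∉ badc), ∏ i ∈ A, v i) *
      ∏ i ∈ s, u i =
      ∑ B ∈ s.powerset.filter (fun B => B.card ≤ 4 ∧ B ∉ badc),
        (-2) ^ (s.card - B.card) * ∏ i ∈ B, u i := by
    rw [sum_mul]
    refine sum_nbij' (fun A => s \ A) (fun B => s \ B) ?_ ?_ ?_ ?_ ?_
    · intro A hA
      simp only [mem_filter, mem_powerset] at hA ⊢
      exact ⟨sdiff_subset, hA.2⟩
    · intro B hB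
      simp only [mem_filter, mem_powerset] at hB ⊢
      rw [Finset.sdiff_sdiff_eq_self hB.1]
      exact ⟨sdiff_subset, hB.2⟩
    · intro A hA
      simp only [mem_filter, mem_powerset] at hA
      exact Finset.sdiff_sdiff_eq_self hA.1
    · intro B hB
      simp only [mem_filter, mem_powerset] at hB
      exact Finset.sdiff_sdiff_eq_self hB.1
    · intro A hA
      simp only [mem_filter, mem_powerset] at hA
      have hc : s.card - (s \ A).card = A.card := by
        rw [card_sdiff_of_subset hA.1]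
        have := card_le_card hA.1
        omega
      rw [hc, ← prod_sdiff hA.1, mul_comm (∏ i ∈ s \ A, u i), ← mul_assoc, ← prod_mul_distrib,
        prod_congr rfl (fun i hi => huv i (hA.1 hi)), prod_const]
  rw [h1]
  have h2 : s.powerset.filter (fun B => B.card ≤ 4 ∧ B ∉ badc) =
      (s.powerset.filter (fun B => B.card ≤ 4)) \ badc := by
    ext B; simp only [mem_filter, mem_sdiff, mem_powerset]; tauto
  have h3 : badc ⊆ s.powerset.filter (fun B => B.card ≤ 4) := by
    intro B hB
    simp only [mem_filter, mem_powerset]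
    have hB1 : B ⊆ univ.erase 7 ∧ B.card ≤ 4 := by
      revert B; decide +kernel
    exact ⟨hB1.1.trans hs, hB1.2⟩
  have h4 := sum_sdiff (f := fun B : Finset (Fin 8) =>
    ((-2 : ℂ)) ^ (s.card - B.card) * ∏ i ∈ B, u i) h3
  have h5 : ∑ B ∈ badc, ((-2 : ℂ)) ^ (s.card - B.card) * ∏ i ∈ B, u i =
      (-2) ^ (s.card - 4) * ∑ B ∈ badc, ∏ i ∈ B, u i := by
    rw [mul_sum]
    apply sum_congr rfl
    intro B hB
    have : B.card = 4 := by revert B; decide +kernel
    rw [this]
  rw [h2, ← h5]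
  have h6 := sum_le_four s (fun B => ((-2 : ℂ)) ^ (s.card - B.card) * ∏ i ∈ B, u i)
  have h7 : ∑ k ∈ range 5, ∑ B ∈ powersetCard k s, ((-2 : ℂ)) ^ (s.card - B.card) * ∏ i ∈ B, u i =
      ∑ k ∈ range 5, (-2) ^ (s.card - k) * ∑ B ∈ powersetCard k s, ∏ i ∈ B, u i := by
    apply sum_congr rfl
    intro k _
    rw [mul_sum]
    apply sum_congr rfl
    intro B hB
    rw [(mem_powersetCard.mp hB).2]
  rw [← h7, ← h6, ← h4]
  ring

theorem es_eq_esymm (k : ℕ) (l : List ℂ) : es k l = ((l : Multiset ℂ)).esymm k := by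
  induction l generalizing k with
  | nil => cases k with
    | zero => simp [es, Multiset.esymm]
    | succ k => simp [es, Multiset.esymm]
  | cons x l ih => cases k with
    | zero => simp [es, Multiset.esymm]
    | succ k =>
      rw [es, ih, ih, ← Multiset.cons_coe]
      simp only [Multiset.esymm, Multiset.powersetCard_cons, Multiset.map_add, Multiset.sum_add,
        Multiset.map_map, Function.comp_def, Multiset.prod_cons, Multiset.sum_map_mul_left]

theorem esum_univ (u : Fin 8 → ℂ) (k : ℕ) : ∑ B ∈ powersetCard k (univ : Finset (Fin 8)), ∏ i ∈ B, u i =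
    es k [u 0, u 1, u 2, u 3, u 4, u 5, u 6, u 7] := by
  rw [es_eq_esymm, ← Finset.esymm_map_val]
  rfl

theorem esum_erase (u : Fin 8 → ℂ) (k : ℕ) :
    ∑ B ∈ powersetCard k ((univ : Finset (Fin 8)).erase 7), ∏ i ∈ B, u i =
    es k [u 0, u 1, u 2, u 3, u 4, u 5, u 6] := by
  rw [es_eq_esymm, ← Finset.esymm_map_val]
  rfl

end R523.BC
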