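import Mathlib

/-!
# Positivity of `Re (α * conj β)` on products of closed right half planes

`mob`: one variable.  `ind`: several variables, by moving the variables off the imaginary axis one
at a time.
-/

namespace R523.BC

open Complex

/-- A quadratic bounded below has nonnegative leading coefficient. -/
theorem quad_lead (s L c : ℝ) (h : ∀ y : ℝ, 0 ≤ s * y ^ 2 + L * y + c) : 0 ≤ s := by
  by_contra hneg
  push Not at hneg
  set z := (|c| + 1) / (-s) + 1 with hz
  have hs : (0 : ℝ) < -s := by linarith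
  have h1 := h z
  have h2 := h (-z)
  have hz1 : 1 ≤ z := by
    rw [hz]; have : 0 ≤ (|c| + 1) / (-s) := by positivity
    linarith
  have hzs : z * (-s) = |c| + 1 + (-s) := by
    rw [hz, add_mul, div_mul_cancel₀ _ (ne_of_gt hs)]; ring
  have h3 : z ^ 2 * (-s) ≤ c := by nlinarith
  have h4 : z ^ 2 * (-s) = z * (|c| + 1 + (-s)) := by rw [← hzs]; ring
  have h5 : |c| + 1 + (-s) ≤ z * (|c| + 1 + (-s)) := by
    have : 0 ≤ |c| + 1 + (-s) := by positivity
    nlinarith
  have := le_abs_self c
  linarith

/-- The real form of the one-variable step. -/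
theorem mobReal (p q s t k1 k2 : ℝ) (hk : 0 < k1)
    (hK : ∀ y : ℝ, 0 ≤ (p - t * y) * k1 + (q + s * y) * (k2 + y)) (x y : ℝ) (hx : 0 ≤ x) :
    0 ≤ (p + s * x - t * y) * (k1 + x) + (q + s * y + t * x) * (k2 + y) := by
  have hs0 : 0 ≤ s := by
    apply quad_lead s (q + s * k2 - t * k1) (p * k1 + q * k2)
    intro y
    have := hK y
    nlinarith
  have hp0 : 0 ≤ p + t * k2 := by
    have h1 := hK (-k2)
    have e : (p - t * -k2) * k1 + (q + s * -k2) * (k2 + -k2) = (p + t * k2) * k1 := by ring
    rw [e] at h1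
    exact nonneg_of_mul_nonneg_left h1 hk
  have h0 := hK y
  have e : (p + s * x - t * y) * (k1 + x) + (q + s * y + t * x) * (k2 + y) =
      ((p - t * y) * k1 + (q + s * y) * (k2 + y)) + x * ((p + t * k2) + s * k1) + s * x ^ 2 := by
    ring
  rw [e]
  positivity

/-- One-variable step. -/
theorem mob (A B C D : ℂ) (hCD : 0 < (C * (starRingEnd ℂ) D).re)
    (h : ∀ y : ℝ, 0 ≤ ((A + B * (I * y)) * (starRingEnd ℂ) (C + D * (I * y))).re)
    (w : ℂ) (hw : 0 ≤ w.re) :
    0 ≤ ((A + B * w) * (starRingEnd ℂ) (C + D * w)).re := by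
  have hD : D ≠ 0 := by
    rintro rfl
    simp at hCD
  have hform : ∀ z : ℂ, (A + B * z) * (starRingEnd ℂ) (C + D * z) =
      (A * (starRingEnd ℂ) D + B * (starRingEnd ℂ) D * z) * (starRingEnd ℂ) (C / D + z) := by
    intro z
    have : C + D * z = D * (C / D + z) := by field_simp
    rw [this, map_mul]; ring
  have hk : 0 < (C / D).re := by
    have h1 : C * (starRingEnd ℂ) D = (C / D) * ((Complex.normSq D : ℝ) : ℂ) := by
      rw [← Complex.mul_conj]; field_simp
    rw [h1, Complex.re_mul_ofReal] at hCD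
    exact pos_of_mul_pos_left hCD (Complex.normSq_nonneg D)
  have hre : ∀ z : ℂ, ((A + B * z) * (starRingEnd ℂ) (C + D * z)).re =
      ((A * (starRingEnd ℂ) D).re + (B * (starRingEnd ℂ) D).re * z.re
        - (B * (starRingEnd ℂ) D).im * z.im) * ((C / D).re + z.re) +
      ((A * (starRingEnd ℂ) D).im + (B * (starRingEnd ℂ) D).re * z.im
        + (B * (starRingEnd ℂ) D).im * z.re) * ((C / D).im + z.im) := by
    intro z
    rw [hform z]
    generalize A * (starRingEnd ℂ) D = P
    generalize B * (starRingEnd ℂ) D = S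
    generalize C / D = k
    simp only [mul_re, add_re, add_im, mul_im, conj_re, conj_im]
    ring
  rw [hre w]
  apply mobReal _ _ _ _ _ _ hk _ _ _ hw
  intro y
  have h1 := h y
  rw [hre (I * y)] at h1
  simpa using h1

/-- Several variables. -/
theorem ind {n : ℕ} (α β : (Fin n → ℂ) → ℂ)
    (hα : ∀ j w, ∃ A B : ℂ, ∀ x, α (Function.update w j x) = A + B * x)
    (hβ : ∀ j w, (∀ i, 0 ≤ (w i).re) → ∃ C D : ℂ, (∀ x, β (Function.update w j x) = C + D * x) ∧
      0 < (C * (starRingEnd ℂ) D).re)
    (hb : ∀ y : Fin n → ℝ, 0 ≤ (α (fun i => I * (y i : ℂ)) *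
      (starRingEnd ℂ) (β (fun i => I * (y i : ℂ)))).re)
    (w : Fin n → ℂ) (hw : ∀ i, 0 ≤ (w i).re) :
    0 ≤ (α w * (starRingEnd ℂ) (β w)).re := by
  classical
  have key : ∀ s : Finset (Fin n), ∀ w : Fin n → ℂ, (∀ i, 0 ≤ (w i).re) →
      (∀ i, i ∉ s → (w i).re = 0) → 0 ≤ (α w * (starRingEnd ℂ) (β w)).re := by
    intro s
    induction s using Finset.induction_on with
    | empty =>
      intro w _ h0
      have : w = fun i => I * ((w i).im : ℂ) := by
        funext i
        apply Complex.ext
        · simp [h0 i (by simp)]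
        · simp
      rw [this]
      exact hb _
    | insert j s hj ih =>
      intro w hw h0
      obtain ⟨A, B, hAB⟩ := hα j w
      obtain ⟨C, D, hCD, hpos⟩ := hβ j w hw
      have hw' : w = Function.update w j (w j) := by simp
      rw [hw', hAB, hCD]
      apply mob A B C D hpos _ _ (hw j)
      intro y
      rw [← hAB, ← hCD]
      apply ih
      · intro i
        by_cases hi : i = j
        · subst hi; simp
        · simp [Function.update_of_ne hi, hw i]
      · intro i hi
        by_cases hij : i = j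
        · subst hij; simp
        · rw [Function.update_of_ne hij]
          exact h0 i (by simp [hij, hi])
  exact key Finset.univ w hw (by simp)

end R523.BC
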