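import Mathlib
import Pool.Agent.R523.BCLevels

/-!
# The sum of squares certificate for the last level
-/

namespace R523.BC

theorem blk0 (u0 u1 u2 u3 u4 u5 u6 u7 u8 u9 u10 u11 : ℝ) :
    0 ≤ (21 / 16) * u0 ^ 2 + (u0 * u1) + (13 / 8) * (u0 * u2) + (15 / 8) * (u0 * u3) + (13 / 8) * (u0 * u4) + (13 / 8) * (u0 * u5) + (13 / 8) * (u0 * u6) + 4 * (u0 * u7) + 2 * (u0 * u8) + 2 * (u0 * u9) + 2 * (u0 * u10) + 2 * (u0 * u11) + (5 / 4) * u1 ^ 2 + (11 / 4) * (u1 * u2) + (15 / 8) * (u1 * u3) + 2 * (u1 * u4) + 2 * (u1 * u5) + (13 / 8) * (u1 * u6) + (3 / 8) * (u1 * u7) + 2 * (u1 * u8) + (3 / 2) * (u1 * u9) + (3 / 2) * (u1 * u10) + (11 / 8) * (u1 * u11) + (301 / 8) * u2 ^ 2 + (43 / 4) * (u2 * u3) + (9 / 4) * (u2 * u4) + (u2 * u5) + (1 / 8) * (u2 * u6) + (15 / 2) * (u2 * u7) + (7 / 4) * (u2 * u8) + (3 / 4) * (u2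 * u9) + (9 / 8) * (u2 * u10) + (1 / 2) * (u2 * u11) + (361 / 16) * u3 ^ 2 + (19 / 16) * (u3 * u4) + (7 / 4) * (u3 * u5) + (17 / 8) * (u3 * u6) + 11 * (u3 * u7) + (11 / 8) * (u3 * u8) + (1 / 2) * (u3 * u9) + (11 / 8) * (u3 * u10) + 2 * (u3 * u11) + (25 / 16) * u4 ^ 2 + (9 / 4) * (u4 * u5) + (19 / 8) * (u4 * u6) + (1 / 2) * (u4 * u7) + 2 * (u4 * u8) + (17 / 8) * (u4 * u9) + (3 / 2) * (u4 * u10) + 2 * (u4 * u11) + (11 / 8) * u5 ^ 2 + (19 / 8) * (u5 * u6) + (1 / 2) * (u5 * u7) + (u5 * u8) + (29 / 16) * (u5 * u9) + (7 / 4) * (u5 * u10) + (15 / 8) * (u5 * u11) + (15 / 8) * u6 ^ 2 + (3 / 4) * (u6 * u8) + (3 / 2) * (u6 * u9) + (19 / 8) * (u6 * u10) + (5 / 2) * (u6 * u11) + 77 * u7 ^ 2 + (5 / 2) * (u7 * u8) + (3 / 2) * (u7 * u9) + 2 * (u7 * u10) + 2 * (u7 * u11) + 3 * u8 ^ 2 + 3 * (u8 * u9) + 2 * (u8 * u10)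 + (3 / 2) * (u8 * u11) + (11 / 8) * u9 ^ 2 + (17 / 8) * (u9 * u10) + (9 / 4) * (u9 * u11) + (31 / 16) * u10 ^ 2 + 3 * (u10 * u11) + (7 / 4) * u11 ^ 2 := by
  have h : (21 / 16) * u0 ^ 2 + (u0 * u1) + (13 / 8) * (u0 * u2) + (15 / 8) * (u0 * u3) + (13 / 8) * (u0 * u4) + (13 / 8) * (u0 * u5) + (13 / 8) * (u0 * u6) + 4 * (u0 * u7) + 2 * (u0 * u8) + 2 * (u0 * u9) + 2 * (u0 * u10) + 2 * (u0 * u11) + (5 / 4) * u1 ^ 2 + (11 / 4) * (u1 * u2) + (15 / 8) * (u1 * u3) + 2 * (u1 * u4) + 2 * (u1 * u5) + (13 / 8) * (u1 * u6) + (3 / 8) * (u1 * u7) + 2 * (u1 * u8) + (3 / 2) * (u1 * u9) + (3 / 2) * (u1 * u10) + (11 / 8) * (u1 * u11) + (301 / 8) * u2 ^ 2 + (43 / 4) * (u2 * u3) + (9 / 4) * (u2 * u4) + (u2 * u5) + (1 / 8) * (u2 * u6) + (15 / 2) * (u2 * u7) + (7 / 4) * (u2 * u8) + (3 / 4) * (u2 * u9) + (9 / 8) * (u2 * u10)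 + (1 / 2) * (u2 * u11) + (361 / 16) * u3 ^ 2 + (19 / 16) * (u3 * u4) + (7 / 4) * (u3 * u5) + (17 / 8) * (u3 * u6) + 11 * (u3 * u7) + (11 / 8) * (u3 * u8) + (1 / 2) * (u3 * u9) + (11 / 8) * (u3 * u10) + 2 * (u3 * u11) + (25 / 16) * u4 ^ 2 + (9 / 4) * (u4 * u5) + (19 / 8) * (u4 * u6) + (1 / 2) * (u4 * u7) + 2 * (u4 * u8) + (17 / 8) * (u4 * u9) + (3 / 2) * (u4 * u10) + 2 * (u4 * u11) + (11 / 8) * u5 ^ 2 + (19 / 8) * (u5 * u6) + (1 / 2) * (u5 * u7) + (u5 * u8) + (29 / 16) * (u5 * u9) + (7 / 4) * (u5 * u10) + (15 / 8) * (u5 * u11) + (15 / 8) * u6 ^ 2 + (3 / 4) * (u6 * u8) + (3 / 2) * (u6 * u9) + (19 / 8) * (u6 * u10) + (5 / 2) * (u6 * u11) + 77 * u7 ^ 2 + (5 / 2) * (u7 * u8) + (3 / 2) * (u7 * u9) + 2 * (u7 * u10) + 2 * (u7 * u11) + 3 * u8 ^ 2 + 3 * (u8 * u9) + 2 * (u8 * u10) + (3 / 2) * (u8 * u11) + (11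 / 8) * u9 ^ 2 + (17 / 8) * (u9 * u10) + (9 / 4) * (u9 * u11) + (31 / 16) * u10 ^ 2 + 3 * (u10 * u11) + (7 / 4) * u11 ^ 2 =
      77 * ((2 / 77) * u0 + (3 / 1232) * u1 + (15 / 308) * u2 + (1 / 14) * u3 + (1 / 308) * u4 + (1 / 308) * u5 + u7 + (5 / 308) * u8 + (3 / 308) * u9 + (1 / 77) * u10 + (1 / 77) * u11) ^ 2 + (46129 / 1232) * ((881 / 46129) * u0 + (6731 / 184516) * u1 + u2 + (6292 / 46129) * u3 + (1371 / 46129) * u4 + (601 / 46129) * u5 + (77 / 46129) * u6 + (1003 / 46129) * u8 + (417 / 46129) * u9 + (633 / 46129) * u10 + (248 / 46129) * u11) ^ 2 + (15848469 / 738064) * ((73501 / 2264067) * u0 + (1089091 / 31696938) * u1 + u3 + (19 / 962) * u4 + (583516 / 15848469) * u5 + (777901 / 15848469) * u6 + (359561 / 15848469) * u8 + (110902 / 15848469) * u9 + (44775 / 1760941) * u10 + (51160 / 1219113)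 * u11) ^ 2 + (748289501 / 253575504) * ((237389362 / 748289501) * u0 + (482056537 / 1496579002) * u1 + (487941741 / 1496579002) * u4 + (118520644 / 748289501) * u5 + (88682722 / 748289501) * u6 + u8 + (374545240 / 748289501) * u9 + (243485082 / 748289501) * u10 + (179771176 / 748289501) * u11) ^ 2 + (2666477185 / 1496579002) * ((7975460561 / 21331817480) * u0 + (31672702019 / 85327269920) * u1 + (25161704851 / 42663634960) * u4 + (6539971431 / 10665908740) * u5 + u6 + (6788577617 / 21331817480) * u9 + (12523914851 / 21331817480) * u10 + (671313917 / 1066590874) * u11) ^ 2 + (333460845419 / 341309079680) * ((85592732929 / 333460845419) * u0 + (17053693051 / 1333843381676) * u1 - (142865537301 / 666921690838) * u4 + (17567630358 / 333460845419) * u5 + (6059189381 / 25650834263) * u9 + u10 + (195321929860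 / 333460845419) * u11) ^ 2 + (53144632900995 / 85365976427264) * (-((9127780972348 / 53144632900995) * u0) + u1 + (1405392303454 / 3542975526733) * u4 + (6790015652492 / 10628926580199) * u5 + (3540690410816 / 53144632900995) * u9 - (147136796128 / 17714877633665) * u11) ^ 2 + (506347106817649 / 850314126415920) * (u0 + (143723178591270 / 506347106817649) * u4 + (229061694688940 / 506347106817649) * u5 + (201087801727522 / 506347106817649) * u9 + (126671788684212 / 506347106817649) * u11) ^ 2 + (910335304349387 / 2025388427270596) * ((329755803599556 / 910335304349387) * u4 + (34950258435607 / 3641341217397548) * u5 + (815861170817445 / 1820670608698774) * u9 + u11) ^ 2 + (2454822038092663 / 7282682434795096) * (u4 + (528828594757620 / 2454822038092663) * u5 + (902762993112140 / 2454822038092663) *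 u9) ^ 2 + (31499721702735535 / 157108610437930432) * (u5 + (21677817525273868 / 31499721702735535) * u9) ^ 2 + (15580950503228939 / 251997773621884280) * (u9) ^ 2 := by
    ring
  rw [h]; positivity

theorem blk1 (u0 u1 u2 u3 u4 u5 : ℝ) :
    0 ≤ (3 / 4) * u0 ^ 2 - (11 / 8) * (u0 * u1) - (3 / 8) * (u0 * u3) - (1 / 2) * (u0 * u4) - (1 / 2) * (u0 * u5) + (299 / 16) * u1 ^ 2 + (5 / 8) * (u1 * u2) + (1 / 2) * (u1 * u3) + (3 / 4) * (u1 * u4) + (3 / 4) * (u1 * u5) + (7 / 16) * u2 ^ 2 + (1 / 8) * (u2 * u3) + (1 / 4) * (u2 * u4) + (3 / 8) * (u2 * u5) + (3 / 8) * u3 ^ 2 + (5 / 8) * (u3 * u5) + (5 / 16) * u4 ^ 2 + (7 / 8) * (u4 * u5) + (17 / 16) * u5 ^ 2 := by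
  have h : (3 / 4) * u0 ^ 2 - (11 / 8) * (u0 * u1) - (3 / 8) * (u0 * u3) - (1 / 2) * (u0 * u4) - (1 / 2) * (u0 * u5) + (299 / 16) * u1 ^ 2 + (5 / 8) * (u1 * u2) + (1 / 2) * (u1 * u3) + (3 / 4) * (u1 * u4) + (3 / 4) * (u1 * u5) + (7 / 16) * u2 ^ 2 + (1 / 8) * (u2 * u3) + (1 / 4) * (u2 * u4) + (3 / 8) * (u2 * u5) + (3 / 8) * u3 ^ 2 + (5 / 8) * (u3 * u5) + (5 / 16) * u4 ^ 2 + (7 / 8) * (u4 * u5) + (17 / 16) * u5 ^ 2 =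
      (299 / 16) * (-((11 / 299) * u0) + u1 + (5 / 299) * u2 + (4 / 299) * u3 + (6 / 299) * u4 + (6 / 299) * u5) ^ 2 + (5047 / 4784) * (-((1130 / 5047) * u0) + (867 / 5047) * u2 + (1471 / 5047) * u3 + (2057 / 5047) * u4 + u5) ^ 2 + (54251 / 80752) * (u0 + (4205 / 54251) * u2 - (8839 / 54251) * u3 - (11300 / 54251) * u4) ^ 2 + (172347 / 434008) * (u2 + (12137 / 344694) * u3 + (48359 / 344694) * u4) ^ 2 + (1454389 / 5515104) * (u3 - (855383 / 1454389) * u4) ^ 2 + (9005 / 5817556) * (u4) ^ 2 := by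
    ring
  rw [h]; positivity

theorem blk2 (u0 u1 u2 u3 u4 u5 u6 : ℝ) :
    0 ≤ (11 / 16) * u0 ^ 2 - (5 / 4) * (u0 * u1) - (11 / 8) * (u0 * u2) - (3 / 8) * (u0 * u3) - (3 / 8) * (u0 * u4) - (3 / 8) * (u0 * u5) + (259 / 8) * u1 ^ 2 + (13 / 4) * (u1 * u2) - (1 / 2) * (u1 * u3) + (1 / 4) * (u1 * u4) + (3 / 8) * (u1 * u5) - (5 / 4) * (u1 * u6) + (299 / 16) * u2 ^ 2 + (15 / 16) * (u2 * u3) - (1 / 8) * (u2 * u4) + (1 / 2) * (u2 * u5) + (3 / 8) * (u2 * u6) + (23 / 16) * u3 ^ 2 - (3 / 4) * (u3 * u4) + (5 / 8) * (u3 * u5) + (7 / 8) * (u3 * u6) + (5 / 16) * u4 ^ 2 - (1 / 8) * (u4 * u5) - (9 / 16) * (u4 * u6) + (3 / 8) * u5 ^ 2 + (1 / 8) * (u5 * u6) + (7 / 8) * u6 ^ 2 := by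
  have h : (11 / 16) * u0 ^ 2 - (5 / 4) * (u0 * u1) - (11 / 8) * (u0 * u2) - (3 / 8) * (u0 * u3) - (3 / 8) * (u0 * u4) - (3 / 8) * (u0 * u5) + (259 / 8) * u1 ^ 2 + (13 / 4) * (u1 * u2) - (1 / 2) * (u1 * u3) + (1 / 4) * (u1 * u4) + (3 / 8) * (u1 * u5) - (5 / 4) * (u1 * u6) + (299 / 16) * u2 ^ 2 + (15 / 16) * (u2 * u3) - (1 / 8) * (u2 * u4) + (1 / 2) * (u2 * u5) + (3 / 8) * (u2 * u6) + (23 / 16) * u3 ^ 2 - (3 / 4) * (u3 * u4) + (5 / 8) * (u3 * u5) + (7 / 8) * (u3 * u6) + (5 / 16) * u4 ^ 2 - (1 / 8) * (u4 * u5) - (9 / 16) * (u4 * u6) + (3 / 8) * u5 ^ 2 + (1 / 8) * (u5 * u6) + (7 / 8) * u6 ^ 2 =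
      (259 / 8) * (-((5 / 259) * u0) + u1 + (13 / 259) * u2 - (2 / 259) * u3 + (1 / 259) * u4 + (3 / 518) * u5 - (5 / 259) * u6) ^ 2 + (77103 / 4144) * (-((2719 / 77103) * u0) + u2 + (3989 / 154206) * u3 - (95 / 25701) * u4 + (997 / 77103) * u5 + (907 / 77103) * u6) ^ 2 + (7022513 / 4934592) * (-((865298 / 7022513) * u0) + u3 - (1836930 / 7022513) * u4 + (1518494 / 7022513) * u5 + (2107130 / 7022513) * u6) ^ 2 + (20568469 / 28090052) * ((2711711 / 41136938) * u0 - (37378017 / 164547752) * u4 - (1631709 / 41136938) * u5 + u6) ^ 2 + (51627501 / 82273876) * (u0 - (292784749 / 826040016) * u4 - (44613635 / 206510004) * u5) ^ 2 + (904759313 / 3304160064) * (-((482255039 / 3619037252) * u4) + u5) ^ 2 + (43039351471 / 463236768256) * (u4) ^ 2 := by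
    ring
  rw [h]; positivity

theorem blk3 (u0 u1 u2 u3 u4 : ℝ) :
    0 ≤ (273 / 16) * u0 ^ 2 - (9 / 8) * (u0 * u1) - (5 / 4) * (u0 * u2) + (1 / 4) * (u0 * u3) - (3 / 2) * (u0 * u4) + (7 / 8) * u1 ^ 2 + (5 / 8) * (u1 * u2) - (3 / 8) * (u1 * u3) + (9 / 8) * (u1 * u4) + (3 / 8) * u2 ^ 2 - (1 / 8) * (u2 * u3) + (1 / 2) * (u2 * u4) + (7 / 16) * u3 ^ 2 - (3 / 4) * (u3 * u4) + (5 / 4) * u4 ^ 2 := by
  have h : (273 / 16) * u0 ^ 2 - (9 / 8) * (u0 * u1) - (5 / 4) * (u0 * u2) + (1 / 4) * (u0 * u3) - (3 / 2) * (u0 * u4) + (7 / 8) * u1 ^ 2 + (5 / 8) * (u1 * u2) - (3 / 8) * (u1 * u3) + (9 / 8) * (u1 * u4) + (3 / 8) * u2 ^ 2 - (1 / 8) * (u2 * u3) + (1 / 2) * (u2 * u4) + (7 / 16) * u3 ^ 2 - (3 / 4) * (u3 * u4) + (5 / 4) * u4 ^ 2 =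
      (273 / 16) * (u0 - (3 / 91) * u1 - (10 / 273) * u2 + (2 / 273) * u3 - (4 / 91) * u4) ^ 2 + (443 / 364) * ((783 / 1772) * u1 + (81 / 443) * u2 - (269 / 886) * u3 + u4) ^ 2 + (17545 / 28352) * (u1 + (5488 / 17545) * u2 - (114 / 3509) * u3) ^ 2 + (54529 / 168432) * ((2683 / 54529) * u2 + u3) ^ 2 + (1090963 / 4362320) * (u2) ^ 2 := by
    ring
  rw [h]; positivity

theorem blk4 (u0 u1 u2 u3 u4 u5 u6 u7 u8 : ℝ) :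
    0 ≤ 234 * u0 ^ 2 + (21 / 2) * (u0 * u1) + 14 * (u0 * u2) + (15 / 2) * (u0 * u3) + 11 * (u0 * u4) + 11 * (u0 * u5) + (9 / 2) * (u0 * u6) + (15 / 2) * (u0 * u7) + 11 * (u0 * u8) + 15 * u1 ^ 2 + (13 / 4) * (u1 * u2) + (25 / 4) * (u1 * u3) + (11 / 8) * (u1 * u4) - 4 * (u1 * u5) + (1 / 8) * (u1 * u6) + (1 / 4) * (u1 * u7) + (1 / 2) * (u1 * u8) + (119 / 32) * u2 ^ 2 + (13 / 4) * (u2 * u3) + (5 / 2) * (u2 * u4) + (43 / 16) * (u2 * u5) + (11 / 8) * (u2 * u6) + (13 / 4) * (u2 * u7) + (1 / 2) * (u2 * u8) + (35 / 8) * u3 ^ 2 + (11 / 8) * (u3 * u4) + (31 / 8) * (u3 * u5) + (7 / 4) * (u3 * u6) + (7 / 4) * (u3 * u7) + (3 / 4) * (u3 * u8) + 9 * u4 ^ 2 + (17 / 8) * (u4 * u5) + (29 / 8) * (u4 * u6) - (13 / 8) * (u4 * u7) + (33 / 8) * (u4 * u8) + (71 / 8) * u5 ^ 2 + (29 / 8) * (u5 * u6) + (3 / 4) * (u5 * u7) + (9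 / 8) * (u5 * u8) + (21 / 2) * u6 ^ 2 + 2 * (u6 * u8) + (75 / 8) * u7 ^ 2 + (19 / 4) * (u7 * u8) + (47 / 8) * u8 ^ 2 := by
  have h : 234 * u0 ^ 2 + (21 / 2) * (u0 * u1) + 14 * (u0 * u2) + (15 / 2) * (u0 * u3) + 11 * (u0 * u4) + 11 * (u0 * u5) + (9 / 2) * (u0 * u6) + (15 / 2) * (u0 * u7) + 11 * (u0 * u8) + 15 * u1 ^ 2 + (13 / 4) * (u1 * u2) + (25 / 4) * (u1 * u3) + (11 / 8) * (u1 * u4) - 4 * (u1 * u5) + (1 / 8) * (u1 * u6) + (1 / 4) * (u1 * u7) + (1 / 2) * (u1 * u8) + (119 / 32) * u2 ^ 2 + (13 / 4) * (u2 * u3) + (5 / 2) * (u2 * u4) + (43 / 16) * (u2 * u5) + (11 / 8) * (u2 * u6) + (13 / 4) * (u2 * u7) + (1 / 2) * (u2 * u8) + (35 / 8) * u3 ^ 2 + (11 / 8) * (u3 * u4) + (31 / 8) * (u3 * u5) + (7 / 4) * (u3 * u6) + (7 / 4) * (u3 * u7) + (3 / 4) * (u3 * u8) + 9 * u4 ^ 2 + (17 / 8) * (u4 * u5) + (29 / 8) *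 (u4 * u6) - (13 / 8) * (u4 * u7) + (33 / 8) * (u4 * u8) + (71 / 8) * u5 ^ 2 + (29 / 8) * (u5 * u6) + (3 / 4) * (u5 * u7) + (9 / 8) * (u5 * u8) + (21 / 2) * u6 ^ 2 + 2 * (u6 * u8) + (75 / 8) * u7 ^ 2 + (19 / 4) * (u7 * u8) + (47 / 8) * u8 ^ 2 =
      234 * (u0 + (7 / 312) * u1 + (7 / 234) * u2 + (5 / 312) * u3 + (11 / 468) * u4 + (11 / 468) * u5 + (1 / 104) * u6 + (5 / 312) * u7 + (11 / 468) * u8) ^ 2 + (6191 / 416) * (u1 + (1832 / 18573) * u2 + (1265 / 6191) * u3 + (704 / 18573) * u4 - (2650 / 18573) * u5 + (5 / 6191) * u6 + (17 / 6191) * u7 + (158 / 18573) * u8) ^ 2 + (129743 / 12382) * ((183949 / 3113832) * u2 + (82859 / 1037944) * u3 + (261383 / 1556916) * u4 + (22757 / 135384) * u5 + u6 - (3575 / 1037944) * u7 + (140711 / 1556916) * u8) ^ 2 + (154689649 / 16607104) * ((75276101 / 464068947) * u2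 + (13442371 / 154689649) * u3 - (44646418 / 464068947) * u4 + (14884427 / 464068947) * u5 + u7 + (114079502 / 464068947) * u8) ^ 2 + (10479040899 / 1237517192) * ((1325710859 / 10479040899) * u2 + (1564973330 / 31437122697) * u3 + u4 + (5544725023 / 62874245394) * u5 + (14773944557 / 62874245394) * u8) ^ 2 + (24358761494807 / 3017963778912) * ((3445560481803 / 24358761494807) * u2 + (6275818469210 / 24358761494807) * u3 + u5 + (130357039231 / 24358761494807) * u8) ^ 2 + (901938311815985 / 194870091958456) * (-((477210091664037 / 3607753247263940) * u2) - (497291638167 / 18596666223010) * u3 + u8) ^ 2 + (891567581892981 / 297546659568160) * ((397712009264623 / 1783135163785962) * u2 + u3) ^ 2 + (7073096495861995411 / 2767425774195813024) * (u2) ^ 2 := by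
    ring
  rw [h]; positivity

theorem blk5 (u0 u1 u2 u3 : ℝ) :
    0 ≤ (93 / 32) * u0 ^ 2 + (9 / 4) * (u0 * u1) + (33 / 16) * (u0 * u2) + (9 / 4) * (u0 * u3) + (15 / 4) * u1 ^ 2 + (31 / 8) * (u1 * u2) + (3 / 4) * (u1 * u3) + (73 / 8) * u2 ^ 2 + (3 / 4) * (u2 * u3) + (29 / 8) * u3 ^ 2 := by
  have h : (93 / 32) * u0 ^ 2 + (9 / 4) * (u0 * u1) + (33 / 16) * (u0 * u2) + (9 / 4) * (u0 * u3) + (15 / 4) * u1 ^ 2 + (31 / 8) * (u1 * u2) + (3 / 4) * (u1 * u3) + (73 / 8) * u2 ^ 2 + (3 / 4) * (u2 * u3) + (29 / 8) * u3 ^ 2 =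
      (73 / 8) * ((33 / 292) * u0 + (31 / 146) * u1 + u2 + (3 / 73) * u3) ^ 2 + (527 / 146) * ((2529 / 8432) * u0 + (345 / 4216) * u1 + u3) ^ 2 + (223579 / 67456) * ((110283 / 447158) * u0 + u1) ^ 2 + (8096739 / 3577264) * (u0) ^ 2 := by
    ring
  rw [h]; positivity

theorem blk6 (u0 u1 u2 u3 u4 : ℝ) :
    0 ≤ (73 / 16) * u0 ^ 2 - (1 / 4) * (u0 * u1) + (9 / 4) * (u0 * u2) + (23 / 8) * (u0 * u3) + (1 / 8) * (u0 * u4) + (83 / 16) * u1 ^ 2 + (1 / 2) * (u1 * u2) - (5 / 4) * (u1 * u3) + (3 / 8) * (u1 * u4) + 9 * u2 ^ 2 - (7 / 4) * (u2 * u3) + (29 / 8) * (u2 * u4) + (69 / 8) * u3 ^ 2 + (9 / 4) * (u3 * u4) + (39 / 8) * u4 ^ 2 := by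
  have h : (73 / 16) * u0 ^ 2 - (1 / 4) * (u0 * u1) + (9 / 4) * (u0 * u2) + (23 / 8) * (u0 * u3) + (1 / 8) * (u0 * u4) + (83 / 16) * u1 ^ 2 + (1 / 2) * (u1 * u2) - (5 / 4) * (u1 * u3) + (3 / 8) * (u1 * u4) + 9 * u2 ^ 2 - (7 / 4) * (u2 * u3) + (29 / 8) * (u2 * u4) + (69 / 8) * u3 ^ 2 + (9 / 4) * (u3 * u4) + (39 / 8) * u4 ^ 2 =
      9 * ((1 / 8) * u0 + (1 / 36) * u1 + u2 - (7 / 72) * u3 + (29 / 144) * u4) ^ 2 + (4919 / 576) * ((891 / 4919) * u0 - (346 / 4919) * u1 + u3 + (1499 / 9838) * u4) ^ 2 + (404405 / 78704) * (-((3734 / 404405) * u0) + u1 + (17998 / 404405) * u4) ^ 2 + (55666073 / 12940960) * (-((5145919 / 55666073) * u0) + u4) ^ 2 + (7311378445 / 1781314336) * (u0) ^ 2 := by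
    ring
  rw [h]; positivity

theorem blk7 (u0 u1 u2 u3 : ℝ) :
    0 ≤ (61 / 16) * u0 ^ 2 - (1 / 2) * (u0 * u1) - (1 / 2) * (u0 * u2) + (15 / 8) * (u0 * u3) + (75 / 16) * u1 ^ 2 - (13 / 8) * (u1 * u2) + (1 / 4) * (u1 * u3) + (21 / 2) * u2 ^ 2 - (3 / 2) * (u2 * u3) + (29 / 8) * u3 ^ 2 := by
  have h : (61 / 16) * u0 ^ 2 - (1 / 2) * (u0 * u1) - (1 / 2) * (u0 * u2) + (15 / 8) * (u0 * u3) + (75 / 16) * u1 ^ 2 - (13 / 8) * (u1 * u2) + (1 / 4) * (u1 * u3) + (21 / 2) * u2 ^ 2 - (3 / 2) * (u2 * u3) + (29 / 8) * u3 ^ 2 =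
      (21 / 2) * (-((1 / 42) * u0) - (13 / 168) * u1 + u2 - (1 / 14) * u3) ^ 2 + (12431 / 2688) * (-((724 / 12431) * u0) + u1 + (180 / 12431) * u3) ^ 2 + (753987 / 198896) * (u0 + (183689 / 753987) * u3) ^ 2 + (40358959 / 12063792) * (u3) ^ 2 := by
    ring
  rw [h]; positivity

set_option maxHeartbeats 4000000 in
theorem F_nonneg (a0 a1 a2 a3 a4 a5 a6 : ℝ) :
    0 ≤ ((1 * es 4 [a0, a1, a2, a3, a4, a5, a6] - es 4 [a1, a4, a5, a6] - es 4 [a0, a2, a3, a6] - es 4 [a0, a1, a3, a5] - es 4 [a0, a1, a2, a4]) - (7 * es 2 [a0, a1, a2, a3, a4, a5, a6] - es 2 [a1, a4, a5, a6] - es 2 [a0, a2, a3, a6] - es 2 [a0, a1, a3, a5] - es 2 [a0, a1, a2, a4]) + 18) * (13 - 3 * es 2 [a0, a1, a2, a3, a4, a5, a6]) +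
    ((13 * es 1 [a0, a1, a2, a3, a4, a5, a6] - es 1 [a1, a4, a5, a6] - es 1 [a0, a2, a3, a6] - es 1 [a0, a1, a3, a5] - es 1 [a0, a1, a2, a4]) - (3 * es 3 [a0, a1, a2, a3, a4, a5, a6] - es 3 [a1, a4, a5, a6] - es 3 [a0, a2, a3, a6] - es 3 [a0, a1, a3, a5] - es 3 [a0, a1, a2, a4])) * (7 * es 1 [a0, a1, a2, a3, a4, a5, a6] - es 3 [a0, a1, a2, a3, a4, a5, a6]) := by
  have h0 := blk0 ((a0 * a2 * a3) + (a1 * a4 * a5) + (a0 * a2 * a6) + (a0 * a3 * a6) + (a2 * a3 * a6) + (a1 * a4 * a6) + (a1 * a5 * a6) + (a4 * a5 * a6)) ((a0 * a1 * a2) + (a0 * a1 * a3) + (a0 * a1 * a4) + (a0 * a2 * a4) + (a1 * a2 * a4) + (a0 * a1 * a5) + (a0 * a3 * a5) + (a1 * a3 * a5)) (a0 + a1) (a2 + a3 + a4 + a5) ((a1 * a2 * a3) + (a0 * a4 * a5)) ((a0 * a3 * a4) + (a1 * a3 * a4) + (a0 * a2 * a5) + (a1 * a2 * a5)) ((a2 * a3 * a4) + (a2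 * a3 * a5) + (a2 * a4 * a5) + (a3 * a4 * a5)) (a6) ((a0 * a1 * a6)) ((a1 * a2 * a6) + (a1 * a3 * a6) + (a0 * a4 * a6) + (a0 * a5 * a6)) ((a2 * a4 * a6) + (a3 * a5 * a6)) ((a3 * a4 * a6) + (a2 * a5 * a6))
  have h1 := blk1 (-(a0 * a1 * a2) + (a0 * a1 * a3) - (a0 * a1 * a4) - (a0 * a2 * a4) - (a1 * a2 * a4) + (a0 * a1 * a5) + (a0 * a3 * a5) + (a1 * a3 * a5)) (a2 - a3 + a4 - a5) ((a0 * a3 * a4) - (a1 * a3 * a4) - (a0 * a2 * a5) + (a1 * a2 * a5)) ((a2 * a3 * a4) - (a2 * a3 * a5) + (a2 * a4 * a5) - (a3 * a4 * a5)) ((a1 * a2 * a6) - (a1 * a3 * a6) + (a0 * a4 * a6) - (a0 * a5 * a6)) ((a2 * a4 * a6) - (a3 * a5 * a6))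
  have h2 := blk2 (-(a0 * a2 * a3) + (a1 * a4 * a5) - (a0 * a2 * a6) - (a0 * a3 * a6) - (a2 * a3 * a6) + (a1 * a4 * a6) + (a1 * a5 * a6) + (a4 * a5 * a6)) (a0 - a1) (a2 + a3 - a4 - a5) ((a1 * a2 * a3) - (a0 * a4 * a5)) ((a0 * a3 * a4) - (a1 * a3 * a4) + (a0 * a2 * a5) - (a1 * a2 * a5)) ((a2 * a3 * a4) + (a2 * a3 * a5) - (a2 * a4 * a5) - (a3 * a4 * a5)) ((a1 * a2 * a6) + (a1 * a3 * a6) - (a0 * a4 * a6) - (a0 * a5 * a6))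
  have h3 := blk3 (a2 - a3 - a4 + a5) ((a0 * a3 * a4) + (a1 * a3 * a4) - (a0 * a2 * a5) - (a1 * a2 * a5)) ((a2 * a3 * a4) - (a2 * a3 * a5) - (a2 * a4 * a5) + (a3 * a4 * a5)) ((a1 * a2 * a6) - (a1 * a3 * a6) - (a0 * a4 * a6) + (a0 * a5 * a6)) ((a3 * a4 * a6) - (a2 * a5 * a6))
  have h4 := blk4 (1) ((a0 * a1)) ((a0 * a2) + (a0 * a3) + (a1 * a4) + (a1 * a5)) ((a1 * a2) + (a1 * a3) + (a0 * a4) + (a0 * a5)) ((a2 * a3) + (a4 * a5)) ((a2 * a4) + (a3 * a5)) ((a3 * a4) + (a2 * a5)) ((a0 * a6) + (a1 * a6)) ((a2 * a6) + (a3 * a6) + (a4 * a6) + (a5 * a6))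
  have h5 := blk5 ((a0 * a2) - (a0 * a3) + (a1 * a4) - (a1 * a5)) ((a1 * a2) - (a1 * a3) + (a0 * a4) - (a0 * a5)) ((a2 * a4) - (a3 * a5)) ((a2 * a6) - (a3 * a6) + (a4 * a6) - (a5 * a6))
  have h6 := blk6 ((a0 * a2) + (a0 * a3) - (a1 * a4) - (a1 * a5)) ((a1 * a2) + (a1 * a3) - (a0 * a4) - (a0 * a5)) ((a2 * a3) - (a4 * a5)) ((a0 * a6) - (a1 * a6)) ((a2 * a6) + (a3 * a6) - (a4 * a6) - (a5 * a6))
  have h7 := blk7 ((a0 * a2) - (a0 * a3) - (a1 * a4) + (a1 * a5)) ((a1 * a2) - (a1 * a3) - (a0 * a4) + (a0 * a5)) ((a3 * a4) - (a2 * a5)) ((a2 * a6) - (a3 * a6) - (a4 * a6) + (a5 * a6))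
  have e : ((1 * es 4 [a0, a1, a2, a3, a4, a5, a6] - es 4 [a1, a4, a5, a6] - es 4 [a0, a2, a3, a6] - es 4 [a0, a1, a3, a5] - es 4 [a0, a1, a2, a4]) - (7 * es 2 [a0, a1, a2, a3, a4, a5, a6] - es 2 [a1, a4, a5, a6] - es 2 [a0, a2, a3, a6] - es 2 [a0, a1, a3, a5] - es 2 [a0, a1, a2, a4]) + 18) * (13 - 3 * es 2 [a0, a1, a2, a3, a4, a5, a6]) +
    ((13 * es 1 [a0, a1, a2, a3, a4, a5, a6] - es 1 [a1, a4, a5, a6] - es 1 [a0, a2, a3, a6] - es 1 [a0, a1, a3, a5] - es 1 [a0, a1, a2, a4]) - (3 * es 3 [a0, a1, a2, a3, a4, a5, a6] - es 3 [a1, a4, a5, a6] - es 3 [a0, a2, a3, a6] - es 3 [a0, a1, a3, a5] - es 3 [a0, a1, a2, a4])) * (7 * es 1 [a0, a1, a2, a3, a4, a5, a6] - es 3 [a0, a1, a2, a3, a4, a5, a6]) =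
    ((21 / 16) * ((a0 * a2 * a3) + (a1 * a4 * a5) + (a0 * a2 * a6) + (a0 * a3 * a6) + (a2 * a3 * a6) + (a1 * a4 * a6) + (a1 * a5 * a6) + (a4 * a5 * a6)) ^ 2 + (((a0 * a2 * a3) + (a1 * a4 * a5) + (a0 * a2 * a6) + (a0 * a3 * a6) + (a2 * a3 * a6) + (a1 * a4 * a6) + (a1 * a5 * a6) + (a4 * a5 * a6)) * ((a0 * a1 * a2) + (a0 * a1 * a3) + (a0 * a1 * a4) + (a0 * a2 * a4) + (a1 * a2 * a4) + (a0 * a1 * a5) + (a0 * a3 * a5) + (a1 * a3 * a5))) + (13 / 8) * (((a0 * a2 * a3) + (a1 * a4 * a5) + (a0 * a2 * a6) + (a0 * a3 * a6) + (a2 * a3 * a6) + (a1 * a4 * a6) + (a1 * a5 * a6) + (a4 * a5 * a6)) * (a0 + a1)) + (15 / 8) * (((a0 * a2 * a3) + (a1 * a4 * a5) + (a0 * a2 * a6) + (a0 * a3 * a6) + (a2 * a3 * a6) + (a1 * a4 * a6) + (a1 * a5 * a6) + (a4 * a5 * a6)) * (a2 + a3 + a4 + a5)) + (13 / 8) * (((a0 * a2 * a3) + (a1 *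 a4 * a5) + (a0 * a2 * a6) + (a0 * a3 * a6) + (a2 * a3 * a6) + (a1 * a4 * a6) + (a1 * a5 * a6) + (a4 * a5 * a6)) * ((a1 * a2 * a3) + (a0 * a4 * a5))) + (13 / 8) * (((a0 * a2 * a3) + (a1 * a4 * a5) + (a0 * a2 * a6) + (a0 * a3 * a6) + (a2 * a3 * a6) + (a1 * a4 * a6) + (a1 * a5 * a6) + (a4 * a5 * a6)) * ((a0 * a3 * a4) + (a1 * a3 * a4) + (a0 * a2 * a5) + (a1 * a2 * a5))) + (13 / 8) * (((a0 * a2 * a3) + (a1 * a4 * a5) + (a0 * a2 * a6) + (a0 * a3 * a6) + (a2 * a3 * a6) + (a1 * a4 * a6) + (a1 * a5 * a6) + (a4 * a5 * a6)) * ((a2 * a3 * a4) + (a2 * a3 * a5) + (a2 * a4 * a5) + (a3 * a4 * a5))) + 4 * (((a0 * a2 * a3) + (a1 * a4 * a5) + (a0 * a2 * a6) + (a0 * a3 * a6) + (a2 * a3 * a6) + (a1 * a4 * a6) + (a1 * a5 * a6) + (a4 * a5 * a6)) * (a6)) + 2 * (((a0 * a2 * a3) + (a1 * a4 * a5) + (a0 * a2 * a6) + (a0 * a3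 * a6) + (a2 * a3 * a6) + (a1 * a4 * a6) + (a1 * a5 * a6) + (a4 * a5 * a6)) * ((a0 * a1 * a6))) + 2 * (((a0 * a2 * a3) + (a1 * a4 * a5) + (a0 * a2 * a6) + (a0 * a3 * a6) + (a2 * a3 * a6) + (a1 * a4 * a6) + (a1 * a5 * a6) + (a4 * a5 * a6)) * ((a1 * a2 * a6) + (a1 * a3 * a6) + (a0 * a4 * a6) + (a0 * a5 * a6))) + 2 * (((a0 * a2 * a3) + (a1 * a4 * a5) + (a0 * a2 * a6) + (a0 * a3 * a6) + (a2 * a3 * a6) + (a1 * a4 * a6) + (a1 * a5 * a6) + (a4 * a5 * a6)) * ((a2 * a4 * a6) + (a3 * a5 * a6))) + 2 * (((a0 * a2 * a3) + (a1 * a4 * a5) + (a0 * a2 * a6) + (a0 * a3 * a6) + (a2 * a3 * a6) + (a1 * a4 * a6) + (a1 * a5 * a6) + (a4 * a5 * a6)) * ((a3 * a4 * a6) + (a2 * a5 * a6))) + (5 / 4) * ((a0 * a1 * a2) + (a0 * a1 * a3) + (a0 * a1 * a4) + (a0 * a2 * a4) + (a1 * a2 * a4) + (a0 * a1 * a5) + (a0 * a3 * a5) + (a1 * a3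 * a5)) ^ 2 + (11 / 4) * (((a0 * a1 * a2) + (a0 * a1 * a3) + (a0 * a1 * a4) + (a0 * a2 * a4) + (a1 * a2 * a4) + (a0 * a1 * a5) + (a0 * a3 * a5) + (a1 * a3 * a5)) * (a0 + a1)) + (15 / 8) * (((a0 * a1 * a2) + (a0 * a1 * a3) + (a0 * a1 * a4) + (a0 * a2 * a4) + (a1 * a2 * a4) + (a0 * a1 * a5) + (a0 * a3 * a5) + (a1 * a3 * a5)) * (a2 + a3 + a4 + a5)) + 2 * (((a0 * a1 * a2) + (a0 * a1 * a3) + (a0 * a1 * a4) + (a0 * a2 * a4) + (a1 * a2 * a4) + (a0 * a1 * a5) + (a0 * a3 * a5) + (a1 * a3 * a5)) * ((a1 * a2 * a3) + (a0 * a4 * a5))) + 2 * (((a0 * a1 * a2) + (a0 * a1 * a3) + (a0 * a1 * a4) + (a0 * a2 * a4) + (a1 * a2 * a4) + (a0 * a1 * a5) + (a0 * a3 * a5) + (a1 * a3 * a5)) * ((a0 * a3 * a4) + (a1 * a3 * a4) + (a0 * a2 * a5) + (a1 * a2 * a5))) + (13 / 8) * (((a0 * a1 * a2) + (a0 * a1 * a3) + (a0 * a1 * a4) + (a0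 * a2 * a4) + (a1 * a2 * a4) + (a0 * a1 * a5) + (a0 * a3 * a5) + (a1 * a3 * a5)) * ((a2 * a3 * a4) + (a2 * a3 * a5) + (a2 * a4 * a5) + (a3 * a4 * a5))) + (3 / 8) * (((a0 * a1 * a2) + (a0 * a1 * a3) + (a0 * a1 * a4) + (a0 * a2 * a4) + (a1 * a2 * a4) + (a0 * a1 * a5) + (a0 * a3 * a5) + (a1 * a3 * a5)) * (a6)) + 2 * (((a0 * a1 * a2) + (a0 * a1 * a3) + (a0 * a1 * a4) + (a0 * a2 * a4) + (a1 * a2 * a4) + (a0 * a1 * a5) + (a0 * a3 * a5) + (a1 * a3 * a5)) * ((a0 * a1 * a6))) + (3 / 2) * (((a0 * a1 * a2) + (a0 * a1 * a3) + (a0 * a1 * a4) + (a0 * a2 * a4) + (a1 * a2 * a4) + (a0 * a1 * a5) + (a0 * a3 * a5) + (a1 * a3 * a5)) * ((a1 * a2 * a6) + (a1 * a3 * a6) + (a0 * a4 * a6) + (a0 * a5 * a6))) + (3 / 2) * (((a0 * a1 * a2) + (a0 * a1 * a3) + (a0 * a1 * a4) + (a0 * a2 * a4) + (a1 * a2 * a4) + (a0 * a1 * a5) + (a0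 * a3 * a5) + (a1 * a3 * a5)) * ((a2 * a4 * a6) + (a3 * a5 * a6))) + (11 / 8) * (((a0 * a1 * a2) + (a0 * a1 * a3) + (a0 * a1 * a4) + (a0 * a2 * a4) + (a1 * a2 * a4) + (a0 * a1 * a5) + (a0 * a3 * a5) + (a1 * a3 * a5)) * ((a3 * a4 * a6) + (a2 * a5 * a6))) + (301 / 8) * (a0 + a1) ^ 2 + (43 / 4) * ((a0 + a1) * (a2 + a3 + a4 + a5)) + (9 / 4) * ((a0 + a1) * ((a1 * a2 * a3) + (a0 * a4 * a5))) + ((a0 + a1) * ((a0 * a3 * a4) + (a1 * a3 * a4) + (a0 * a2 * a5) + (a1 * a2 * a5))) + (1 / 8) * ((a0 + a1) * ((a2 * a3 * a4) + (a2 * a3 * a5) + (a2 * a4 * a5) + (a3 * a4 * a5))) + (15 / 2) * ((a0 + a1) * (a6)) + (7 / 4) * ((a0 + a1) * ((a0 * a1 * a6))) + (3 / 4) * ((a0 + a1) * ((a1 * a2 * a6) + (a1 * a3 * a6) + (a0 * a4 * a6) + (a0 * a5 * a6))) + (9 / 8) * ((a0 + a1) * ((a2 * a4 * a6) + (a3 * a5 * a6))) + (1 / 2) * ((a0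 + a1) * ((a3 * a4 * a6) + (a2 * a5 * a6))) + (361 / 16) * (a2 + a3 + a4 + a5) ^ 2 + (19 / 16) * ((a2 + a3 + a4 + a5) * ((a1 * a2 * a3) + (a0 * a4 * a5))) + (7 / 4) * ((a2 + a3 + a4 + a5) * ((a0 * a3 * a4) + (a1 * a3 * a4) + (a0 * a2 * a5) + (a1 * a2 * a5))) + (17 / 8) * ((a2 + a3 + a4 + a5) * ((a2 * a3 * a4) + (a2 * a3 * a5) + (a2 * a4 * a5) + (a3 * a4 * a5))) + 11 * ((a2 + a3 + a4 + a5) * (a6)) + (11 / 8) * ((a2 + a3 + a4 + a5) * ((a0 * a1 * a6))) + (1 / 2) * ((a2 + a3 + a4 + a5) * ((a1 * a2 * a6) + (a1 * a3 * a6) + (a0 * a4 * a6) + (a0 * a5 * a6))) + (11 / 8) * ((a2 + a3 + a4 + a5) * ((a2 * a4 * a6) + (a3 * a5 * a6))) + 2 * ((a2 + a3 + a4 + a5) * ((a3 * a4 * a6) + (a2 * a5 * a6))) + (25 / 16) * ((a1 * a2 * a3) + (a0 * a4 * a5)) ^ 2 + (9 / 4) * (((a1 * a2 * a3) + (a0 * a4 * a5)) * ((a0 * a3 * a4)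 + (a1 * a3 * a4) + (a0 * a2 * a5) + (a1 * a2 * a5))) + (19 / 8) * (((a1 * a2 * a3) + (a0 * a4 * a5)) * ((a2 * a3 * a4) + (a2 * a3 * a5) + (a2 * a4 * a5) + (a3 * a4 * a5))) + (1 / 2) * (((a1 * a2 * a3) + (a0 * a4 * a5)) * (a6)) + 2 * (((a1 * a2 * a3) + (a0 * a4 * a5)) * ((a0 * a1 * a6))) + (17 / 8) * (((a1 * a2 * a3) + (a0 * a4 * a5)) * ((a1 * a2 * a6) + (a1 * a3 * a6) + (a0 * a4 * a6) + (a0 * a5 * a6))) + (3 / 2) * (((a1 * a2 * a3) + (a0 * a4 * a5)) * ((a2 * a4 * a6) + (a3 * a5 * a6))) + 2 * (((a1 * a2 * a3) + (a0 * a4 * a5)) * ((a3 * a4 * a6) + (a2 * a5 * a6))) + (11 / 8) * ((a0 * a3 * a4) + (a1 * a3 * a4) + (a0 * a2 * a5) + (a1 * a2 * a5)) ^ 2 + (19 / 8) * (((a0 * a3 * a4) + (a1 * a3 * a4) + (a0 * a2 * a5) + (a1 * a2 * a5)) * ((a2 * a3 * a4) + (a2 * a3 * a5) + (a2 * a4 * a5) + (a3 * a4 * a5))) +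 (1 / 2) * (((a0 * a3 * a4) + (a1 * a3 * a4) + (a0 * a2 * a5) + (a1 * a2 * a5)) * (a6)) + (((a0 * a3 * a4) + (a1 * a3 * a4) + (a0 * a2 * a5) + (a1 * a2 * a5)) * ((a0 * a1 * a6))) + (29 / 16) * (((a0 * a3 * a4) + (a1 * a3 * a4) + (a0 * a2 * a5) + (a1 * a2 * a5)) * ((a1 * a2 * a6) + (a1 * a3 * a6) + (a0 * a4 * a6) + (a0 * a5 * a6))) + (7 / 4) * (((a0 * a3 * a4) + (a1 * a3 * a4) + (a0 * a2 * a5) + (a1 * a2 * a5)) * ((a2 * a4 * a6) + (a3 * a5 * a6))) + (15 / 8) * (((a0 * a3 * a4) + (a1 * a3 * a4) + (a0 * a2 * a5) + (a1 * a2 * a5)) * ((a3 * a4 * a6) + (a2 * a5 * a6))) + (15 / 8) * ((a2 * a3 * a4) + (a2 * a3 * a5) + (a2 * a4 * a5) + (a3 * a4 * a5)) ^ 2 + (3 / 4) * (((a2 * a3 * a4) + (a2 * a3 * a5) + (a2 * a4 * a5) + (a3 * a4 * a5)) * ((a0 * a1 * a6))) + (3 / 2) * (((a2 * a3 * a4) + (a2 * a3 * a5) + (a2 *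 a4 * a5) + (a3 * a4 * a5)) * ((a1 * a2 * a6) + (a1 * a3 * a6) + (a0 * a4 * a6) + (a0 * a5 * a6))) + (19 / 8) * (((a2 * a3 * a4) + (a2 * a3 * a5) + (a2 * a4 * a5) + (a3 * a4 * a5)) * ((a2 * a4 * a6) + (a3 * a5 * a6))) + (5 / 2) * (((a2 * a3 * a4) + (a2 * a3 * a5) + (a2 * a4 * a5) + (a3 * a4 * a5)) * ((a3 * a4 * a6) + (a2 * a5 * a6))) + 77 * (a6) ^ 2 + (5 / 2) * ((a6) * ((a0 * a1 * a6))) + (3 / 2) * ((a6) * ((a1 * a2 * a6) + (a1 * a3 * a6) + (a0 * a4 * a6) + (a0 * a5 * a6))) + 2 * ((a6) * ((a2 * a4 * a6) + (a3 * a5 * a6))) + 2 * ((a6) * ((a3 * a4 * a6) + (a2 * a5 * a6))) + 3 * ((a0 * a1 * a6)) ^ 2 + 3 * (((a0 * a1 * a6)) * ((a1 * a2 * a6) + (a1 * a3 * a6) + (a0 * a4 * a6) + (a0 * a5 * a6))) + 2 * (((a0 * a1 * a6)) * ((a2 * a4 * a6) + (a3 * a5 * a6))) + (3 / 2) * (((a0 * a1 * a6)) * ((a3 * a4 * a6) +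 (a2 * a5 * a6))) + (11 / 8) * ((a1 * a2 * a6) + (a1 * a3 * a6) + (a0 * a4 * a6) + (a0 * a5 * a6)) ^ 2 + (17 / 8) * (((a1 * a2 * a6) + (a1 * a3 * a6) + (a0 * a4 * a6) + (a0 * a5 * a6)) * ((a2 * a4 * a6) + (a3 * a5 * a6))) + (9 / 4) * (((a1 * a2 * a6) + (a1 * a3 * a6) + (a0 * a4 * a6) + (a0 * a5 * a6)) * ((a3 * a4 * a6) + (a2 * a5 * a6))) + (31 / 16) * ((a2 * a4 * a6) + (a3 * a5 * a6)) ^ 2 + 3 * (((a2 * a4 * a6) + (a3 * a5 * a6)) * ((a3 * a4 * a6) + (a2 * a5 * a6))) + (7 / 4) * ((a3 * a4 * a6) + (a2 * a5 * a6)) ^ 2) +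
    ((3 / 4) * (-(a0 * a1 * a2) + (a0 * a1 * a3) - (a0 * a1 * a4) - (a0 * a2 * a4) - (a1 * a2 * a4) + (a0 * a1 * a5) + (a0 * a3 * a5) + (a1 * a3 * a5)) ^ 2 - (11 / 8) * ((-(a0 * a1 * a2) + (a0 * a1 * a3) - (a0 * a1 * a4) - (a0 * a2 * a4) - (a1 * a2 * a4) + (a0 * a1 * a5) + (a0 * a3 * a5) + (a1 * a3 * a5)) * (a2 - a3 + a4 - a5)) - (3 / 8) * ((-(a0 * a1 * a2) + (a0 * a1 * a3) - (a0 * a1 * a4) - (a0 * a2 * a4) - (a1 * a2 * a4) + (a0 * a1 * a5) + (a0 * a3 * a5) + (a1 * a3 * a5)) * ((a2 * a3 * a4) - (a2 * a3 * a5) + (a2 * a4 * a5) - (a3 * a4 * a5))) - (1 / 2) * ((-(a0 * a1 * a2) + (a0 * a1 * a3) - (a0 * a1 * a4) - (a0 * a2 * a4) - (a1 * a2 * a4) + (a0 * a1 * a5) + (a0 * a3 * a5) + (a1 * a3 * a5)) * ((a1 * a2 * a6) - (a1 * a3 * a6) + (a0 * a4 * a6) - (a0 * a5 * a6))) - (1 / 2) * ((-(a0 * a1 * a2) + (a0 *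 a1 * a3) - (a0 * a1 * a4) - (a0 * a2 * a4) - (a1 * a2 * a4) + (a0 * a1 * a5) + (a0 * a3 * a5) + (a1 * a3 * a5)) * ((a2 * a4 * a6) - (a3 * a5 * a6))) + (299 / 16) * (a2 - a3 + a4 - a5) ^ 2 + (5 / 8) * ((a2 - a3 + a4 - a5) * ((a0 * a3 * a4) - (a1 * a3 * a4) - (a0 * a2 * a5) + (a1 * a2 * a5))) + (1 / 2) * ((a2 - a3 + a4 - a5) * ((a2 * a3 * a4) - (a2 * a3 * a5) + (a2 * a4 * a5) - (a3 * a4 * a5))) + (3 / 4) * ((a2 - a3 + a4 - a5) * ((a1 * a2 * a6) - (a1 * a3 * a6) + (a0 * a4 * a6) - (a0 * a5 * a6))) + (3 / 4) * ((a2 - a3 + a4 - a5) * ((a2 * a4 * a6) - (a3 * a5 * a6))) + (7 / 16) * ((a0 * a3 * a4) - (a1 * a3 * a4) - (a0 * a2 * a5) + (a1 * a2 * a5)) ^ 2 + (1 / 8) * (((a0 * a3 * a4) - (a1 * a3 * a4) - (a0 * a2 * a5) + (a1 * a2 * a5)) * ((a2 * a3 * a4) - (a2 * a3 * a5) + (a2 * a4 * a5) - (a3 * a4 * a5))) +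 (1 / 4) * (((a0 * a3 * a4) - (a1 * a3 * a4) - (a0 * a2 * a5) + (a1 * a2 * a5)) * ((a1 * a2 * a6) - (a1 * a3 * a6) + (a0 * a4 * a6) - (a0 * a5 * a6))) + (3 / 8) * (((a0 * a3 * a4) - (a1 * a3 * a4) - (a0 * a2 * a5) + (a1 * a2 * a5)) * ((a2 * a4 * a6) - (a3 * a5 * a6))) + (3 / 8) * ((a2 * a3 * a4) - (a2 * a3 * a5) + (a2 * a4 * a5) - (a3 * a4 * a5)) ^ 2 + (5 / 8) * (((a2 * a3 * a4) - (a2 * a3 * a5) + (a2 * a4 * a5) - (a3 * a4 * a5)) * ((a2 * a4 * a6) - (a3 * a5 * a6))) + (5 / 16) * ((a1 * a2 * a6) - (a1 * a3 * a6) + (a0 * a4 * a6) - (a0 * a5 * a6)) ^ 2 + (7 / 8) * (((a1 * a2 * a6) - (a1 * a3 * a6) + (a0 * a4 * a6) - (a0 * a5 * a6)) * ((a2 * a4 * a6) - (a3 * a5 * a6))) + (17 / 16) * ((a2 * a4 * a6) - (a3 * a5 * a6)) ^ 2) +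
    ((11 / 16) * (-(a0 * a2 * a3) + (a1 * a4 * a5) - (a0 * a2 * a6) - (a0 * a3 * a6) - (a2 * a3 * a6) + (a1 * a4 * a6) + (a1 * a5 * a6) + (a4 * a5 * a6)) ^ 2 - (5 / 4) * ((-(a0 * a2 * a3) + (a1 * a4 * a5) - (a0 * a2 * a6) - (a0 * a3 * a6) - (a2 * a3 * a6) + (a1 * a4 * a6) + (a1 * a5 * a6) + (a4 * a5 * a6)) * (a0 - a1)) - (11 / 8) * ((-(a0 * a2 * a3) + (a1 * a4 * a5) - (a0 * a2 * a6) - (a0 * a3 * a6) - (a2 * a3 * a6) + (a1 * a4 * a6) + (a1 * a5 * a6) + (a4 * a5 * a6)) * (a2 + a3 - a4 - a5)) - (3 / 8) * ((-(a0 * a2 * a3) + (a1 * a4 * a5) - (a0 * a2 * a6) - (a0 * a3 * a6) - (a2 * a3 * a6) + (a1 * a4 * a6) + (a1 * a5 * a6) + (a4 * a5 * a6)) * ((a1 * a2 * a3) - (a0 * a4 * a5))) - (3 / 8) * ((-(a0 * a2 * a3) + (a1 * a4 * a5) - (a0 * a2 * a6) - (a0 * a3 * a6) - (a2 * a3 * a6) + (a1 * a4 * a6) + (a1 * a5 *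 a6) + (a4 * a5 * a6)) * ((a0 * a3 * a4) - (a1 * a3 * a4) + (a0 * a2 * a5) - (a1 * a2 * a5))) - (3 / 8) * ((-(a0 * a2 * a3) + (a1 * a4 * a5) - (a0 * a2 * a6) - (a0 * a3 * a6) - (a2 * a3 * a6) + (a1 * a4 * a6) + (a1 * a5 * a6) + (a4 * a5 * a6)) * ((a2 * a3 * a4) + (a2 * a3 * a5) - (a2 * a4 * a5) - (a3 * a4 * a5))) + (259 / 8) * (a0 - a1) ^ 2 + (13 / 4) * ((a0 - a1) * (a2 + a3 - a4 - a5)) - (1 / 2) * ((a0 - a1) * ((a1 * a2 * a3) - (a0 * a4 * a5))) + (1 / 4) * ((a0 - a1) * ((a0 * a3 * a4) - (a1 * a3 * a4) + (a0 * a2 * a5) - (a1 * a2 * a5))) + (3 / 8) * ((a0 - a1) * ((a2 * a3 * a4) + (a2 * a3 * a5) - (a2 * a4 * a5) - (a3 * a4 * a5))) - (5 / 4) * ((a0 - a1) * ((a1 * a2 * a6) + (a1 * a3 * a6) - (a0 * a4 * a6) - (a0 * a5 * a6))) + (299 / 16) * (a2 + a3 - a4 - a5) ^ 2 + (15 / 16) * ((a2 + a3 - a4 - a5) * ((a1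 * a2 * a3) - (a0 * a4 * a5))) - (1 / 8) * ((a2 + a3 - a4 - a5) * ((a0 * a3 * a4) - (a1 * a3 * a4) + (a0 * a2 * a5) - (a1 * a2 * a5))) + (1 / 2) * ((a2 + a3 - a4 - a5) * ((a2 * a3 * a4) + (a2 * a3 * a5) - (a2 * a4 * a5) - (a3 * a4 * a5))) + (3 / 8) * ((a2 + a3 - a4 - a5) * ((a1 * a2 * a6) + (a1 * a3 * a6) - (a0 * a4 * a6) - (a0 * a5 * a6))) + (23 / 16) * ((a1 * a2 * a3) - (a0 * a4 * a5)) ^ 2 - (3 / 4) * (((a1 * a2 * a3) - (a0 * a4 * a5)) * ((a0 * a3 * a4) - (a1 * a3 * a4) + (a0 * a2 * a5) - (a1 * a2 * a5))) + (5 / 8) * (((a1 * a2 * a3) - (a0 * a4 * a5)) * ((a2 * a3 * a4) + (a2 * a3 * a5) - (a2 * a4 * a5) - (a3 * a4 * a5))) + (7 / 8) * (((a1 * a2 * a3) - (a0 * a4 * a5)) * ((a1 * a2 * a6) + (a1 * a3 * a6) - (a0 * a4 * a6) - (a0 * a5 * a6))) + (5 / 16) * ((a0 * a3 * a4) - (a1 * a3 * a4) + (a0 * a2 * a5)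 - (a1 * a2 * a5)) ^ 2 - (1 / 8) * (((a0 * a3 * a4) - (a1 * a3 * a4) + (a0 * a2 * a5) - (a1 * a2 * a5)) * ((a2 * a3 * a4) + (a2 * a3 * a5) - (a2 * a4 * a5) - (a3 * a4 * a5))) - (9 / 16) * (((a0 * a3 * a4) - (a1 * a3 * a4) + (a0 * a2 * a5) - (a1 * a2 * a5)) * ((a1 * a2 * a6) + (a1 * a3 * a6) - (a0 * a4 * a6) - (a0 * a5 * a6))) + (3 / 8) * ((a2 * a3 * a4) + (a2 * a3 * a5) - (a2 * a4 * a5) - (a3 * a4 * a5)) ^ 2 + (1 / 8) * (((a2 * a3 * a4) + (a2 * a3 * a5) - (a2 * a4 * a5) - (a3 * a4 * a5)) * ((a1 * a2 * a6) + (a1 * a3 * a6) - (a0 * a4 * a6) - (a0 * a5 * a6))) + (7 / 8) * ((a1 * a2 * a6) + (a1 * a3 * a6) - (a0 * a4 * a6) - (a0 * a5 * a6)) ^ 2) +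
    ((273 / 16) * (a2 - a3 - a4 + a5) ^ 2 - (9 / 8) * ((a2 - a3 - a4 + a5) * ((a0 * a3 * a4) + (a1 * a3 * a4) - (a0 * a2 * a5) - (a1 * a2 * a5))) - (5 / 4) * ((a2 - a3 - a4 + a5) * ((a2 * a3 * a4) - (a2 * a3 * a5) - (a2 * a4 * a5) + (a3 * a4 * a5))) + (1 / 4) * ((a2 - a3 - a4 + a5) * ((a1 * a2 * a6) - (a1 * a3 * a6) - (a0 * a4 * a6) + (a0 * a5 * a6))) - (3 / 2) * ((a2 - a3 - a4 + a5) * ((a3 * a4 * a6) - (a2 * a5 * a6))) + (7 / 8) * ((a0 * a3 * a4) + (a1 * a3 * a4) - (a0 * a2 * a5) - (a1 * a2 * a5)) ^ 2 + (5 / 8) * (((a0 * a3 * a4) + (a1 * a3 * a4) - (a0 * a2 * a5) - (a1 * a2 * a5)) * ((a2 * a3 * a4) - (a2 * a3 * a5) - (a2 * a4 * a5) + (a3 * a4 * a5))) - (3 / 8) * (((a0 * a3 * a4) + (a1 * a3 * a4) - (a0 * a2 * a5) - (a1 * a2 * a5)) * ((a1 * a2 * a6) - (a1 * a3 * a6) - (a0 * a4 * a6) + (a0 * a5 * a6)))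 + (9 / 8) * (((a0 * a3 * a4) + (a1 * a3 * a4) - (a0 * a2 * a5) - (a1 * a2 * a5)) * ((a3 * a4 * a6) - (a2 * a5 * a6))) + (3 / 8) * ((a2 * a3 * a4) - (a2 * a3 * a5) - (a2 * a4 * a5) + (a3 * a4 * a5)) ^ 2 - (1 / 8) * (((a2 * a3 * a4) - (a2 * a3 * a5) - (a2 * a4 * a5) + (a3 * a4 * a5)) * ((a1 * a2 * a6) - (a1 * a3 * a6) - (a0 * a4 * a6) + (a0 * a5 * a6))) + (1 / 2) * (((a2 * a3 * a4) - (a2 * a3 * a5) - (a2 * a4 * a5) + (a3 * a4 * a5)) * ((a3 * a4 * a6) - (a2 * a5 * a6))) + (7 / 16) * ((a1 * a2 * a6) - (a1 * a3 * a6) - (a0 * a4 * a6) + (a0 * a5 * a6)) ^ 2 - (3 / 4) * (((a1 * a2 * a6) - (a1 * a3 * a6) - (a0 * a4 * a6) + (a0 * a5 * a6)) * ((a3 * a4 * a6) - (a2 * a5 * a6))) + (5 / 4) * ((a3 * a4 * a6) - (a2 * a5 * a6)) ^ 2) +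
    (234 * (1) ^ 2 + (21 / 2) * ((1) * ((a0 * a1))) + 14 * ((1) * ((a0 * a2) + (a0 * a3) + (a1 * a4) + (a1 * a5))) + (15 / 2) * ((1) * ((a1 * a2) + (a1 * a3) + (a0 * a4) + (a0 * a5))) + 11 * ((1) * ((a2 * a3) + (a4 * a5))) + 11 * ((1) * ((a2 * a4) + (a3 * a5))) + (9 / 2) * ((1) * ((a3 * a4) + (a2 * a5))) + (15 / 2) * ((1) * ((a0 * a6) + (a1 * a6))) + 11 * ((1) * ((a2 * a6) + (a3 * a6) + (a4 * a6) + (a5 * a6))) + 15 * ((a0 * a1)) ^ 2 + (13 / 4) * (((a0 * a1)) * ((a0 * a2) + (a0 * a3) + (a1 * a4) + (a1 * a5))) + (25 / 4) * (((a0 * a1)) * ((a1 * a2) + (a1 * a3) + (a0 * a4) + (a0 * a5))) + (11 / 8) * (((a0 * a1)) * ((a2 * a3) + (a4 * a5))) - 4 * (((a0 * a1)) * ((a2 * a4) + (a3 * a5))) + (1 / 8) * (((a0 * a1)) * ((a3 * a4) + (a2 * a5))) + (1 / 4) * (((a0 * a1)) * ((a0 * a6) + (a1 * a6))) + (1 / 2) * (((a0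 * a1)) * ((a2 * a6) + (a3 * a6) + (a4 * a6) + (a5 * a6))) + (119 / 32) * ((a0 * a2) + (a0 * a3) + (a1 * a4) + (a1 * a5)) ^ 2 + (13 / 4) * (((a0 * a2) + (a0 * a3) + (a1 * a4) + (a1 * a5)) * ((a1 * a2) + (a1 * a3) + (a0 * a4) + (a0 * a5))) + (5 / 2) * (((a0 * a2) + (a0 * a3) + (a1 * a4) + (a1 * a5)) * ((a2 * a3) + (a4 * a5))) + (43 / 16) * (((a0 * a2) + (a0 * a3) + (a1 * a4) + (a1 * a5)) * ((a2 * a4) + (a3 * a5))) + (11 / 8) * (((a0 * a2) + (a0 * a3) + (a1 * a4) + (a1 * a5)) * ((a3 * a4) + (a2 * a5))) + (13 / 4) * (((a0 * a2) + (a0 * a3) + (a1 * a4) + (a1 * a5)) * ((a0 * a6) + (a1 * a6))) + (1 / 2) * (((a0 * a2) + (a0 * a3) + (a1 * a4) + (a1 * a5)) * ((a2 * a6) + (a3 * a6) + (a4 * a6) + (a5 * a6))) + (35 / 8) * ((a1 * a2) + (a1 * a3) + (a0 * a4) + (a0 * a5)) ^ 2 + (11 / 8) * (((a1 * a2) + (a1 * a3) +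 (a0 * a4) + (a0 * a5)) * ((a2 * a3) + (a4 * a5))) + (31 / 8) * (((a1 * a2) + (a1 * a3) + (a0 * a4) + (a0 * a5)) * ((a2 * a4) + (a3 * a5))) + (7 / 4) * (((a1 * a2) + (a1 * a3) + (a0 * a4) + (a0 * a5)) * ((a3 * a4) + (a2 * a5))) + (7 / 4) * (((a1 * a2) + (a1 * a3) + (a0 * a4) + (a0 * a5)) * ((a0 * a6) + (a1 * a6))) + (3 / 4) * (((a1 * a2) + (a1 * a3) + (a0 * a4) + (a0 * a5)) * ((a2 * a6) + (a3 * a6) + (a4 * a6) + (a5 * a6))) + 9 * ((a2 * a3) + (a4 * a5)) ^ 2 + (17 / 8) * (((a2 * a3) + (a4 * a5)) * ((a2 * a4) + (a3 * a5))) + (29 / 8) * (((a2 * a3) + (a4 * a5)) * ((a3 * a4) + (a2 * a5))) - (13 / 8) * (((a2 * a3) + (a4 * a5)) * ((a0 * a6) + (a1 * a6))) + (33 / 8) * (((a2 * a3) + (a4 * a5)) * ((a2 * a6) + (a3 * a6) + (a4 * a6) + (a5 * a6))) + (71 / 8) * ((a2 * a4) + (a3 * a5)) ^ 2 + (29 / 8) * (((a2 * a4)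 + (a3 * a5)) * ((a3 * a4) + (a2 * a5))) + (3 / 4) * (((a2 * a4) + (a3 * a5)) * ((a0 * a6) + (a1 * a6))) + (9 / 8) * (((a2 * a4) + (a3 * a5)) * ((a2 * a6) + (a3 * a6) + (a4 * a6) + (a5 * a6))) + (21 / 2) * ((a3 * a4) + (a2 * a5)) ^ 2 + 2 * (((a3 * a4) + (a2 * a5)) * ((a2 * a6) + (a3 * a6) + (a4 * a6) + (a5 * a6))) + (75 / 8) * ((a0 * a6) + (a1 * a6)) ^ 2 + (19 / 4) * (((a0 * a6) + (a1 * a6)) * ((a2 * a6) + (a3 * a6) + (a4 * a6) + (a5 * a6))) + (47 / 8) * ((a2 * a6) + (a3 * a6) + (a4 * a6) + (a5 * a6)) ^ 2) +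
    ((93 / 32) * ((a0 * a2) - (a0 * a3) + (a1 * a4) - (a1 * a5)) ^ 2 + (9 / 4) * (((a0 * a2) - (a0 * a3) + (a1 * a4) - (a1 * a5)) * ((a1 * a2) - (a1 * a3) + (a0 * a4) - (a0 * a5))) + (33 / 16) * (((a0 * a2) - (a0 * a3) + (a1 * a4) - (a1 * a5)) * ((a2 * a4) - (a3 * a5))) + (9 / 4) * (((a0 * a2) - (a0 * a3) + (a1 * a4) - (a1 * a5)) * ((a2 * a6) - (a3 * a6) + (a4 * a6) - (a5 * a6))) + (15 / 4) * ((a1 * a2) - (a1 * a3) + (a0 * a4) - (a0 * a5)) ^ 2 + (31 / 8) * (((a1 * a2) - (a1 * a3) + (a0 * a4) - (a0 * a5)) * ((a2 * a4) - (a3 * a5))) + (3 / 4) * (((a1 * a2) - (a1 * a3) + (a0 * a4) - (a0 * a5)) * ((a2 * a6) - (a3 * a6) + (a4 * a6) - (a5 * a6))) + (73 / 8) * ((a2 * a4) - (a3 * a5)) ^ 2 + (3 / 4) * (((a2 * a4) - (a3 * a5)) * ((a2 * a6) - (a3 * a6) + (a4 * a6) - (a5 * a6))) + (29 / 8) * ((a2 * a6) - (a3 *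 a6) + (a4 * a6) - (a5 * a6)) ^ 2) +
    ((73 / 16) * ((a0 * a2) + (a0 * a3) - (a1 * a4) - (a1 * a5)) ^ 2 - (1 / 4) * (((a0 * a2) + (a0 * a3) - (a1 * a4) - (a1 * a5)) * ((a1 * a2) + (a1 * a3) - (a0 * a4) - (a0 * a5))) + (9 / 4) * (((a0 * a2) + (a0 * a3) - (a1 * a4) - (a1 * a5)) * ((a2 * a3) - (a4 * a5))) + (23 / 8) * (((a0 * a2) + (a0 * a3) - (a1 * a4) - (a1 * a5)) * ((a0 * a6) - (a1 * a6))) + (1 / 8) * (((a0 * a2) + (a0 * a3) - (a1 * a4) - (a1 * a5)) * ((a2 * a6) + (a3 * a6) - (a4 * a6) - (a5 * a6))) + (83 / 16) * ((a1 * a2) + (a1 * a3) - (a0 * a4) - (a0 * a5)) ^ 2 + (1 / 2) * (((a1 * a2) + (a1 * a3) - (a0 * a4) - (a0 * a5)) * ((a2 * a3) - (a4 * a5))) - (5 / 4) * (((a1 * a2) + (a1 * a3) - (a0 * a4) - (a0 * a5)) * ((a0 * a6) - (a1 * a6))) + (3 / 8) * (((a1 * a2) + (a1 * a3) - (a0 * a4) - (a0 * a5))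 * ((a2 * a6) + (a3 * a6) - (a4 * a6) - (a5 * a6))) + 9 * ((a2 * a3) - (a4 * a5)) ^ 2 - (7 / 4) * (((a2 * a3) - (a4 * a5)) * ((a0 * a6) - (a1 * a6))) + (29 / 8) * (((a2 * a3) - (a4 * a5)) * ((a2 * a6) + (a3 * a6) - (a4 * a6) - (a5 * a6))) + (69 / 8) * ((a0 * a6) - (a1 * a6)) ^ 2 + (9 / 4) * (((a0 * a6) - (a1 * a6)) * ((a2 * a6) + (a3 * a6) - (a4 * a6) - (a5 * a6))) + (39 / 8) * ((a2 * a6) + (a3 * a6) - (a4 * a6) - (a5 * a6)) ^ 2) +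
    ((61 / 16) * ((a0 * a2) - (a0 * a3) - (a1 * a4) + (a1 * a5)) ^ 2 - (1 / 2) * (((a0 * a2) - (a0 * a3) - (a1 * a4) + (a1 * a5)) * ((a1 * a2) - (a1 * a3) - (a0 * a4) + (a0 * a5))) - (1 / 2) * (((a0 * a2) - (a0 * a3) - (a1 * a4) + (a1 * a5)) * ((a3 * a4) - (a2 * a5))) + (15 / 8) * (((a0 * a2) - (a0 * a3) - (a1 * a4) + (a1 * a5)) * ((a2 * a6) - (a3 * a6) - (a4 * a6) + (a5 * a6))) + (75 / 16) * ((a1 * a2) - (a1 * a3) - (a0 * a4) + (a0 * a5)) ^ 2 - (13 / 8) * (((a1 * a2) - (a1 * a3) - (a0 * a4) + (a0 * a5)) * ((a3 * a4) - (a2 * a5))) + (1 / 4) * (((a1 * a2) - (a1 * a3) - (a0 * a4) + (a0 * a5)) * ((a2 * a6) - (a3 * a6) - (a4 * a6) + (a5 * a6))) + (21 / 2) * ((a3 * a4) - (a2 * a5)) ^ 2 - (3 / 2) * (((a3 * a4) - (a2 * a5)) * ((a2 * a6) - (a3 * a6) - (a4 * a6) + (a5 * a6))) + (29 / 8) * ((a2 * a6) - (a3 *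 a6) - (a4 * a6) + (a5 * a6)) ^ 2) := by
    simp only [es]; ring
  rw [e]
  linarith only [h0, h1, h2, h3, h4, h5, h6, h7]

end R523.BC
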