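import Mathlib
import Pool.Agent.R523.BCSos

/-!
# The top level: `Re (α conj β) ≥ 0` and `β ≠ 0` in seven variables
-/

namespace R523.BC

open Complex

/-- numerator -/
noncomputable def al (w : Fin 7 → ℂ) : ℂ :=
  (1 * es 4 [w 0, w 1, w 2, w 3, w 4, w 5, w 6] - es 4 [w 1, w 4, w 5, w 6] - es 4 [w 0, w 2, w 3, w 6] - es 4 [w 0, w 1, w 3, w 5] - es 4 [w 0, w 1, w 2, w 4]) +
      (3 * es 3 [w 0, w 1, w 2, w 3, w 4, w 5, w 6] - es 3 [w 1, w 4, w 5, w 6] - es 3 [w 0, w 2, w 3, w 6] - es 3 [w 0, w 1, w 3, w 5] - es 3 [w 0, w 1, w 2, w 4]) +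
      (7 * es 2 [w 0, w 1, w 2, w 3, w 4, w 5, w 6] - es 2 [w 1, w 4, w 5, w 6] - es 2 [w 0, w 2, w 3, w 6] - es 2 [w 0, w 1, w 3, w 5] - es 2 [w 0, w 1, w 2, w 4]) +
      (13 * es 1 [w 0, w 1, w 2, w 3, w 4, w 5, w 6] - es 1 [w 1, w 4, w 5, w 6] - es 1 [w 0, w 2, w 3, w 6] - es 1 [w 0, w 1, w 3, w 5] - es 1 [w 0, w 1, w 2, w 4]) + 18

/-- denominator -/
noncomputable def be (w : Fin 7 → ℂ) : ℂ :=
  es 3 [w 0, w 1, w 2, w 3, w 4, w 5, w 6] + 3 * es 2 [w 0, w 1, w 2, w 3, w 4, w 5, w 6] + 7 * es 1 [w 0, w 1, w 2, w 3, w 4, w 5, w 6] + 13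

theorem be_step (j : Fin 7) (w : Fin 7 → ℂ) (hw : ∀ i, 0 ≤ (w i).re) : ∃ C D : ℂ,
      (∀ x, be (Function.update w j x) = C + D * x) ∧
      0 < (C * (starRingEnd ℂ) D).re := by
  have hA := levelB (fun i => w (j.succAbove i)) (fun i => hw _)
  refine ⟨_, _, fun x => ?_, hA⟩
  fin_cases j
  · simp [be, es, Function.update, Fin.succAbove]; try ring
  · simp [be, es, Function.update, Fin.succAbove]; try ring
  · simp [be, es, Function.update, Fin.succAbove]; try ring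
  · simp [be, es, Function.update, Fin.succAbove]; try ring
  · simp [be, es, Function.update, Fin.succAbove]; try ring
  · simp [be, es, Function.update, Fin.succAbove]; try ring
  · simp [be, es, Function.update, Fin.succAbove]; try ring

set_option maxHeartbeats 4000000 in
theorem al_aff (j : Fin 7) (w : Fin 7 → ℂ) : ∃ A B : ℂ,
    ∀ x, al (Function.update w j x) = A + B * x := by
  refine ⟨al (Function.update w j 0), al (Function.update w j 1) -
        al (Function.update w j 0), fun x => ?_⟩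
  fin_cases j <;> simp [al, es, Function.update] <;> ring

theorem bdry (y : Fin 7 → ℝ) :
    0 ≤ (al (fun i => I * (y i : ℂ)) * (starRingEnd ℂ) (be (fun i => I * (y i : ℂ)))).re := by
  have a1 := es_I 1 [y 0, y 1, y 2, y 3, y 4, y 5, y 6]
  have b10 := es_I 1 [y 1, y 4, y 5, y 6]
  have b11 := es_I 1 [y 0, y 2, y 3, y 6]
  have b12 := es_I 1 [y 0, y 1, y 3, y 5]
  have b13 := es_I 1 [y 0, y 1, y 2, y 4]
  have a2 := es_I 2 [y 0, y 1, y 2, y 3, y 4, y 5, y 6]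
  have b20 := es_I 2 [y 1, y 4, y 5, y 6]
  have b21 := es_I 2 [y 0, y 2, y 3, y 6]
  have b22 := es_I 2 [y 0, y 1, y 3, y 5]
  have b23 := es_I 2 [y 0, y 1, y 2, y 4]
  have a3 := es_I 3 [y 0, y 1, y 2, y 3, y 4, y 5, y 6]
  have b30 := es_I 3 [y 1, y 4, y 5, y 6]
  have b31 := es_I 3 [y 0, y 2, y 3, y 6]
  have b32 := es_I 3 [y 0, y 1, y 3, y 5]
  have b33 := es_I 3 [y 0, y 1, y 2, y 4]
  have a4 := es_I 4 [y 0, y 1, y 2, y 3, y 4, y 5, y 6]
  have b40 := es_I 4 [y 1, y 4, y 5, y 6]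
  have b41 := es_I 4 [y 0, y 2, y 3, y 6]
  have b42 := es_I 4 [y 0, y 1, y 3, y 5]
  have b43 := es_I 4 [y 0, y 1, y 2, y 4]
  simp only [List.map_cons, List.map_nil] at a1 a2 a3 a4 b10 b11 b12 b13 b20 b21 b22 b23 b30 b31 b32 b33 b40 b41 b42 b43
  simp only [al, be, a1, a2, a3, a4, b10, b11, b12, b13, b20, b21, b22, b23, b30, b31, b32, b33, b40, b41, b42, b43]
  have hF := F_nonneg (y 0) (y 1) (y 2) (y 3) (y 4) (y 5) (y 6)
  generalize es 1 [y 0, y 1, y 2, y 3, y 4, y 5, y 6] = A1 at *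
  generalize es 1 [y 1, y 4, y 5, y 6] = B10 at *
  generalize es 1 [y 0, y 2, y 3, y 6] = B11 at *
  generalize es 1 [y 0, y 1, y 3, y 5] = B12 at *
  generalize es 1 [y 0, y 1, y 2, y 4] = B13 at *
  generalize es 2 [y 0, y 1, y 2, y 3, y 4, y 5, y 6] = A2 at *
  generalize es 2 [y 1, y 4, y 5, y 6] = B20 at *
  generalize es 2 [y 0, y 2, y 3, y 6] = B21 at *
  generalize es 2 [y 0, y 1, y 3, y 5] = B22 at *
  generalize es 2 [y 0, y 1, y 2, y 4] = B23 at *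
  generalize es 3 [y 0, y 1, y 2, y 3, y 4, y 5, y 6] = A3 at *
  generalize es 3 [y 1, y 4, y 5, y 6] = B30 at *
  generalize es 3 [y 0, y 2, y 3, y 6] = B31 at *
  generalize es 3 [y 0, y 1, y 3, y 5] = B32 at *
  generalize es 3 [y 0, y 1, y 2, y 4] = B33 at *
  generalize es 4 [y 0, y 1, y 2, y 3, y 4, y 5, y 6] = A4 at *
  generalize es 4 [y 1, y 4, y 5, y 6] = B40 at *
  generalize es 4 [y 0, y 2, y 3, y 6] = B41 at *
  generalize es 4 [y 0, y 1, y 3, y 5] = B42 at *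
  generalize es 4 [y 0, y 1, y 2, y 4] = B43 at *
  clear a1 a2 a3 a4 b10 b11 b12 b13 b20 b21 b22 b23 b30 b31 b32 b33 b40 b41 b42 b43
  refine le_of_le_of_eq hF ?_
  simp [pow_succ]
  ring

/-- The top level. -/
theorem top (w : Fin 7 → ℂ) (hw : ∀ i, 0 ≤ (w i).re) (z : ℂ) (hz : 0 < z.re) :
    al w + z * be w ≠ 0 := by
  have h1 : 0 ≤ (al w * (starRingEnd ℂ) (be w)).re :=
    ind al be al_aff be_step bdry w hw
  have hne : be w ≠ 0 := by
    obtain ⟨C, D, h3, h4⟩ := be_step 0 w hw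
    have h3' := h3 (w 0)
    rw [Function.update_eq_self] at h3'
    intro h
    rw [h] at h3'
    have h5 : (C * (starRingEnd ℂ) D).re = -((D * (starRingEnd ℂ) D) * w 0).re := by
      have : C = -(D * w 0) := by linear_combination -h3'
      rw [this, ← neg_re]; congr 1; ring
    rw [Complex.mul_conj, Complex.re_ofReal_mul] at h5
    nlinarith [mul_nonneg (Complex.normSq_nonneg D) (hw 0)]
  intro h
  have h2 : ((al w + z * be w) * (starRingEnd ℂ) (be w)).re = 0 := by rw [h]; simp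
  rw [add_mul, add_re, mul_assoc, Complex.mul_conj, Complex.re_mul_ofReal] at h2
  have := Complex.normSq_pos.mpr hne
  nlinarith [mul_pos hz this]

end R523.BC
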