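import Pool.Agent.R523.Krom
import Pool.Agent.TH647.NR.Res
import Pool.Agent.TH456.TM.AlgDep

/-!
# A criterion of Gelfond type for two numbers and bounded degrees
-/

set_option autoImplicit false

namespace Pool.Agent.R523.Gel

open Polynomial Matrix Finset
open Pool.Agent.TH456.TM

lemma adj_le (N : ℕ) (M : Matrix (Fin N) (Fin N) ℂ) (B : ℝ) (hB : 1 ≤ B) (hM : ∀ i j, ‖M i j‖ ≤ B)
    (i j : Fin N) : ‖adjugate M i j‖ ≤ N.factorial * B ^ (N - 1) := by
  classical
  rw [adjugate_apply, Matrix.det_apply]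
  refine (norm_sum_le _ _).trans ?_
  have h1 : ∀ σ ∈ (univ : Finset (Equiv.Perm (Fin N))),
      ‖Equiv.Perm.sign σ • ∏ k, (M.updateRow j (Pi.single i 1)) (σ k) k‖ ≤ B ^ (N - 1) := by
    intro σ _
    have h2 : ‖∏ k, (M.updateRow j (Pi.single i 1)) (σ k) k‖ ≤ B ^ (N - 1) := by
      rw [norm_prod, ← Finset.mul_prod_erase univ _ (mem_univ (σ⁻¹ j))]
      have h3 : ‖(M.updateRow j (Pi.single i 1)) (σ (σ⁻¹ j)) (σ⁻¹ j)‖ ≤ 1 := by
        rw [show σ (σ⁻¹ j) = j by simp, Matrix.updateRow_self]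
        by_cases hb : σ⁻¹ j = i
        · rw [hb]; simp
        · rw [Pi.single_eq_of_ne hb, norm_zero]; exact zero_le_one
      have h4 : ∏ k ∈ univ.erase (σ⁻¹ j), ‖(M.updateRow j (Pi.single i 1)) (σ k) k‖ ≤
          B ^ (N - 1) := by
        refine (Finset.prod_le_prod (fun _ _ => norm_nonneg _) (g := fun _ => B)
          fun k hk => ?_).trans_eq ?_
        · have hk1 : σ k ≠ j := by
            intro h
            exact (Finset.ne_of_mem_erase hk) (by rw [← h]; simp)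
          rw [Matrix.updateRow_ne hk1]
          exact hM _ _
        · rw [Finset.prod_const, Finset.card_erase_of_mem (mem_univ _), card_univ,
            Fintype.card_fin]
      calc _ ≤ 1 * B ^ (N - 1) := mul_le_mul h3 h4 (Finset.prod_nonneg fun _ _ => norm_nonneg _)
            zero_le_one
        _ = _ := one_mul _
    rcases Int.units_eq_one_or (Equiv.Perm.sign σ) with h3 | h3
    · rw [h3, one_smul]; exact h2
    · rw [h3, Units.neg_smul, one_smul, norm_neg]; exact h2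
  refine (Finset.sum_le_sum h1).trans ?_
  rw [Finset.sum_const, Finset.card_univ, Fintype.card_perm, Fintype.card_fin, nsmul_eq_mul]

/-- size of the resultant in terms of the values -/
lemma res_le (f g : ℂ[X]) (m n : ℕ) (hf : f.natDegree ≤ m) (hg : g.natDegree ≤ n)
    (hmn : 0 < m + n) (B T ε : ℝ) (hB : 1 ≤ B) (hfB : ∀ i, ‖f.coeff i‖ ≤ B)
    (hgB : ∀ i, ‖g.coeff i‖ ≤ B) (t : ℂ) (hT : 1 ≤ T) (ht : ‖t‖ ≤ T) (hfε : ‖f.eval t‖ ≤ ε)
    (hgε : ‖g.eval t‖ ≤ ε) :
    ‖resultant f g m n‖ ≤ (m + n) * (T ^ (m + n) * ε) * ((m + n).factorial * B ^ (m + n - 1)) := by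
  classical
  set M := sylvester f g m n with hM
  set v : Fin (m + n) → ℂ := fun i => t ^ (i : ℕ) with hv
  have hε : 0 ≤ ε := (norm_nonneg _).trans hfε
  have hT0 : 0 ≤ T := by linarith
  have hMB : ∀ i j, ‖M i j‖ ≤ B := by
    intro i j
    rw [hM, sylvester, Matrix.of_apply]
    refine Fin.addCases (fun j₁ => ?_) (fun j₁ => ?_) j
    · rw [Fin.addCases_left]
      split_ifs
      · exact hgB _
      · rw [norm_zero]; linarith
    · rw [Fin.addCases_right]
      split_ifs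
      · exact hfB _
      · rw [norm_zero]; linarith
  -- the row vector
  have shift : ∀ (q : ℂ[X]) (k l : ℕ), q.natDegree ≤ l → k + l < m + n →
      ∑ i : Fin (m + n), t ^ (i : ℕ) * (if (i : ℕ) ∈ Set.Icc k (k + l) then q.coeff (i - k) else 0) =
        t ^ k * q.eval t := by
    intro q k l hq hkl
    rw [Fin.sum_univ_eq_sum_range (fun i => t ^ i * (if i ∈ Set.Icc k (k + l) then q.coeff (i - k)
      else 0)) (m + n)]
    have h1 : ∑ i ∈ Finset.range (m + n), t ^ i * (if i ∈ Set.Icc k (k + l) then q.coeff (i - k)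
        else 0) = ∑ i ∈ Finset.Ico k (k + l + 1), t ^ i * q.coeff (i - k) := by
      rw [← Finset.sum_subset (s₁ := Finset.Ico k (k + l + 1))]
      · refine Finset.sum_congr rfl fun i hi => ?_
        rw [Finset.mem_Ico] at hi
        rw [if_pos ⟨hi.1, by omega⟩]
      · intro i hi
        rw [Finset.mem_Ico] at hi
        rw [Finset.mem_range]
        omega
      · intro i _ hi
        rw [Finset.mem_Ico] at hi
        rw [if_neg, mul_zero]
        rintro ⟨h1, h2⟩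
        omega
    rw [h1, Finset.sum_Ico_eq_sum_range, eval_eq_sum_range' (show q.natDegree < l + 1 by omega),
      Finset.mul_sum]
    rw [show k + l + 1 - k = l + 1 by omega]
    refine Finset.sum_congr rfl fun i _ => ?_
    rw [show k + i - k = i by omega, pow_add]
    ring
  have hu : ∀ j, ‖(v ᵥ* M) j‖ ≤ T ^ (m + n) * ε := by
    intro j
    have h0 : (v ᵥ* M) j = ∑ i : Fin (m + n), t ^ (i : ℕ) * M i j := rfl
    have key : ∀ (k : ℕ) (z : ℂ), k ≤ m + n → ‖z‖ ≤ ε → ‖t ^ k * z‖ ≤ T ^ (m + n) * ε := by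
      intro k z hk hz
      rw [norm_mul, norm_pow]
      have h1 : ‖t‖ ^ k ≤ T ^ (m + n) :=
        (pow_le_pow_left₀ (norm_nonneg _) ht k).trans (pow_le_pow_right₀ hT hk)
      gcongr
    rw [h0]
    refine Fin.addCases (fun j₁ => ?_) (fun j₁ => ?_) j
    · have h1 : ∑ i : Fin (m + n), t ^ (i : ℕ) * M i (Fin.castAdd n j₁) = t ^ (j₁ : ℕ) * g.eval t := by
        rw [← shift g j₁ n hg (by have := j₁.2; omega)]
        refine Finset.sum_congr rfl fun i _ => ?_
        rw [hM, sylvester, Matrix.of_apply, Fin.addCases_left]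
      rw [h1]
      exact key _ _ (by have := j₁.2; omega) hgε
    · have h1 : ∑ i : Fin (m + n), t ^ (i : ℕ) * M i (Fin.natAdd m j₁) = t ^ (j₁ : ℕ) * f.eval t := by
        rw [← shift f j₁ m hf (by have := j₁.2; omega)]
        refine Finset.sum_congr rfl fun i _ => ?_
        rw [hM, sylvester, Matrix.of_apply, Fin.addCases_right]
      rw [h1]
      exact key _ _ (by have := j₁.2; omega) hfε
  -- Cramer
  have hadj : ∀ i j, ‖adjugate M i j‖ ≤ (m + n).factorial * B ^ (m + n - 1) :=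
    fun i j => adj_le (m + n) M B hB hMB i j
  have hcr : (v ᵥ* M) ᵥ* adjugate M = M.det • v := by
    rw [Matrix.vecMul_vecMul, mul_adjugate, Matrix.vecMul_smul, Matrix.vecMul_one]
  have h0 := congrFun hcr ⟨0, hmn⟩
  have h1 : (M.det • v) ⟨0, hmn⟩ = resultant f g m n := by
    rw [Pi.smul_apply, smul_eq_mul, hv]
    simp [resultant, hM]
  rw [h1] at h0
  rw [← h0]
  have h2 : ((v ᵥ* M) ᵥ* adjugate M) ⟨0, hmn⟩ = ∑ j, (v ᵥ* M) j * adjugate M j ⟨0, hmn⟩ := rfl
  rw [h2]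
  calc ‖∑ j, (v ᵥ* M) j * adjugate M j ⟨0, hmn⟩‖ ≤ ∑ j, ‖(v ᵥ* M) j * adjugate M j ⟨0, hmn⟩‖ :=
        norm_sum_le _ _
    _ ≤ ∑ _j : Fin (m + n), (T ^ (m + n) * ε) * ((m + n).factorial * B ^ (m + n - 1)) := by
        refine Finset.sum_le_sum fun j _ => ?_
        rw [norm_mul]
        have := hu j
        have := hadj j ⟨0, hmn⟩
        gcongr
    _ = _ := by
        rw [Finset.sum_const, Finset.card_univ, Fintype.card_fin, nsmul_eq_mul]
        push_cast
        ring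


/-- the resultant with an irreducible polynomial which is not a divisor does not vanish -/
lemma res_ne (P Q : ℤ[X][X]) (hQ : Irreducible Q) (hQ0 : 0 < Q.natDegree) (hnd : ¬ Q ∣ P) :
    resultant P Q ≠ 0 := by
  classical
  set ι := algebraMap ℤ[X] (FractionRing ℤ[X]) with hι
  have hinj : Function.Injective ι := IsFractionRing.injective _ _
  have hQp : Q.IsPrimitive := hQ.isPrimitive hQ0.ne'
  have hQ' : Irreducible (Q.map ι) :=
    (IsPrimitive.irreducible_iff_irreducible_map_fraction_map (K := FractionRing ℤ[X]) hQp).1 hQ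
  have hcop : IsCoprime (P.map ι) (Q.map ι) := by
    refine ((hQ'.coprime_iff_not_dvd).2 fun hdvd => hnd ?_).symm
    exact hQp.dvd_of_fraction_map_dvd_fraction_map (K := FractionRing ℤ[X]) hdvd
  have h2 := resultant_ne_zero _ _ hcop
  rw [natDegree_map_eq_of_injective hinj, natDegree_map_eq_of_injective hinj, resultant_map_map] at h2
  intro h0
  exact h2 (by rw [h0, map_zero])

/-- the weight -/
noncomputable def Ph (v : ℤ[X][X] →+* ℂ) (m : ℕ) (w : ℝ) (F : ℤ[X][X]) : ℝ := ‖v F‖ * MM m F ^ w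

lemma Ph_mul (v : ℤ[X][X] →+* ℂ) (m : ℕ) (w : ℝ) (F G : ℤ[X][X]) :
    Ph v m w (F * G) = Ph v m w F * Ph v m w G := by
  unfold Ph
  rw [map_mul, norm_mul, MM_mul, Real.mul_rpow (MM_nonneg _ _) (MM_nonneg _ _)]
  ring

lemma Ph_nonneg (v : ℤ[X][X] →+* ℂ) (m : ℕ) (w : ℝ) (F : ℤ[X][X]) : 0 ≤ Ph v m w F :=
  mul_nonneg (norm_nonneg _) (Real.rpow_nonneg (MM_nonneg _ _) _)

lemma Ph_const (v : ℤ[X][X] →+* ℂ) (m : ℕ) (w : ℝ) (hw : 0 ≤ w) (F : ℤ[X][X]) (hF : F ≠ 0)
    (h1 : F.natDegree = 0) (h2 : xd F = 0) : 1 ≤ Ph v m w F := by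
  obtain ⟨a, ha⟩ : ∃ a : ℤ, F = C (C a) := by
    refine ⟨(F.coeff 0).coeff 0, ?_⟩
    have h3 := coeff_le_xd F 0
    rw [h2] at h3
    rw [← eq_C_of_natDegree_le_zero h3]
    exact eq_C_of_natDegree_eq_zero h1
  have ha0 : a ≠ 0 := by
    rintro rfl
    exact hF (by rw [ha, C_0, C_0])
  have h4 : F = ((a : ℤ) : ℤ[X][X]) := by
    rw [ha]
    simp
  have h5 : (1 : ℝ) ≤ ‖v F‖ := by
    rw [h4, map_intCast, Complex.norm_intCast]
    exact_mod_cast Int.one_le_abs ha0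
  have h6 : 1 ≤ MM m F := one_le_MM m F hF (by omega)
  exact one_le_mul_of_one_le_of_one_le h5 (Real.one_le_rpow h6 hw)

lemma Ph_ge (v : ℤ[X][X] →+* ℂ) (m : ℕ) (w : ℝ) (hw : 0 ≤ w) (r : ℝ) (hr : 0 < r) (hr1 : r ≤ 1)
    (F : ℤ[X][X]) : F ≠ 0 →
    (∀ Q, Irreducible Q → Q ∣ F → 0 < Q.natDegree + xd Q → r ≤ Ph v m w Q) →
      r ^ (F.natDegree + xd F) ≤ Ph v m w F := by
  induction F using WfDvdMonoid.induction_on_irreducible with
  | zero => intro h; exact absurd rfl h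
  | unit u hu =>
    intro h0 _
    have h1 : u.natDegree = 0 := natDegree_eq_zero_of_isUnit hu
    have h2 : xd u = 0 := natDegree_eq_zero_of_isUnit (hu.map Bivariate.swap)
    exact (pow_le_one₀ hr.le hr1).trans (Ph_const v m w hw u h0 h1 h2)
  | mul a i ha hi ih =>
    intro h0 h
    have ih' := ih ha (fun Q hQ hQa => h Q hQ (hQa.mul_left i))
    rw [Ph_mul, natDegree_mul hi.ne_zero ha, xd_mul _ _ hi.ne_zero ha]
    have h3 : r ^ (i.natDegree + xd i) ≤ Ph v m w i := by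
      by_cases hc : 0 < i.natDegree + xd i
      · refine le_trans ?_ (h i hi (dvd_mul_right i a) hc)
        exact pow_le_of_le_one hr.le hr1 hc.ne'
      · refine (pow_le_one₀ hr.le hr1).trans (Ph_const v m w hw i hi.ne_zero (by omega) (by omega))
    calc r ^ (i.natDegree + a.natDegree + (xd i + xd a)) =
          r ^ (i.natDegree + xd i) * r ^ (a.natDegree + xd a) := by
          rw [← pow_add]; congr 1; ring
      _ ≤ _ := mul_le_mul h3 ih' (by positivity) (Ph_nonneg _ _ _ _)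

lemma large (c δ : ℝ) (hδ : 0 < δ) : ∃ B : ℝ, 1 ≤ B ∧ ∀ l, B ≤ l → c < l ^ δ := by
  obtain ⟨B, hB⟩ := Filter.eventually_atTop.1 ((tendsto_rpow_atTop hδ).eventually_gt_atTop c)
  exact ⟨max 1 B, le_max_left _ _, fun l hl => hB l ((le_max_right _ _).trans hl)⟩

lemma aeval_le (x : ℂ) (m : ℕ) (q : ℤ[X]) (hq : q.natDegree ≤ m) (H : ℝ)
    (hH : ∀ k, |(q.coeff k : ℝ)| ≤ H) : ‖aeval x q‖ ≤ (m + 1) * H * max 1 ‖x‖ ^ m := by
  rw [aeval_eq_sum_range' (show q.natDegree < m + 1 by omega)]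
  refine (norm_sum_le _ _).trans ?_
  have hH0 : 0 ≤ H := (abs_nonneg _).trans (hH 0)
  calc ∑ k ∈ range (m + 1), ‖q.coeff k • x ^ k‖ ≤ ∑ _k ∈ range (m + 1), H * max 1 ‖x‖ ^ m := by
        refine Finset.sum_le_sum fun k hk => ?_
        rw [mem_range] at hk
        rw [zsmul_eq_mul, norm_mul, norm_pow, Complex.norm_intCast]
        refine mul_le_mul (hH k) ?_ (by positivity) hH0
        exact (pow_le_pow_left₀ (norm_nonneg _) (le_max_right _ _) k).trans
          (pow_le_pow_right₀ (le_max_left _ _) (by omega))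
    _ = _ := by
        rw [Finset.sum_const, card_range, nsmul_eq_mul]
        push_cast
        ring

/-- **The criterion.** -/
theorem crit (x t : ℂ) (m n : ℕ) (hn : 1 ≤ n) (κ c : ℝ) (hκ : 0 ≤ κ) (hc : 0 < c)
    (hmeas : ∀ R : ℤ[X], R ≠ 0 → R.natDegree ≤ 2 * n * m → ∀ H : ℝ, 1 ≤ H →
      (∀ k, |(R.coeff k : ℝ)| ≤ H) → c ≤ H ^ κ * ‖aeval x R‖)
    (w : ℝ) (hw : 2 * n - 1 + 2 * n * κ < w) (X₀ : ℝ)
    (h : ∀ X : ℝ, X₀ ≤ X → ∃ P : ℤ[X][X], P ≠ 0 ∧ P.natDegree ≤ n ∧ xd P ≤ m ∧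
      (∀ j k, |(((P.coeff j).coeff k : ℤ) : ℝ)| ≤ X) ∧ ‖evR x t P‖ ≤ X ^ (-w)) :
    ∃ P : ℤ[X][X], P ≠ 0 ∧ P.natDegree ≤ n ∧ xd P ≤ m ∧ evR x t P = 0 := by
  classical
  by_contra hcon
  push Not at hcon
  have hnR : (1 : ℝ) ≤ n := by exact_mod_cast hn
  obtain ⟨w', hw1, hw2⟩ := exists_between hw
  have hnκ : 0 ≤ 2 * (n : ℝ) * κ := by positivity
  have hw'0 : 0 < w' := by linarith
  set d := m + (m + 1) * n with hd
  set Dn : ℝ := ((d + 1 : ℕ) : ℝ) with hDn
  have hDn1 : 1 ≤ Dn := by rw [hDn]; push_cast; linarith [(Nat.cast_nonneg d : (0 : ℝ) ≤ d)]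
  set v := evR x t with hv
  -- irreducible factors with small weight
  have stepA : ∀ r : ℝ, 0 < r → r ≤ 1 → ∃ Q : ℤ[X][X], Irreducible Q ∧ Q.natDegree ≤ n ∧ xd Q ≤ m ∧
      Ph v m w' Q < r := by
    intro r hr hr1
    obtain ⟨X1, hX1, hX1'⟩ := large (Dn ^ w' / r ^ (n + m)) (w - w') (by linarith)
    obtain ⟨X, hX⟩ : ∃ X, X = max X₀ X1 := ⟨_, rfl⟩
    have hXX0 : X₀ ≤ X := by rw [hX]; exact le_max_left _ _
    have hXX1 : X1 ≤ X := by rw [hX]; exact le_max_right _ _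
    have hX0 : 0 < X := by linarith
    obtain ⟨P, hP0, hPn, hPm, hPX, hPv⟩ := h X hXX0
    by_contra hno
    push Not at hno
    have h1 := Ph_ge v m w' hw'0.le r hr hr1 P hP0 (fun Q hQ hQP _ => by
      obtain ⟨R, rfl⟩ := hQP
      have hR0 : R ≠ 0 := right_ne_zero_of_mul hP0
      rw [natDegree_mul hQ.ne_zero hR0] at hPn
      rw [xd_mul _ _ hQ.ne_zero hR0] at hPm
      exact hno Q hQ (by omega) (by omega))
    have h2 : r ^ (n + m) ≤ r ^ (P.natDegree + xd P) := pow_le_pow_of_le_one hr.le hr1 (by omega)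
    have h3 : Ph v m w' P ≤ X ^ (-w) * (Dn * X) ^ w' := by
      unfold Ph
      refine mul_le_mul hPv ?_ (Real.rpow_nonneg (MM_nonneg _ _) _) (Real.rpow_nonneg hX0.le _)
      exact Real.rpow_le_rpow (MM_nonneg _ _) (MM_le m n P hPm hPn X hPX) hw'0.le
    have h4 : X ^ (-w) * (Dn * X) ^ w' * X ^ (w - w') = Dn ^ w' := by
      rw [Real.mul_rpow (by linarith) hX0.le]
      have h5 : X ^ (-w) * X ^ w' * X ^ (w - w') = 1 := by
        rw [← Real.rpow_add hX0, ← Real.rpow_add hX0]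
        rw [show -w + w' + (w - w') = 0 by ring, Real.rpow_zero]
      calc X ^ (-w) * (Dn ^ w' * X ^ w') * X ^ (w - w') =
            Dn ^ w' * (X ^ (-w) * X ^ w' * X ^ (w - w')) := by ring
        _ = _ := by rw [h5, mul_one]
    have h5 := hX1' X hXX1
    rw [div_lt_iff₀ (by positivity)] at h5
    have h6 : 0 < X ^ (w - w') := Real.rpow_pos_of_pos hX0 _
    have h7 : r ^ (n + m) * X ^ (w - w') ≤ Dn ^ w' := by
      rw [← h4]
      exact mul_le_mul_of_nonneg_right (h2.trans (h1.trans h3)) h6.le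
    linarith [mul_comm (X ^ (w - w')) (r ^ (n + m))]
  -- irreducible polynomials of large height with small weight
  have stepB : ∀ B : ℝ, ∃ Q : ℤ[X][X], Irreducible Q ∧ Q.natDegree ≤ n ∧ xd Q ≤ m ∧ B < MM m Q ∧
      Ph v m w' Q ≤ 1 := by
    intro B
    have hfin := finite_MM m n B
    set S := hfin.toFinset with hS
    obtain ⟨r, hr⟩ : ∃ r : ℝ, r = (1 + ∑ F ∈ S, (Ph v m w' F)⁻¹)⁻¹ := ⟨_, rfl⟩
    have hsum : 0 ≤ ∑ F ∈ S, (Ph v m w' F)⁻¹ :=
      Finset.sum_nonneg fun F _ => inv_nonneg.2 (Ph_nonneg _ _ _ _)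
    have hr0 : 0 < r := by rw [hr]; positivity
    have hr1 : r ≤ 1 := by rw [hr]; exact inv_le_one_of_one_le₀ (by linarith)
    obtain ⟨Q, hQ, hQn, hQm, hQr⟩ := stepA r hr0 hr1
    refine ⟨Q, hQ, hQn, hQm, ?_, hQr.le.trans hr1⟩
    by_contra hB
    push Not at hB
    have hmem : Q ∈ S := by
      rw [hS, Set.Finite.mem_toFinset]
      exact ⟨hQm, hQn, hB⟩
    have hpos : 0 < Ph v m w' Q := by
      unfold Ph
      have h1 : 0 < ‖v Q‖ := norm_pos_iff.2 (hcon Q hQ.ne_zero hQn hQm)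
      have h2 : 0 < MM m Q := lt_of_lt_of_le one_pos (one_le_MM m Q hQ.ne_zero hQm)
      positivity
    have h1 : (Ph v m w' Q)⁻¹ ≤ ∑ F ∈ S, (Ph v m w' F)⁻¹ :=
      Finset.single_le_sum (f := fun F => (Ph v m w' F)⁻¹)
        (fun F _ => inv_nonneg.2 (Ph_nonneg _ _ _ _)) hmem
    have h2 : r⁻¹ ≤ (Ph v m w' Q)⁻¹ := (inv_le_inv₀ hr0 hpos).2 hQr.le
    rw [hr, inv_inv] at h2
    linarith
  -- the constants
  set T1 : ℝ := max 1 ‖x‖ with hT1
  set T : ℝ := max 1 ‖t‖ with hT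
  have hT11 : 1 ≤ T1 := le_max_left _ _
  have hT2 : 1 ≤ T := le_max_left _ _
  set E : ℝ := 2 ^ d with hE
  have hE1 : 1 ≤ E := one_le_pow₀ (by norm_num)
  obtain ⟨G1, hG1⟩ : ∃ G1 : ℝ, G1 = ((2 * n).factorial : ℝ) * ((m + 1) * E) ^ (2 * n) := ⟨_, rfl⟩
  obtain ⟨G2, hG2⟩ : ∃ G2 : ℝ, G2 = (2 * n) * (T ^ (2 * n) * (2 * Dn) ^ w) *
      ((2 * n).factorial * ((m + 1) * E * T1 ^ m) ^ (2 * n - 1)) := ⟨_, rfl⟩
  have hG10 : 0 < G1 := by rw [hG1]; positivity
  have hG20 : 0 < G2 := by rw [hG2]; positivity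
  obtain ⟨B1, hB1, hB1'⟩ := large (E ^ κ / c) (w' - κ) (by nlinarith)
  obtain ⟨B2, hB2, hB2'⟩ := large (G1 ^ κ * G2 / c) (w' - (2 * n - 1 + 2 * n * κ)) (by linarith)
  obtain ⟨Q, hQ, hQn, hQm, hQB, hQ1⟩ := stepB (B1 + B2 + 2 * Dn * |X₀|)
  set l := MM m Q with hl
  have habs : 0 ≤ 2 * Dn * |X₀| := by positivity
  have hl1 : 1 ≤ l := by linarith
  have hl0 : 0 < l := by linarith
  have hQcoef : ∀ j k, |(((Q.coeff j).coeff k : ℤ) : ℝ)| ≤ E * l := fun j k =>
    coeff_le_MM m n Q hQm hQn j k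
  have hEl : 1 ≤ E * l := one_le_mul_of_one_le_of_one_le hE1 hl1
  have hQv : ‖v Q‖ * l ^ w' ≤ 1 := hQ1
  rcases Nat.eq_zero_or_pos Q.natDegree with hQd | hQd
  · -- a polynomial in one variable
    obtain ⟨q, hq⟩ : ∃ q : ℤ[X], Q = C q := ⟨Q.coeff 0, eq_C_of_natDegree_eq_zero hQd⟩
    have hq0 : q ≠ 0 := by
      rintro rfl
      exact hQ.ne_zero (by rw [hq, C_0])
    have hqm : q.natDegree ≤ m := by
      have := coeff_le_xd Q 0
      rw [hq, coeff_C_zero, ← hq] at this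
      omega
    have h1 := hmeas q hq0 (by nlinarith) (E * l) hEl (fun k => by
      have := hQcoef 0 k
      rwa [hq, coeff_C_zero] at this)
    have h2 : aeval x q = v Q := by
      rw [hq, hv]
      unfold evR σx
      simp
    rw [h2, Real.mul_rpow (by linarith) hl0.le] at h1
    have h3 := hB1' l (by linarith)
    rw [div_lt_iff₀ hc] at h3
    have h4 : l ^ w' = l ^ (w' - κ) * l ^ κ := by
      rw [← Real.rpow_add hl0]; congr 1; ring
    have h5 : 0 < l ^ κ := Real.rpow_pos_of_pos hl0 _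
    have h6 : 0 < l ^ (w' - κ) := Real.rpow_pos_of_pos hl0 _
    have h7 : c * l ^ (w' - κ) ≤ E ^ κ := by
      calc c * l ^ (w' - κ) ≤ (E ^ κ * l ^ κ * ‖v Q‖) * l ^ (w' - κ) :=
            mul_le_mul_of_nonneg_right h1 h6.le
        _ = E ^ κ * (‖v Q‖ * l ^ w') := by rw [h4]; ring
        _ ≤ E ^ κ * 1 := mul_le_mul_of_nonneg_left hQv (by positivity)
        _ = E ^ κ := mul_one _
    linarith [mul_comm (l ^ (w' - κ)) c]
  · -- the second polynomial
    obtain ⟨X, hX⟩ : ∃ X, X = l / (2 * Dn) := ⟨_, rfl⟩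
    have hX0 : 0 < X := by rw [hX]; positivity
    have hXX0 : X₀ ≤ X := by
      rw [hX, le_div_iff₀ (by positivity)]
      have := le_abs_self X₀
      nlinarith
    have hXl : X ≤ l := by
      rw [hX]
      exact div_le_self hl0.le (by linarith)
    obtain ⟨P, hP0, hPn, hPm, hPX, hPv⟩ := h X hXX0
    have hnd : ¬ Q ∣ P := by
      rintro ⟨R, hR⟩
      have hR0 : R ≠ 0 := by
        rintro rfl
        exact hP0 (by rw [hR, mul_zero])
      have h1 : xd R ≤ m := by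
        have := xd_mul Q R hQ.ne_zero hR0
        rw [← hR] at this
        omega
      have h2 := one_le_MM m R hR0 h1
      have h3 := MM_le m n P hPm hPn X hPX
      rw [hR, MM_mul] at h3
      have h4 : Dn * X = l / 2 := by
        rw [hX]
        field_simp
      have h5 : l * MM m R ≤ l / 2 := by
        rw [← h4]; exact h3
      nlinarith
    have hres := res_ne P Q hQ hQd hnd
    obtain ⟨a, ha⟩ : ∃ a, a = P.natDegree := ⟨_, rfl⟩
    obtain ⟨b, hb⟩ : ∃ b, b = Q.natDegree := ⟨_, rfl⟩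
    rw [← ha, ← hb] at hres
    have hab : a + b ≤ 2 * n := by omega
    have hab0 : 0 < a + b := by omega
    have hPcoef : ∀ j k, |(((P.coeff j).coeff k : ℤ) : ℝ)| ≤ E * l := fun j k =>
      (hPX j k).trans (hXl.trans (le_mul_of_one_le_left hl0.le hE1))
    obtain ⟨H, hH⟩ : ∃ H : ℤ, H = ⌊E * l⌋ := ⟨_, rfl⟩
    have hH1 : 1 ≤ H := by rw [hH]; exact Int.le_floor.2 (by exact_mod_cast hEl)
    have hHle : (H : ℝ) ≤ E * l := by rw [hH]; exact Int.floor_le _
    have hfl : ∀ z : ℤ, |(z : ℝ)| ≤ E * l → |z| ≤ H := fun z hz => by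
      rw [hH, Int.le_floor]
      exact_mod_cast hz
    obtain ⟨hR1, hR2⟩ := Pool.Agent.TH647.NR.resultant_bounds P Q a b m H (by omega)
      (fun j => (coeff_le_xd P j).trans hPm) (fun j => (coeff_le_xd Q j).trans hQm)
      (fun j k => hfl _ (hPcoef j k)) (fun j k => hfl _ (hQcoef j k))
    set R := resultant P Q a b with hRdef
    have hR3 : ∀ k, |((R.coeff k : ℤ) : ℝ)| ≤ G1 * l ^ (2 * n) := by
      intro k
      have h1 : |((R.coeff k : ℤ) : ℝ)| ≤ ((a + b).factorial : ℝ) * ((m + 1) * H) ^ (a + b) := by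
        exact_mod_cast hR2 k
      refine h1.trans ?_
      have h2 : ((a + b).factorial : ℝ) ≤ ((2 * n).factorial : ℝ) := by
        exact_mod_cast Nat.factorial_le hab
      have hH1R : (1 : ℝ) ≤ H := by exact_mod_cast hH1
      have hmR : (0 : ℝ) ≤ m := Nat.cast_nonneg m
      have h3 : ((m + 1 : ℝ) * H) ^ (a + b) ≤ ((m + 1) * (E * l)) ^ (2 * n) := by
        refine (pow_le_pow_left₀ (by positivity) (mul_le_mul_of_nonneg_left hHle (by positivity))
          (a + b)).trans (pow_le_pow_right₀ ?_ hab)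
        nlinarith
      calc ((a + b).factorial : ℝ) * ((m + 1) * H) ^ (a + b) ≤
            ((2 * n).factorial : ℝ) * ((m + 1) * (E * l)) ^ (2 * n) :=
            mul_le_mul h2 h3 (by positivity) (by positivity)
        _ = G1 * l ^ (2 * n) := by
            rw [hG1, ← mul_assoc (m + 1 : ℝ) E l, mul_pow _ l]
            ring
    have hG1l : 1 ≤ G1 * l ^ (2 * n) := by
      have h1 : (1 : ℝ) ≤ ((2 * n).factorial : ℝ) := by exact_mod_cast Nat.factorial_pos (2 * n)
      have hmR : (0 : ℝ) ≤ m := Nat.cast_nonneg m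
      have h2 : (1 : ℝ) ≤ ((m + 1) * E) ^ (2 * n) := one_le_pow₀ (by nlinarith)
      rw [hG1]
      exact one_le_mul_of_one_le_of_one_le (one_le_mul_of_one_le_of_one_le h1 h2) (one_le_pow₀ hl1)
    have hmR := hmeas R hres (hR1.trans (Nat.mul_le_mul_right m hab)) (G1 * l ^ (2 * n)) hG1l hR3
    -- the value of the resultant
    have hval : ‖aeval x R‖ ≤ G2 * (l ^ (2 * n - 1) * l ^ (-w')) := by
      have h1 : aeval x R = resultant (P.map (σx x)) (Q.map (σx x)) a b := by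
        rw [resultant_map_map]
        rfl
      rw [h1]
      obtain ⟨ε, hε⟩ : ∃ ε : ℝ, ε = (2 * Dn) ^ w * l ^ (-w') := ⟨_, rfl⟩
      have hcf : ∀ F : ℤ[X][X], xd F ≤ m → (∀ j k, |(((F.coeff j).coeff k : ℤ) : ℝ)| ≤ E * l) →
          ∀ i, ‖(F.map (σx x)).coeff i‖ ≤ (m + 1) * (E * l) * T1 ^ m := by
        intro F hF hF' i
        rw [coeff_map]
        exact aeval_le x m (F.coeff i) ((coeff_le_xd F i).trans hF) (E * l) (hF' i)
      have hB1 : 1 ≤ (m + 1) * (E * l) * T1 ^ m := by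
        have hmR : (0 : ℝ) ≤ m := Nat.cast_nonneg m
        exact one_le_mul_of_one_le_of_one_le (by nlinarith) (one_le_pow₀ hT11)
      have hevl : ∀ F : ℤ[X][X], (F.map (σx x)).eval t = v F := by
        intro F
        rw [hv, evR_apply]
        rfl
      have hw0 : 0 < w := by linarith
      have hPε : ‖(P.map (σx x)).eval t‖ ≤ ε := by
        rw [hevl, hε]
        refine hPv.trans ?_
        rw [hX, Real.div_rpow hl0.le (by positivity), Real.rpow_neg (by positivity : 0 ≤ 2 * Dn),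
          div_inv_eq_mul, mul_comm]
        refine mul_le_mul_of_nonneg_left ?_ (by positivity)
        exact Real.rpow_le_rpow_of_exponent_le hl1 (by linarith)
      have hQε : ‖(Q.map (σx x)).eval t‖ ≤ ε := by
        rw [hevl, hε]
        have h2 : ‖v Q‖ ≤ l ^ (-w') := by
          rw [Real.rpow_neg hl0.le, ← one_div, le_div_iff₀ (by positivity)]
          exact hQv
        refine h2.trans (le_mul_of_one_le_left (by positivity) ?_)
        exact Real.one_le_rpow (by linarith) hw0.le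
      have h2 := res_le (P.map (σx x)) (Q.map (σx x)) a b (natDegree_map_le.trans ha.ge)
        (natDegree_map_le.trans hb.ge) hab0 ((m + 1) * (E * l) * T1 ^ m) T ε hB1
        (hcf P hPm hPcoef) (hcf Q hQm hQcoef) t hT2 (le_max_right _ _) hPε hQε
      refine h2.trans ?_
      have hε0 : 0 < ε := by rw [hε]; positivity
      have h3 : ((a : ℝ) + b) ≤ 2 * n := by exact_mod_cast hab
      have h4 : T ^ (a + b) ≤ T ^ (2 * n) := pow_le_pow_right₀ hT2 hab
      have h5 : ((a + b).factorial : ℝ) ≤ ((2 * n).factorial : ℝ) := by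
        exact_mod_cast Nat.factorial_le hab
      have h6 : ((m + 1) * (E * l) * T1 ^ m) ^ (a + b - 1) ≤
          ((m + 1) * (E * l) * T1 ^ m) ^ (2 * n - 1) := pow_le_pow_right₀ hB1 (by omega)
      calc ((a : ℝ) + b) * (T ^ (a + b) * ε) *
            ((a + b).factorial * ((m + 1) * (E * l) * T1 ^ m) ^ (a + b - 1)) ≤
            (2 * n) * (T ^ (2 * n) * ε) *
            ((2 * n).factorial * ((m + 1) * (E * l) * T1 ^ m) ^ (2 * n - 1)) := by
            gcongr
        _ = G2 * (l ^ (2 * n - 1) * l ^ (-w')) := by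
            rw [hG2, hε, show (m + 1 : ℝ) * (E * l) * T1 ^ m = ((m + 1) * E * T1 ^ m) * l by ring,
              mul_pow _ l]
            ring
    -- conclusion
    have h3 := hB2' l (by linarith)
    rw [div_lt_iff₀ hc] at h3
    obtain ⟨δ, hδ⟩ : ∃ δ : ℝ, δ = w' - (2 * n - 1 + 2 * n * κ) := ⟨_, rfl⟩
    rw [← hδ] at h3
    have h4 : (G1 * l ^ (2 * n)) ^ κ = G1 ^ κ * l ^ (2 * n * κ) := by
      rw [Real.mul_rpow hG10.le (by positivity), ← Real.rpow_natCast l, ← Real.rpow_mul hl0.le]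
      push_cast
      ring_nf
    have h5 : (l ^ (2 * n - 1) : ℝ) = l ^ (2 * (n : ℝ) - 1) := by
      rw [← Real.rpow_natCast l, Nat.cast_sub (by omega)]
      push_cast
      ring_nf
    have h6 : l ^ (2 * n * κ) * (l ^ (2 * (n : ℝ) - 1) * l ^ (-w')) * l ^ δ = 1 := by
      rw [← Real.rpow_add hl0, ← Real.rpow_add hl0, ← Real.rpow_add hl0]
      rw [show 2 * n * κ + (2 * (n : ℝ) - 1 + -w') + δ = 0 by rw [hδ]; ring, Real.rpow_zero]
    have h7 : 0 < l ^ δ := Real.rpow_pos_of_pos hl0 _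
    have h8 : c * l ^ δ ≤ G1 ^ κ * G2 := by
      calc c * l ^ δ ≤ ((G1 * l ^ (2 * n)) ^ κ * ‖aeval x R‖) * l ^ δ :=
            mul_le_mul_of_nonneg_right hmR h7.le
        _ ≤ ((G1 * l ^ (2 * n)) ^ κ * (G2 * (l ^ (2 * n - 1) * l ^ (-w')))) * l ^ δ := by
            gcongr
        _ = G1 ^ κ * G2 * (l ^ (2 * n * κ) * (l ^ (2 * (n : ℝ) - 1) * l ^ (-w')) * l ^ δ) := by
            rw [h4, h5]; ring
        _ = _ := by rw [h6, mul_one]
    linarith [mul_comm (l ^ δ) c]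

end Pool.Agent.R523.Gel
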