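import Pool.Agent.R523.Crit

/-!
# The criterion in terms of coefficients
-/

set_option autoImplicit false

namespace Pool.Agent.R523.Gel

open Polynomial Finset
open Pool.Agent.TH456.TM

/-- the value at `(x, t)` of the polynomial with coefficients `a i j` -/
noncomputable def va (m n : ℕ) (x t : ℂ) (a : Fin (m + 1) → Fin (n + 1) → ℤ) : ℂ :=
  ∑ i, ∑ j, (a i j : ℂ) * x ^ (i : ℕ) * t ^ (j : ℕ)

lemma evR_eq (x t : ℂ) (m n : ℕ) (P : ℤ[X][X]) (hm : xd P ≤ m) (hn : P.natDegree ≤ n) :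
    evR x t P = va m n x t (fun i j => (P.coeff j).coeff i) := by
  rw [evR_apply]
  unfold vl va
  rw [eval_map, eval₂_eq_sum_range' _ (show P.natDegree < n + 1 by omega), Finset.sum_comm,
    Finset.sum_range]
  refine Finset.sum_congr rfl fun j _ => ?_
  have h1 : σx x (P.coeff j) = ∑ i : Fin (m + 1), (((P.coeff j).coeff i : ℤ) : ℂ) * x ^ (i : ℕ) := by
    show aeval x (P.coeff j) = _
    rw [aeval_eq_sum_range' (show (P.coeff j).natDegree < m + 1 by
      have := coeff_le_xd P j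
      omega), Finset.sum_range]
    refine Finset.sum_congr rfl fun i _ => ?_
    rw [zsmul_eq_mul]
  rw [h1, Finset.sum_mul]

/-- the polynomial with given coefficients -/
noncomputable def toP (m n : ℕ) (a : Fin (m + 1) → Fin (n + 1) → ℤ) : ℤ[X][X] :=
  ∑ j ∈ range (n + 1), monomial j (∑ i ∈ range (m + 1), monomial i
    (if h : i < m + 1 ∧ j < n + 1 then a ⟨i, h.1⟩ ⟨j, h.2⟩ else 0))

lemma toP_coeff (m n : ℕ) (a : Fin (m + 1) → Fin (n + 1) → ℤ) (i j : ℕ) :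
    ((toP m n a).coeff j).coeff i =
      if h : i < m + 1 ∧ j < n + 1 then a ⟨i, h.1⟩ ⟨j, h.2⟩ else 0 := by
  unfold toP
  rw [finsetSum_coeff]
  simp only [coeff_monomial]
  rw [Finset.sum_ite_eq' (range (n + 1)) j]
  by_cases hj : j < n + 1
  · rw [if_pos (mem_range.2 hj), finsetSum_coeff]
    simp only [coeff_monomial]
    rw [Finset.sum_ite_eq' (range (m + 1)) i]
    by_cases hi : i < m + 1
    · rw [if_pos (mem_range.2 hi)]
    · rw [if_neg (by rwa [mem_range]), dif_neg (by tauto)]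
  · rw [if_neg (by rwa [mem_range]), coeff_zero, dif_neg (by tauto)]

lemma toP_natDegree (m n : ℕ) (a : Fin (m + 1) → Fin (n + 1) → ℤ) : (toP m n a).natDegree ≤ n := by
  refine natDegree_le_iff_coeff_eq_zero.2 fun j hj => ?_
  ext i
  rw [toP_coeff, dif_neg (by omega), coeff_zero]

lemma toP_xd (m n : ℕ) (a : Fin (m + 1) → Fin (n + 1) → ℤ) : xd (toP m n a) ≤ m := by
  refine xd_le _ _ fun j => natDegree_le_iff_coeff_eq_zero.2 fun i hi => ?_
  rw [toP_coeff, dif_neg (by omega)]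

lemma toP_coeff' (m n : ℕ) (a : Fin (m + 1) → Fin (n + 1) → ℤ) :
    (fun (i : Fin (m + 1)) (j : Fin (n + 1)) => ((toP m n a).coeff j).coeff i) = a := by
  funext i j
  rw [toP_coeff, dif_pos ⟨i.2, j.2⟩]

/-- **The criterion** in terms of coefficients. -/
theorem crit_arr (x t : ℂ) (m n : ℕ) (hn : 1 ≤ n) (κ c : ℝ) (hκ : 0 ≤ κ) (hc : 0 < c)
    (hmeas : ∀ R : ℤ[X], R ≠ 0 → R.natDegree ≤ 2 * n * m → ∀ H : ℝ, 1 ≤ H →
      (∀ k, |(R.coeff k : ℝ)| ≤ H) → c ≤ H ^ κ * ‖aeval x R‖)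
    (w : ℝ) (hw : 2 * n - 1 + 2 * n * κ < w) (X₀ : ℝ)
    (h : ∀ X : ℝ, X₀ ≤ X → ∃ a : Fin (m + 1) → Fin (n + 1) → ℤ, a ≠ 0 ∧
      (∀ i j, |(a i j : ℝ)| ≤ X) ∧ ‖va m n x t a‖ ≤ X ^ (-w)) :
    ∃ a : Fin (m + 1) → Fin (n + 1) → ℤ, a ≠ 0 ∧ va m n x t a = 0 := by
  obtain ⟨P, hP0, hPn, hPm, hP⟩ := crit x t m n hn κ c hκ hc hmeas w hw (max X₀ 0) (fun X hX => by
    obtain ⟨a, ha0, haX, hav⟩ := h X ((le_max_left _ _).trans hX)
    have hX0 : 0 ≤ X := (le_max_right _ _).trans hX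
    refine ⟨toP m n a, ?_, toP_natDegree m n a, toP_xd m n a, fun j k => ?_, ?_⟩
    · intro h0
      apply ha0
      rw [← toP_coeff' m n a, h0]
      funext i j
      simp
    · rw [toP_coeff]
      split_ifs with h1
      · exact haX _ _
      · simpa using hX0
    · rw [evR_eq x t m n _ (toP_xd m n a) (toP_natDegree m n a), toP_coeff']
      exact hav)
  refine ⟨fun i j => (P.coeff j).coeff i, ?_, ?_⟩
  · intro h0
    apply hP0
    ext j i
    rw [coeff_zero, coeff_zero]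
    by_cases hj : j < n + 1
    · by_cases hi : i < m + 1
      · exact congrFun (congrFun h0 ⟨i, hi⟩) ⟨j, hj⟩
      · exact coeff_eq_zero_of_natDegree_lt (by
          have := coeff_le_xd P j
          omega)
    · rw [coeff_eq_zero_of_natDegree_lt (show P.natDegree < j by omega), coeff_zero]
  · rw [← evR_eq x t m n P hPm hPn]
    exact hP

/-- from sequences to all large numbers -/
theorem of_seq (S : ℝ → ℝ → Prop) (hS : ∀ X Y w w', 1 ≤ X → X ≤ Y → X ^ (-w) ≤ Y ^ (-w') →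
      S X w → S Y w')
    (l w : ℝ) (hl : 0 < l) (hw : 0 ≤ w) (X : ℕ → ℝ) (hX1 : ∀ k, 1 ≤ X k)
    (hX : Filter.Tendsto X Filter.atTop Filter.atTop)
    (hXl : ∀ k, X (k + 1) ≤ X k ^ l) (h : ∀ k, S (X k) w) (Y : ℝ) (hY : X 0 ≤ Y) :
    S Y (w / l) := by
  classical
  have hex : ∃ k, Y < X (k + 1) := by
    obtain ⟨k, hk⟩ := ((Filter.tendsto_add_atTop_iff_nat 1).2 hX).eventually_gt_atTop Y |>.exists
    exact ⟨k, hk⟩
  obtain ⟨k, hk, hkmin⟩ : ∃ k, Y < X (k + 1) ∧ X k ≤ Y := by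
    refine ⟨Nat.find hex, Nat.find_spec hex, ?_⟩
    rcases Nat.eq_zero_or_pos (Nat.find hex) with h0 | h0
    · rw [h0]; exact hY
    · have := Nat.find_min hex (m := Nat.find hex - 1) (by omega)
      push Not at this
      rwa [Nat.sub_add_cancel h0] at this
  have hk1 := hX1 k
  have hk0 : 0 < X k := by linarith
  have hY1 : 1 ≤ Y := hk1.trans hkmin
  have hY0 : 0 < Y := by linarith
  refine hS (X k) Y w (w / l) hk1 hkmin ?_ (h k)
  have h1 : Y ≤ X k ^ l := hk.le.trans (hXl k)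
  have h2 : Y ^ (w / l) ≤ X k ^ w := by
    calc Y ^ (w / l) ≤ (X k ^ l) ^ (w / l) := Real.rpow_le_rpow hY0.le h1 (by positivity)
      _ = X k ^ w := by
        rw [← Real.rpow_mul hk0.le]
        congr 1
        field_simp
  rw [Real.rpow_neg hk0.le, Real.rpow_neg hY0.le]
  exact inv_anti₀ (Real.rpow_pos_of_pos hY0 _) h2

end Pool.Agent.R523.Gel
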