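import Pool.Agent.R523.Sim

/-!
# Uniform exponents of linear forms in `1, ξ, t` where `ξ` has the measure 2
-/

set_option autoImplicit false

namespace Pool.Agent.R523.Form

open Filter Pool.Agent.R523.MinSeq Pool.Agent.R523.Sim

/-- the height of an integer vector -/
def ht (x : Fin 3 → ℤ) : ℕ := max (max (x 0).natAbs (x 1).natAbs) (x 2).natAbs

lemma ht_fin (n : ℕ) : {x : {x : Fin 3 → ℤ // x ≠ 0} | ht x.1 ≤ n}.Finite := by
  have h1 : Set.Finite {x : Fin 3 → ℤ | ∀ i, x i ∈ Set.Icc (-(n : ℤ)) n} := by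
    refine Set.Finite.subset (Set.Finite.pi fun _ : Fin 3 => Set.finite_Icc (-(n : ℤ)) n) ?_
    intro x hx
    rw [Set.mem_pi]
    exact fun i _ => hx i
  refine (h1.preimage (Subtype.val_injective.injOn)).subset ?_
  intro x hx
  rw [Set.mem_preimage]
  have hx' : ht x.1 ≤ n := hx
  unfold ht at hx'
  intro i
  rw [Set.mem_Icc, ← abs_le, Int.abs_eq_natAbs]
  have h0 : (x.1 0).natAbs ≤ n := (le_max_left _ _).trans ((le_max_left _ _).trans hx')
  have h1 : (x.1 1).natAbs ≤ n := (le_max_right _ _).trans ((le_max_left _ _).trans hx')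
  have h2 : (x.1 2).natAbs ≤ n := (le_max_right _ _).trans hx'
  fin_cases i
  · exact_mod_cast h0
  · exact_mod_cast h1
  · exact_mod_cast h2

lemma abs_le_ht (x : Fin 3 → ℤ) : |(x 0 : ℝ)| ≤ ht x ∧ |(x 1 : ℝ)| ≤ ht x ∧ |(x 2 : ℝ)| ≤ ht x := by
  have h0 : (x 0).natAbs ≤ ht x := (le_max_left _ _).trans (le_max_left _ _)
  have h1 : (x 1).natAbs ≤ ht x := (le_max_right _ _).trans (le_max_left _ _)
  have h2 : (x 2).natAbs ≤ ht x := le_max_right _ _
  refine ⟨?_, ?_, ?_⟩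
  · rw [← Int.cast_abs, Int.abs_eq_natAbs]; exact_mod_cast h0
  · rw [← Int.cast_abs, Int.abs_eq_natAbs]; exact_mod_cast h1
  · rw [← Int.cast_abs, Int.abs_eq_natAbs]; exact_mod_cast h2

lemma ht_pos (x : Fin 3 → ℤ) (hx : x ≠ 0) : 1 ≤ ht x := by
  by_contra hcon
  have h0 : (x 0).natAbs ≤ ht x := (le_max_left _ _).trans (le_max_left _ _)
  have h1 : (x 1).natAbs ≤ ht x := (le_max_right _ _).trans (le_max_left _ _)
  have h2 : (x 2).natAbs ≤ ht x := le_max_right _ _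
  rcases vec_ne_zero hx with h | h | h <;> have := Int.natAbs_pos.mpr h <;> omega

theorem form (ξ t w : ℝ) (hξ : Good ξ) (hw1 : 2 < w) (hw : 0 < w ^ 2 - 3 * w + 1)
    (hS : ∀ᶠ X : ℕ in atTop, ∃ x : Fin 3 → ℤ, x ≠ 0 ∧ ht x ≤ X ∧
      |(x 0 : ℝ) + x 1 * ξ + x 2 * t| ≤ (X : ℝ) ^ (-w)) :
    ∃ x : Fin 3 → ℤ, x ≠ 0 ∧ (x 0 : ℝ) + x 1 * ξ + x 2 * t = 0 := by
  by_contra hcon
  push Not at hcon
  obtain ⟨f, hf⟩ : ∃ f : (Fin 3 → ℤ) → ℝ, f = fun x => (x 0 : ℝ) + x 1 * ξ + x 2 * t := ⟨_, rfl⟩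
  have hpos : ∀ x : {x : Fin 3 → ℤ // x ≠ 0}, 0 < |f x.1| := fun x => by
    rw [hf]; exact abs_pos.mpr (hcon x.1 x.2)
  have hEX : ∀ᶠ X : ℕ in atTop, ∃ x : {x : Fin 3 → ℤ // x ≠ 0}, ht x.1 ≤ X ∧
      |f x.1| ≤ (X : ℝ) ^ (-w) := by
    filter_upwards [hS] with X hX
    obtain ⟨x, hx0, hx1, hx2⟩ := hX
    exact ⟨⟨x, hx0⟩, hx1, by rw [hf]; exact hx2⟩
  have htend : Tendsto (fun X : ℕ => (X : ℝ) ^ (-w)) atTop (nhds 0) :=
    (tendsto_rpow_neg_atTop (by linarith)).comp tendsto_natCast_atTop_atTop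
  have hinf : ∀ ε : ℝ, 0 < ε → ∃ x : {x : Fin 3 → ℤ // x ≠ 0}, |f x.1| < ε := by
    intro ε hε
    obtain ⟨X, ⟨x, _, hx⟩, hX⟩ := (hEX.and (htend.eventually (gt_mem_nhds hε))).exists
    exact ⟨x, hx.trans_lt hX⟩
  have : Nonempty {x : Fin 3 → ℤ // x ≠ 0} := by
    obtain ⟨x, _⟩ := hinf 1 one_pos
    exact ⟨x⟩
  obtain ⟨s, hs1, hs2, hs3⟩ := minseq (fun x : {x : Fin 3 → ℤ // x ≠ 0} => ht x.1)
    (fun x => |f x.1|) ht_fin hpos hinf
  obtain ⟨y, hy⟩ : ∃ y : ℕ → Fin 3 → ℤ, y = fun k => (s k).1 := ⟨_, rfl⟩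
  have hyne : ∀ k, y k ≠ 0 := fun k => by rw [hy]; exact (s k).2
  obtain ⟨N, hN⟩ : ∃ N : ℕ → ℕ, N = fun k => ht (y k) := ⟨_, rfl⟩
  have hNs : StrictMono N := strictMono_nat_of_lt_succ fun k => by
    rw [hN, hy]; exact hs1 k
  have hNk : ∀ k, k ≤ N k := fun k => hNs.le_apply
  have hN1 : ∀ k, 1 ≤ N k := fun k => by rw [hN]; exact ht_pos _ (hyne k)
  obtain ⟨Q, hQ⟩ : ∃ Q : ℕ → ℝ, Q = fun k => (N k : ℝ) := ⟨_, rfl⟩
  have hQv : ∀ k, Q k = N k := fun k => by rw [hQ]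
  have hQ1 : ∀ k, 1 ≤ Q k := fun k => by rw [hQv]; exact_mod_cast hN1 k
  have hQ0 : ∀ k, 0 < Q k := fun k => by linarith [hQ1 k]
  have hQm : ∀ k, Q k < Q (k + 1) := fun k => by
    rw [hQv, hQv]; exact_mod_cast hNs (Nat.lt_succ_self k)
  have hyQ : ∀ k, |(y k 0 : ℝ)| ≤ Q k ∧ |(y k 1 : ℝ)| ≤ Q k ∧ |(y k 2 : ℝ)| ≤ Q k := fun k => by
    rw [hQ, hN]; exact abs_le_ht (y k)
  obtain ⟨D, hD⟩ : ∃ D : ℕ → ℝ, D = fun k => |f (y k)| := ⟨_, rfl⟩
  have hD0 : ∀ k, 0 < D k := fun k => by rw [hD, hy]; exact hpos _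
  have hDm : ∀ k, D (k + 1) < D k := fun k => by rw [hD, hy]; exact hs2 k
  have hDf : ∀ k, |(y k 0 : ℝ) + y k 1 * ξ + y k 2 * t| = D k := fun k => by rw [hD, hf]
  -- upper bound
  obtain ⟨X0, hX0⟩ := eventually_atTop.1 hEX
  have hup : ∀ k, X0 + 1 ≤ k → D k ≤ (Q (k + 1) / 2) ^ (-w) := by
    intro k hk
    have h2 := hNk (k + 1)
    obtain ⟨x, hx, hx2⟩ := hX0 (N (k + 1) - 1) (by omega)
    have h3 := hs3 k x (by
      have h4 : ht (s (k + 1)).1 = N (k + 1) := by rw [hN, hy]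
      rw [h4]
      have := hN1 (k + 1)
      omega)
    have h5 : D k = |f (s k).1| := by rw [hD, hy]
    rw [h5]
    refine h3.trans (hx2.trans ?_)
    have h6 : (2 : ℝ) ≤ N (k + 1) := by exact_mod_cast (by omega : 2 ≤ N (k + 1))
    have h7 : ((N (k + 1) - 1 : ℕ) : ℝ) = N (k + 1) - 1 := by
      rw [Nat.cast_sub (by omega)]; simp
    apply Real.rpow_le_rpow_of_nonpos
    · rw [hQ]
      beta_reduce
      linarith
    · rw [hQ, h7]
      beta_reduce
      linarith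
    · linarith
  obtain ⟨ℓ, hℓ⟩ : ∃ ℓ : ℕ → ℝ, ℓ = fun k => Real.log (Q k) := ⟨_, rfl⟩
  have hℓ0 : ∀ k, 0 ≤ ℓ k := fun k => by rw [hℓ]; exact Real.log_nonneg (hQ1 k)
  have hlogD : ∀ k, X0 + 1 ≤ k → Real.log (D k) ≤ -w * (ℓ (k + 1) - Real.log 2) := by
    intro k hk
    have h2 := Real.log_le_log (hD0 k) (hup k hk)
    have h3 : 0 < Q (k + 1) / 2 := by linarith [hQ0 (k + 1)]
    rw [Real.log_rpow h3, Real.log_div (hQ0 _).ne' two_ne_zero] at h2
    rw [hℓ]
    exact h2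
  -- `Q (k + 1) * D k` tends to zero
  have hQD : ∀ ε : ℝ, 0 < ε → ∃ K0, ∀ k, K0 ≤ k → Q (k + 1) * D k < ε := by
    intro ε hε
    obtain ⟨K1, hK1⟩ := exists_nat_gt (Real.exp ((w * Real.log 2 - Real.log ε) / (w - 1)))
    refine ⟨max (X0 + 1) K1, fun k hk => ?_⟩
    have h2 := hlogD k ((le_max_left _ _).trans hk)
    have h3 : Real.log (Q (k + 1) * D k) < Real.log ε := by
      rw [Real.log_mul (hQ0 _).ne' (hD0 _).ne']
      have h4 : (K1 : ℝ) ≤ Q (k + 1) := by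
        rw [hQv]
        exact_mod_cast ((le_max_right (X0 + 1) K1).trans (hk.trans ((Nat.le_succ k).trans (hNk (k + 1)))))
      have h5 : (w * Real.log 2 - Real.log ε) / (w - 1) < ℓ (k + 1) := by
        rw [hℓ, Real.lt_log_iff_exp_lt (hQ0 _)]
        exact hK1.trans_le h4
      rw [div_lt_iff₀ (by linarith)] at h5
      have h6 : Real.log (Q (k + 1)) = ℓ (k + 1) := by rw [hℓ]
      rw [h6]
      linarith
    exact (Real.log_lt_log_iff (mul_pos (hQ0 _) (hD0 _)) hε).1 h3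
  -- consecutive points are independent
  have hprop : ∀ k, ∀ m m' : ℤ, (m ≠ 0 ∨ m' ≠ 0) → (∀ i, m' * y k i = m * y (k + 1) i) → False := by
    intro k m m' hmm h
    have h0 : |(m' : ℝ)| * D k = |(m : ℝ)| * D (k + 1) := by
      rw [← hDf, ← hDf, ← abs_mul, ← abs_mul]
      congr 1
      have e0 : (m' : ℝ) * y k 0 = m * y (k + 1) 0 := by exact_mod_cast h 0
      have e1 : (m' : ℝ) * y k 1 = m * y (k + 1) 1 := by exact_mod_cast h 1
      have e2 : (m' : ℝ) * y k 2 = m * y (k + 1) 2 := by exact_mod_cast h 2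
      linear_combination e0 + ξ * e1 + t * e2
    have h1 : m'.natAbs * N k = m.natAbs * N (k + 1) := by
      rw [hN]
      unfold ht
      simp only [← Nat.mul_max_mul_left, ← Int.natAbs_mul, h 0, h 1, h 2]
    have hm : m ≠ 0 := by
      intro hm
      rw [hm] at h1
      simp only [Int.natAbs_zero, zero_mul, mul_eq_zero, Int.natAbs_eq_zero] at h1
      rcases h1 with h1 | h1
      · rcases hmm with h2 | h2
        · exact h2 hm
        · exact h2 h1
      · have := hN1 k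
        omega
    have h2 : m.natAbs < m'.natAbs := by
      by_contra hcon2
      push Not at hcon2
      have h3 : m'.natAbs * N k < m.natAbs * N (k + 1) :=
        Nat.mul_lt_mul_of_le_of_lt hcon2 (hNs (Nat.lt_succ_self k)) (Int.natAbs_pos.mpr hm)
      omega
    have h3 : |(m : ℝ)| < |(m' : ℝ)| := by
      rw [← Int.cast_abs, ← Int.cast_abs, Int.abs_eq_natAbs, Int.abs_eq_natAbs]
      exact_mod_cast h2
    have h4 : |(m : ℝ)| * D (k + 1) < |(m' : ℝ)| * D k :=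
      mul_lt_mul'' h3 (hDm k) (abs_nonneg _) (hD0 _).le
    linarith
  have hind : ∀ k, cr (y k) (y (k + 1)) ≠ 0 := by
    intro k hcon2
    have c0 : cr (y k) (y (k + 1)) 0 = 0 := by rw [hcon2]; rfl
    have c1 : cr (y k) (y (k + 1)) 1 = 0 := by rw [hcon2]; rfl
    have c2 : cr (y k) (y (k + 1)) 2 = 0 := by rw [hcon2]; rfl
    rw [cr_zero] at c0
    rw [cr_one] at c1
    rw [cr_two] at c2
    rcases vec_ne_zero (hyne k) with h | h | h
    · refine hprop k (y k 0) (y (k + 1) 0) (Or.inl h) fun i => ?_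
      fin_cases i
      · exact mul_comm _ _
      · show y (k + 1) 0 * y k 1 = y k 0 * y (k + 1) 1
        linarith
      · show y (k + 1) 0 * y k 2 = y k 0 * y (k + 1) 2
        linarith
    · refine hprop k (y k 1) (y (k + 1) 1) (Or.inl h) fun i => ?_
      fin_cases i
      · show y (k + 1) 1 * y k 0 = y k 1 * y (k + 1) 0
        linarith
      · exact mul_comm _ _
      · show y (k + 1) 1 * y k 2 = y k 1 * y (k + 1) 2
        linarith
    · refine hprop k (y k 2) (y (k + 1) 2) (Or.inl h) fun i => ?_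
      fin_cases i
      · show y (k + 1) 2 * y k 0 = y k 2 * y (k + 1) 0
        linarith
      · show y (k + 1) 2 * y k 1 = y k 2 * y (k + 1) 1
        linarith
      · exact mul_comm _ _
  by_cases hcase : ∃ K, ∀ k, K ≤ k → dot (cr (y k) (y (k + 1))) (y (k + 2)) = 0
  · -- all points in a plane: impossible
    obtain ⟨K, hK⟩ := hcase
    have h2 := plane y K hind hK
    obtain ⟨v, hv⟩ : ∃ v, v = cr (y K) (y (K + 1)) := ⟨_, rfl⟩
    rw [← hv] at h2
    have hv0 : v ≠ 0 := by rw [hv]; exact hind K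
    -- the components of the product of `(1, ξ, t)` and `cr (y k) (y (k + 1))`
    have hsmall : ∀ k, |((cr (y k) (y (k + 1)) 1 : ℤ) : ℝ) - ξ * (cr (y k) (y (k + 1)) 0 : ℤ)| ≤
        2 * (Q (k + 1) * D k) ∧
        |t * ((cr (y k) (y (k + 1)) 0 : ℤ) : ℝ) - (cr (y k) (y (k + 1)) 2 : ℤ)| ≤
        2 * (Q (k + 1) * D k) := by
      intro k
      obtain ⟨g, hg⟩ : ∃ g : ℕ → ℝ, g = fun k => (y k 0 : ℝ) + y k 1 * ξ + y k 2 * t := ⟨_, rfl⟩
      have hgD : ∀ k, |g k| = D k := fun k => by rw [hg]; exact hDf k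
      have hb : ∀ i : Fin 3, |(y k i : ℝ)| ≤ Q k ∧ |(y (k + 1) i : ℝ)| ≤ Q (k + 1) := by
        intro i
        fin_cases i
        · exact ⟨(hyQ k).1, (hyQ (k + 1)).1⟩
        · exact ⟨(hyQ k).2.1, (hyQ (k + 1)).2.1⟩
        · exact ⟨(hyQ k).2.2, (hyQ (k + 1)).2.2⟩
      have hest : ∀ i : Fin 3, |(y k i : ℝ) * g (k + 1) - y (k + 1) i * g k| ≤
          2 * (Q (k + 1) * D k) := by
        intro i
        calc |(y k i : ℝ) * g (k + 1) - y (k + 1) i * g k| ≤
            |(y k i : ℝ) * g (k + 1)| + |(y (k + 1) i : ℝ) * g k| := abs_sub _ _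
          _ = |(y k i : ℝ)| * D (k + 1) + |(y (k + 1) i : ℝ)| * D k := by
              rw [abs_mul, abs_mul, hgD, hgD]
          _ ≤ Q (k + 1) * D k + Q (k + 1) * D k :=
              add_le_add (mul_le_mul ((hb i).1.trans (hQm k).le) (hDm k).le (hD0 _).le (hQ0 _).le)
                (mul_le_mul_of_nonneg_right (hb i).2 (hD0 _).le)
          _ = _ := by ring
      constructor
      · refine le_trans (le_of_eq ?_) (hest 2)
        congr 1
        rw [cr_zero, cr_one, hg]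
        push_cast
        ring
      · refine le_trans (le_of_eq ?_) (hest 1)
        congr 1
        rw [cr_zero, cr_two, hg]
        push_cast
        ring
    -- `v 1 - ξ v 0` is not zero
    have hv1 : v 0 ≠ 0 ∨ v 1 ≠ 0 ∨ v 2 ≠ 0 := vec_ne_zero hv0
    obtain ⟨K2, hK2⟩ := hQD (1 / 2) (by norm_num)
    obtain ⟨k1, hk1⟩ : ∃ k1, k1 = max K K2 := ⟨_, rfl⟩
    have hCne : ∀ k, k1 ≤ k → cr (y k) (y (k + 1)) 0 ≠ 0 := by
      intro k hk h0
      obtain ⟨h3, h4⟩ := hsmall k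
      have h5 := hK2 k (by rw [hk1] at hk; exact (le_max_right _ _).trans hk)
      rw [h0] at h3 h4
      push_cast at h3 h4
      rw [mul_zero, sub_zero] at h3
      rw [mul_zero, zero_sub, abs_neg] at h4
      have h6 : |((cr (y k) (y (k + 1)) 1 : ℤ) : ℝ)| < 1 := by linarith
      have h7 : |((cr (y k) (y (k + 1)) 2 : ℤ) : ℝ)| < 1 := by linarith
      have h8 : cr (y k) (y (k + 1)) 1 = 0 := by
        rw [← Int.cast_abs] at h6
        have : |cr (y k) (y (k + 1)) 1| < 1 := by exact_mod_cast h6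
        exact Int.abs_lt_one_iff.1 this
      have h9 : cr (y k) (y (k + 1)) 2 = 0 := by
        rw [← Int.cast_abs] at h7
        have : |cr (y k) (y (k + 1)) 2| < 1 := by exact_mod_cast h7
        exact Int.abs_lt_one_iff.1 this
      rcases vec_ne_zero (hind k) with h | h | h
      · exact h h0
      · exact h h8
      · exact h h9
    have hpar : ∀ k, k1 ≤ k → v 1 * cr (y k) (y (k + 1)) 2 = v 2 * cr (y k) (y (k + 1)) 1 ∧
        v 2 * cr (y k) (y (k + 1)) 0 = v 0 * cr (y k) (y (k + 1)) 2 ∧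
        v 0 * cr (y k) (y (k + 1)) 1 = v 1 * cr (y k) (y (k + 1)) 0 := by
      intro k hk
      have hkK : K ≤ k := by rw [hk1] at hk; exact (le_max_left _ _).trans hk
      exact parallel v _ _ (h2 k hkK) (h2 (k + 1) (by omega))
    have hv00 : v 0 ≠ 0 := by
      intro h0
      obtain ⟨p1, p2, p3⟩ := hpar k1 le_rfl
      have hC := hCne k1 le_rfl
      rw [h0, zero_mul] at p2 p3
      rcases hv1 with h | h | h
      · exact h h0
      · exact (mul_ne_zero h hC) p3.symm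
      · exact (mul_ne_zero h hC) p2
    have hne : (v 1 : ℝ) - ξ * v 0 ≠ 0 := by
      have h3 := hξ.ne_zero (-(v 1)) (v 0) (Or.inr hv00)
      intro h4
      apply h3
      push_cast
      linarith
    have h3 : 0 < |(v 1 : ℝ) - ξ * v 0| := abs_pos.mpr hne
    have hv0R : 0 < |(v 0 : ℝ)| := abs_pos.mpr (by exact_mod_cast hv00)
    obtain ⟨K3, hK3⟩ := hQD (|(v 1 : ℝ) - ξ * v 0| / (2 * |(v 0 : ℝ)|)) (by positivity)
    obtain ⟨k, hk⟩ : ∃ k, k = max k1 K3 := ⟨_, rfl⟩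
    have hkk1 : k1 ≤ k := by rw [hk]; exact le_max_left _ _
    have h4 := hK3 k (by rw [hk]; exact le_max_right _ _)
    obtain ⟨_, _, p3⟩ := hpar k hkk1
    obtain ⟨h5, _⟩ := hsmall k
    have hC := hCne k hkk1
    obtain ⟨C0, hC0⟩ : ∃ C0 : ℤ, C0 = cr (y k) (y (k + 1)) 0 := ⟨_, rfl⟩
    obtain ⟨C1, hC1⟩ : ∃ C1 : ℤ, C1 = cr (y k) (y (k + 1)) 1 := ⟨_, rfl⟩
    rw [← hC0, ← hC1] at p3 h5
    rw [← hC0] at hC
    have p3R : (v 0 : ℝ) * C1 = v 1 * C0 := by exact_mod_cast p3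
    have h6 : |(v 0 : ℝ)| * |(C1 : ℝ) - ξ * C0| = |(C0 : ℝ)| * |(v 1 : ℝ) - ξ * v 0| := by
      rw [← abs_mul, ← abs_mul]
      congr 1
      linear_combination p3R
    have h7 : (1 : ℝ) ≤ |(C0 : ℝ)| := by
      rw [← Int.cast_abs]
      exact_mod_cast Int.one_le_abs hC
    have h8 : |(v 0 : ℝ)| * |(C1 : ℝ) - ξ * C0| < |(v 1 : ℝ) - ξ * v 0| := by
      have h9 : |(C1 : ℝ) - ξ * C0| < 2 * (|(v 1 : ℝ) - ξ * v 0| / (2 * |(v 0 : ℝ)|)) := by
        linarith
      calc |(v 0 : ℝ)| * |(C1 : ℝ) - ξ * C0| <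
          |(v 0 : ℝ)| * (2 * (|(v 1 : ℝ) - ξ * v 0| / (2 * |(v 0 : ℝ)|))) :=
            mul_lt_mul_of_pos_left h9 hv0R
        _ = |(v 1 : ℝ) - ξ * v 0| := by field_simp
    rw [h6] at h8
    nlinarith
  · -- infinitely many independent triples
    push Not at hcase
    obtain ⟨η, hη⟩ : ∃ η : ℝ, η = (w ^ 2 - 3 * w + 1) / (2 * w) := ⟨_, rfl⟩
    have hw0 : 0 < w := by linarith
    have hη0 : 0 < η := by rw [hη]; positivity
    have hη1 : w * η = (w ^ 2 - 3 * w + 1) / 2 := by rw [hη]; field_simp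
    obtain ⟨c, hc, hm⟩ := hξ η hη0
    -- elimination
    obtain ⟨C2, hC2⟩ : ∃ C2 : ℝ, C2 = (2 + η + w) * Real.log 2 + |Real.log c| := ⟨_, rfl⟩
    have hlog2 : 0 < Real.log 2 := Real.log_pos (by norm_num)
    have helim : ∀ k, X0 + 1 ≤ k → (w - 2 - η) * ℓ (k + 1) ≤ (1 + η) * ℓ k + C2 := by
      intro k hk
      have h2 := hlogD k hk
      by_cases hck : y k 2 = 0
      · have h3 := hm (y k 0) (y k 1) (by
          rcases vec_ne_zero (hyne k) with h | h | h
          · exact Or.inl h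
          · exact Or.inr h
          · exact absurd hck h) (Q k) (hQ1 k) (hyQ k).1 (hyQ k).2.1
        have h4 : |(y k 0 : ℝ) + y k 1 * ξ| = D k := by
          rw [← hDf, hck]
          push_cast
          rw [zero_mul, add_zero]
        rw [h4] at h3
        have h5 := Real.log_le_log hc h3
        rw [Real.log_mul (Real.rpow_pos_of_pos (hQ0 k) _).ne' (hD0 k).ne',
          Real.log_rpow (hQ0 k)] at h5
        have h6 : Real.log (Q k) = ℓ k := by rw [hℓ]
        rw [h6] at h5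
        have h7 := neg_abs_le (Real.log c)
        have h8 := hℓ0 (k + 1)
        have h9 : (w - 2 - η) * ℓ (k + 1) ≤ w * ℓ (k + 1) :=
          mul_le_mul_of_nonneg_right (by linarith) h8
        have h10 : w * Real.log 2 ≤ (2 + η + w) * Real.log 2 :=
          mul_le_mul_of_nonneg_right (by linarith) hlog2.le
        rw [hC2]
        linarith
      · obtain ⟨A, hA⟩ : ∃ A : ℤ, A = y (k + 1) 2 * y k 0 - y k 2 * y (k + 1) 0 := ⟨_, rfl⟩
        obtain ⟨B, hB⟩ : ∃ B : ℤ, B = y (k + 1) 2 * y k 1 - y k 2 * y (k + 1) 1 := ⟨_, rfl⟩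
        have hAB : A ≠ 0 ∨ B ≠ 0 := by
          by_contra hcon2
          push Not at hcon2
          rw [hA, hB] at hcon2
          refine hprop k (y k 2) (y (k + 1) 2) (Or.inl hck) fun i => ?_
          fin_cases i
          · show y (k + 1) 2 * y k 0 = y k 2 * y (k + 1) 0
            linarith [hcon2.1]
          · show y (k + 1) 2 * y k 1 = y k 2 * y (k + 1) 1
            linarith [hcon2.2]
          · exact mul_comm _ _
        obtain ⟨h3a, h3b, h3c⟩ := hyQ k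
        obtain ⟨h4a, h4b, h4c⟩ := hyQ (k + 1)
        have hH1 : 1 ≤ 2 * (Q k * Q (k + 1)) := by
          have := mul_le_mul (hQ1 k) (hQ1 (k + 1)) zero_le_one (by linarith [hQ1 k])
          linarith
        have hH0 : 0 < 2 * (Q k * Q (k + 1)) := by linarith
        have hbd : ∀ a b a' b' : ℝ, |a| ≤ Q (k + 1) → |b| ≤ Q k → |a'| ≤ Q k → |b'| ≤ Q (k + 1) →
            |a * b - a' * b'| ≤ 2 * (Q k * Q (k + 1)) := by
          intro a b a' b' ha hb ha' hb'
          calc |a * b - a' * b'| ≤ |a * b| + |a' * b'| := abs_sub _ _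
            _ = |a| * |b| + |a'| * |b'| := by rw [abs_mul, abs_mul]
            _ ≤ Q (k + 1) * Q k + Q k * Q (k + 1) :=
                add_le_add (mul_le_mul ha hb (abs_nonneg _) (hQ0 _).le)
                  (mul_le_mul ha' hb' (abs_nonneg _) (hQ0 _).le)
            _ = _ := by ring
        have h5 := hm A B hAB (2 * (Q k * Q (k + 1))) hH1
          (by rw [hA]; push_cast; exact hbd _ _ _ _ h4c h3a h3c h4a)
          (by rw [hB]; push_cast; exact hbd _ _ _ _ h4c h3b h3c h4b)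
        have h6 : |(A : ℝ) + B * ξ| ≤ 2 * (Q (k + 1) * D k) := by
          have e1 : (A : ℝ) + B * ξ = (y (k + 1) 2 : ℝ) * ((y k 0 : ℝ) + y k 1 * ξ + y k 2 * t) -
              y k 2 * ((y (k + 1) 0 : ℝ) + y (k + 1) 1 * ξ + y (k + 1) 2 * t) := by
            rw [hA, hB]
            push_cast
            ring
          rw [e1]
          calc |(y (k + 1) 2 : ℝ) * ((y k 0 : ℝ) + y k 1 * ξ + y k 2 * t) -
              y k 2 * ((y (k + 1) 0 : ℝ) + y (k + 1) 1 * ξ + y (k + 1) 2 * t)| ≤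
              |(y (k + 1) 2 : ℝ) * ((y k 0 : ℝ) + y k 1 * ξ + y k 2 * t)| +
              |(y k 2 : ℝ) * ((y (k + 1) 0 : ℝ) + y (k + 1) 1 * ξ + y (k + 1) 2 * t)| :=
                abs_sub _ _
            _ = |(y (k + 1) 2 : ℝ)| * D k + |(y k 2 : ℝ)| * D (k + 1) := by
                rw [abs_mul, abs_mul, hDf, hDf]
            _ ≤ Q (k + 1) * D k + Q (k + 1) * D k :=
                add_le_add (mul_le_mul_of_nonneg_right h4c (hD0 _).le)
                  (mul_le_mul (h3c.trans (hQm k).le) (hDm k).le (hD0 _).le (hQ0 _).le)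
            _ = _ := by ring
        have h7 : c ≤ (2 * (Q k * Q (k + 1))) ^ (1 + η) * (2 * (Q (k + 1) * D k)) :=
          h5.trans (mul_le_mul_of_nonneg_left h6 (Real.rpow_nonneg hH0.le _))
        have h8 := Real.log_le_log hc h7
        rw [Real.log_mul (Real.rpow_pos_of_pos hH0 _).ne'
          (mul_pos two_pos (mul_pos (hQ0 _) (hD0 _))).ne', Real.log_rpow hH0,
          Real.log_mul two_ne_zero (mul_pos (hQ0 _) (hQ0 _)).ne',
          Real.log_mul (hQ0 _).ne' (hQ0 _).ne',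
          Real.log_mul two_ne_zero (mul_pos (hQ0 _) (hD0 _)).ne',
          Real.log_mul (hQ0 _).ne' (hD0 _).ne'] at h8
        have h9 : Real.log (Q k) = ℓ k := by rw [hℓ]
        have h10 : Real.log (Q (k + 1)) = ℓ (k + 1) := by rw [hℓ]
        rw [h9, h10] at h8
        have h11 := neg_abs_le (Real.log c)
        rw [hC2]
        nlinarith
    obtain ⟨C1, hC1⟩ : ∃ C1 : ℝ, C1 = Real.log 6 + w * Real.log 2 := ⟨_, rfl⟩
    have hmain : ∀ K, ∃ k, K ≤ k ∧ ((w - 1) * (w - 2 - η) - (1 + η)) * ℓ (k + 1) ≤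
        C2 + (w - 2 - η) * C1 := by
      intro K
      obtain ⟨k, hk, hdet⟩ := hcase (max K (X0 + 1))
      have hkX : X0 + 1 ≤ k := (le_max_right _ _).trans hk
      refine ⟨k, (le_max_left _ _).trans hk, ?_⟩
      obtain ⟨g, hg⟩ : ∃ g : ℕ → ℝ, g = fun k => (y k 0 : ℝ) + y k 1 * ξ + y k 2 * t := ⟨_, rfl⟩
      have hgD : ∀ k, |g k| = D k := fun k => by rw [hg]; exact hDf k
      have hdR : ((dot (cr (y k) (y (k + 1))) (y (k + 2)) : ℤ) : ℝ) =
          g k * ((y (k + 1) 1 : ℝ) * y (k + 2) 2 - y (k + 2) 1 * y (k + 1) 2) +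
          g (k + 1) * ((y (k + 2) 1 : ℝ) * y k 2 - y k 1 * y (k + 2) 2) +
          g (k + 2) * ((y k 1 : ℝ) * y (k + 1) 2 - y (k + 1) 1 * y k 2) := by
        unfold dot
        rw [cr_zero, cr_one, cr_two, hg]
        push_cast
        ring
      have hd1 : (1 : ℝ) ≤ |((dot (cr (y k) (y (k + 1))) (y (k + 2)) : ℤ) : ℝ)| := by
        rw [← Int.cast_abs]
        exact_mod_cast Int.one_le_abs hdet
      have hYY : ∀ i j, |(y i 1 : ℝ) * y j 2 - y j 1 * y i 2| ≤ 2 * (Q i * Q j) := by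
        intro i j
        calc |(y i 1 : ℝ) * y j 2 - y j 1 * y i 2| ≤ |(y i 1 : ℝ) * y j 2| + |(y j 1 : ℝ) * y i 2| :=
              abs_sub _ _
          _ = |(y i 1 : ℝ)| * |(y j 2 : ℝ)| + |(y j 1 : ℝ)| * |(y i 2 : ℝ)| := by
              rw [abs_mul, abs_mul]
          _ ≤ Q i * Q j + Q j * Q i :=
              add_le_add (mul_le_mul (hyQ i).2.1 (hyQ j).2.2 (abs_nonneg _) (hQ0 _).le)
                (mul_le_mul (hyQ j).2.1 (hyQ i).2.2 (abs_nonneg _) (hQ0 _).le)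
          _ = _ := by ring
      have q1 := hQm k
      have q2 := hQm (k + 1)
      have d1 := hDm k
      have d2 := hDm (k + 1)
      have hbd : |((dot (cr (y k) (y (k + 1))) (y (k + 2)) : ℤ) : ℝ)| ≤
          6 * (Q (k + 1) * (Q (k + 2) * D k)) := by
        rw [hdR]
        have a1 : |g k * ((y (k + 1) 1 : ℝ) * y (k + 2) 2 - y (k + 2) 1 * y (k + 1) 2)| ≤
            2 * (Q (k + 1) * (Q (k + 2) * D k)) := by
          rw [abs_mul, hgD]
          calc D k * |(y (k + 1) 1 : ℝ) * y (k + 2) 2 - y (k + 2) 1 * y (k + 1) 2| ≤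
              D k * (2 * (Q (k + 1) * Q (k + 2))) :=
                mul_le_mul_of_nonneg_left (hYY _ _) (hD0 _).le
            _ = _ := by ring
        have a2 : |g (k + 1) * ((y (k + 2) 1 : ℝ) * y k 2 - y k 1 * y (k + 2) 2)| ≤
            2 * (Q (k + 1) * (Q (k + 2) * D k)) := by
          rw [abs_mul, hgD]
          calc D (k + 1) * |(y (k + 2) 1 : ℝ) * y k 2 - y k 1 * y (k + 2) 2| ≤
              D k * (2 * (Q (k + 2) * Q k)) :=
                mul_le_mul d1.le (hYY _ _) (abs_nonneg _) (hD0 _).le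
            _ ≤ D k * (2 * (Q (k + 2) * Q (k + 1))) := by
                refine mul_le_mul_of_nonneg_left ?_ (hD0 _).le
                refine mul_le_mul_of_nonneg_left ?_ (by norm_num)
                exact mul_le_mul_of_nonneg_left q1.le (hQ0 _).le
            _ = _ := by ring
        have a3 : |g (k + 2) * ((y k 1 : ℝ) * y (k + 1) 2 - y (k + 1) 1 * y k 2)| ≤
            2 * (Q (k + 1) * (Q (k + 2) * D k)) := by
          rw [abs_mul, hgD]
          calc D (k + 2) * |(y k 1 : ℝ) * y (k + 1) 2 - y (k + 1) 1 * y k 2| ≤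
              D k * (2 * (Q k * Q (k + 1))) :=
                mul_le_mul (d2.trans d1).le (hYY _ _) (abs_nonneg _) (hD0 _).le
            _ ≤ D k * (2 * (Q (k + 2) * Q (k + 1))) := by
                refine mul_le_mul_of_nonneg_left ?_ (hD0 _).le
                refine mul_le_mul_of_nonneg_left ?_ (by norm_num)
                exact mul_le_mul_of_nonneg_right (q1.trans q2).le (hQ0 _).le
            _ = _ := by ring
        have b1 := abs_add_le (g k * ((y (k + 1) 1 : ℝ) * y (k + 2) 2 - y (k + 2) 1 * y (k + 1) 2) +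
          g (k + 1) * ((y (k + 2) 1 : ℝ) * y k 2 - y k 1 * y (k + 2) 2))
          (g (k + 2) * ((y k 1 : ℝ) * y (k + 1) 2 - y (k + 1) 1 * y k 2))
        have b2 := abs_add_le (g k * ((y (k + 1) 1 : ℝ) * y (k + 2) 2 - y (k + 2) 1 * y (k + 1) 2))
          (g (k + 1) * ((y (k + 2) 1 : ℝ) * y k 2 - y k 1 * y (k + 2) 2))
        linarith
      have h2 := Real.log_le_log one_pos (hd1.trans hbd)
      rw [Real.log_one, Real.log_mul (by norm_num) (mul_pos (hQ0 _) (mul_pos (hQ0 _) (hD0 _))).ne',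
        Real.log_mul (hQ0 _).ne' (mul_pos (hQ0 _) (hD0 _)).ne',
        Real.log_mul (hQ0 _).ne' (hD0 _).ne'] at h2
      have h3 := hlogD k hkX
      have h4 := helim (k + 1) (by omega)
      have hℓ1 : Real.log (Q (k + 1)) = ℓ (k + 1) := by rw [hℓ]
      have hℓ2 : Real.log (Q (k + 2)) = ℓ (k + 2) := by rw [hℓ]
      rw [hℓ1, hℓ2] at h2
      rw [show k + 1 + 1 = k + 2 by ring] at h4
      have i1 : (w - 1) * ℓ (k + 1) ≤ 1 * ℓ (k + 2) + C1 := by rw [hC1]; linarith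
      have hwη : 0 ≤ w - 2 - η := by
        have h5 : w * (w - 2 - η) = (w ^ 2 - w - 1) / 2 := by
          have : w * (w - 2 - η) = w ^ 2 - 2 * w - w * η := by ring
          rw [this, hη1]
          ring
        have h6 : 0 ≤ w * (w - 2 - η) := by rw [h5]; nlinarith
        exact nonneg_of_mul_nonneg_right h6 hw0
      have h6 := bounded_of (ℓ (k + 1)) (ℓ (k + 2)) (w - 1) 1 (w - 2 - η) (1 + η) C1 C2 hwη
        i1 h4 zero_le_one
      refine le_trans (le_of_eq ?_) (h6.trans (le_of_eq ?_))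
      · ring
      · ring
    have hδ : 0 < (w - 1) * (w - 2 - η) - (1 + η) := by
      have : (w - 1) * (w - 2 - η) - (1 + η) = (w ^ 2 - 3 * w + 1) - w * η := by ring
      rw [this, hη1]
      linarith
    obtain ⟨K, hK⟩ := exists_nat_gt (Real.exp ((C2 + (w - 2 - η) * C1) /
      ((w - 1) * (w - 2 - η) - (1 + η))))
    obtain ⟨k, hk, hk2⟩ := hmain K
    have h2 : (C2 + (w - 2 - η) * C1) / ((w - 1) * (w - 2 - η) - (1 + η)) < ℓ (k + 1) := by
      rw [hℓ]
      have h3 : (K : ℝ) ≤ Q (k + 1) := by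
        rw [hQv]
        exact_mod_cast (hk.trans ((Nat.le_succ k).trans (hNk (k + 1))))
      have h4 := hK.trans_le h3
      rw [Real.lt_log_iff_exp_lt (hQ0 _)]
      exact h4
    rw [div_lt_iff₀ hδ] at h2
    linarith

end Pool.Agent.R523.Form
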