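import Mathlib

/-!
# Kronecker substitution and the Mahler measure of integer polynomials in two variables
-/

set_option autoImplicit false

namespace Pool.Agent.R523.Gel

open Polynomial Finset

/-- the substitution of `X ^ N` for the outer variable -/
noncomputable def K (N : ℕ) : ℤ[X][X] →+* ℤ[X] := evalRingHom (X ^ N : ℤ[X])

lemma K_apply (N : ℕ) (P : ℤ[X][X]) (n : ℕ) (hn : P.natDegree ≤ n) :
    K N P = ∑ j ∈ range (n + 1), P.coeff j * X ^ (N * j) := by
  unfold K
  rw [coe_evalRingHom, eval_eq_sum_range' (show P.natDegree < n + 1 by omega)]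
  refine Finset.sum_congr rfl fun j _ => ?_
  rw [← pow_mul]

lemma K_coeff (m : ℕ) (P : ℤ[X][X]) (hP : ∀ j, (P.coeff j).natDegree ≤ m) (i j : ℕ) (hi : i ≤ m) :
    (K (m + 1) P).coeff (i + (m + 1) * j) = (P.coeff j).coeff i := by
  rw [K_apply (m + 1) P (P.natDegree + j) (by omega), finsetSum_coeff, Finset.sum_eq_single j]
  · rw [coeff_mul_X_pow]
  · intro l _ hlj
    rw [coeff_mul_X_pow']
    split_ifs with h
    · apply coeff_eq_zero_of_natDegree_lt
      have h1 : l < j := by
        rcases Nat.lt_or_ge j l with h2 | h2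
        · exfalso
          have h3 : (m + 1) * (j + 1) ≤ (m + 1) * l := Nat.mul_le_mul_left _ h2
          rw [mul_add, mul_one] at h3
          omega
        · omega
      have h3 : (m + 1) * (l + 1) ≤ (m + 1) * j := Nat.mul_le_mul_left _ h1
      rw [mul_add, mul_one] at h3
      have := hP l
      omega
    · rfl
  · intro h
    rw [mem_range] at h
    omega

lemma K_natDegree (m n : ℕ) (P : ℤ[X][X]) (hP : ∀ j, (P.coeff j).natDegree ≤ m)
    (hn : P.natDegree ≤ n) : (K (m + 1) P).natDegree ≤ m + (m + 1) * n := by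
  rw [K_apply (m + 1) P n hn]
  refine natDegree_sum_le_of_forall_le _ _ fun j hj => ?_
  rw [mem_range] at hj
  refine natDegree_mul_le.trans ?_
  rw [natDegree_X_pow]
  have h1 := hP j
  have h2 : (m + 1) * j ≤ (m + 1) * n := Nat.mul_le_mul_left _ (by omega)
  omega

/-- the degree in the inner variable -/
noncomputable def xd (P : ℤ[X][X]) : ℕ := (Bivariate.swap P).natDegree

lemma coeff_swap (P : ℤ[X][X]) (i j : ℕ) :
    ((Bivariate.swap P).coeff i).coeff j = (P.coeff j).coeff i := by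
  induction P using Polynomial.induction_on' with
  | add p q hp hq => rw [map_add, coeff_add, coeff_add, coeff_add, coeff_add, hp, hq]
  | monomial k a =>
    induction a using Polynomial.induction_on' with
    | add p q hp hq =>
      rw [map_add, map_add, coeff_add, coeff_add, coeff_add, coeff_add, hp, hq]
    | monomial l b =>
      rw [Bivariate.swap_monomial_monomial]
      by_cases hk : k = j <;> by_cases hl : l = i <;> simp [coeff_monomial, hk, hl]

lemma coeff_le_xd (P : ℤ[X][X]) (j : ℕ) : (P.coeff j).natDegree ≤ xd P := by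
  refine natDegree_le_iff_coeff_eq_zero.2 fun i hi => ?_
  rw [← coeff_swap, coeff_eq_zero_of_natDegree_lt (show (Bivariate.swap P).natDegree < i from hi),
    coeff_zero]

lemma xd_le (P : ℤ[X][X]) (m : ℕ) (h : ∀ j, (P.coeff j).natDegree ≤ m) : xd P ≤ m := by
  refine natDegree_le_iff_coeff_eq_zero.2 fun i hi => ?_
  ext j
  rw [coeff_swap, coeff_eq_zero_of_natDegree_lt (lt_of_le_of_lt (h j) hi), coeff_zero]

lemma xd_mul (P Q : ℤ[X][X]) (hP : P ≠ 0) (hQ : Q ≠ 0) : xd (P * Q) = xd P + xd Q := by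
  unfold xd
  rw [map_mul, natDegree_mul]
  · exact (map_ne_zero_iff _ Bivariate.swap.injective).2 hP
  · exact (map_ne_zero_iff _ Bivariate.swap.injective).2 hQ

/-- the Mahler measure after the substitution -/
noncomputable def MM (m : ℕ) (P : ℤ[X][X]) : ℝ :=
  ((K (m + 1) P).map (Int.castRingHom ℂ)).mahlerMeasure

lemma MM_mul (m : ℕ) (P Q : ℤ[X][X]) : MM m (P * Q) = MM m P * MM m Q := by
  unfold MM
  rw [map_mul, Polynomial.map_mul, mahlerMeasure_mul]

lemma MM_nonneg (m : ℕ) (P : ℤ[X][X]) : 0 ≤ MM m P := mahlerMeasure_nonneg _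

lemma K_ne (m : ℕ) (P : ℤ[X][X]) (hP : P ≠ 0) (h : xd P ≤ m) : K (m + 1) P ≠ 0 := by
  intro h0
  apply hP
  ext j i
  rw [coeff_zero, coeff_zero]
  by_cases hi : i ≤ m
  · rw [← K_coeff m P (fun j => (coeff_le_xd P j).trans h) i j hi, h0, coeff_zero]
  · exact coeff_eq_zero_of_natDegree_lt (lt_of_le_of_lt ((coeff_le_xd P j).trans h) (by omega))

lemma one_le_MM (m : ℕ) (P : ℤ[X][X]) (hP : P ≠ 0) (h : xd P ≤ m) : 1 ≤ MM m P :=
  one_le_mahlerMeasure_of_ne_zero (K_ne m P hP h)

lemma coeff_le_MM (m n : ℕ) (P : ℤ[X][X]) (h : xd P ≤ m) (hn : P.natDegree ≤ n) (j i : ℕ) :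
    |(((P.coeff j).coeff i : ℤ) : ℝ)| ≤ 2 ^ (m + (m + 1) * n) * MM m P := by
  by_cases hi : i ≤ m
  · have hP := fun j => (coeff_le_xd P j).trans h
    have h1 := norm_coeff_le_choose_mul_mahlerMeasure (i + (m + 1) * j)
      ((K (m + 1) P).map (Int.castRingHom ℂ))
    rw [coeff_map, K_coeff m P hP i j hi, eq_intCast, Complex.norm_intCast] at h1
    refine h1.trans ?_
    have h2 : ((K (m + 1) P).map (Int.castRingHom ℂ)).natDegree ≤ m + (m + 1) * n :=
      natDegree_map_le.trans (K_natDegree m n P hP hn)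
    have h3 : ((((K (m + 1) P).map (Int.castRingHom ℂ)).natDegree.choose (i + (m + 1) * j) : ℕ) : ℝ)
        ≤ 2 ^ (m + (m + 1) * n) := by
      have h4 : ((K (m + 1) P).map (Int.castRingHom ℂ)).natDegree.choose (i + (m + 1) * j) ≤
          2 ^ (m + (m + 1) * n) :=
        (Nat.choose_le_two_pow _ _).trans (Nat.pow_le_pow_right (by norm_num) h2)
      exact_mod_cast h4
    exact mul_le_mul_of_nonneg_right h3 (MM_nonneg m P)
  · rw [coeff_eq_zero_of_natDegree_lt (lt_of_le_of_lt ((coeff_le_xd P j).trans h) (by omega))]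
    simp only [Int.cast_zero, abs_zero]
    exact mul_nonneg (by positivity) (MM_nonneg m P)

lemma MM_le (m n : ℕ) (P : ℤ[X][X]) (h : xd P ≤ m) (hn : P.natDegree ≤ n) (H : ℝ)
    (hH : ∀ j i, |(((P.coeff j).coeff i : ℤ) : ℝ)| ≤ H) :
    MM m P ≤ ((m + (m + 1) * n + 1 : ℕ) : ℝ) * H := by
  have hP := fun j => (coeff_le_xd P j).trans h
  refine (mahlerMeasure_le_sum_norm_coeff _).trans ?_
  rw [Polynomial.sum_def]
  set F := (K (m + 1) P).map (Int.castRingHom ℂ) with hF
  have h2 : F.natDegree ≤ m + (m + 1) * n := natDegree_map_le.trans (K_natDegree m n P hP hn)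
  have hsub : F.support ⊆ range (m + (m + 1) * n + 1) := fun i hi => by
    rw [mem_range]
    have := le_natDegree_of_mem_supp i hi
    omega
  refine (Finset.sum_le_sum_of_subset_of_nonneg hsub fun _ _ _ => norm_nonneg _).trans ?_
  calc ∑ i ∈ range (m + (m + 1) * n + 1), ‖F.coeff i‖ ≤ ∑ _i ∈ range (m + (m + 1) * n + 1), H := by
        refine Finset.sum_le_sum fun k _ => ?_
        have h3 : k = k % (m + 1) + (m + 1) * (k / (m + 1)) := (Nat.mod_add_div k (m + 1)).symm
        rw [h3, hF, coeff_map, K_coeff m P hP _ _ (Nat.lt_succ_iff.1 (Nat.mod_lt _ (by omega))),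
          eq_intCast, Complex.norm_intCast]
        exact hH _ _
    _ = _ := by rw [Finset.sum_const, card_range, nsmul_eq_mul]

/-- Northcott's property -/
lemma finite_MM (m n : ℕ) (B : ℝ) :
    {P : ℤ[X][X] | xd P ≤ m ∧ P.natDegree ≤ n ∧ MM m P ≤ B}.Finite := by
  refine Set.Finite.of_finite_image (f := K (m + 1)) ?_ ?_
  · refine (finite_mahlerMeasure_le (m + (m + 1) * n) (B.toNNReal)).subset ?_
    rintro _ ⟨P, ⟨h1, h2, h3⟩, rfl⟩
    refine ⟨K_natDegree m n P (fun j => (coeff_le_xd P j).trans h1) h2, ?_⟩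
    have : MM m P ≤ (B.toNNReal : ℝ) := h3.trans (Real.le_coe_toNNReal B)
    exact this
  · rintro P ⟨h1, h2, h3⟩ Q ⟨h4, h5, h6⟩ hPQ
    ext j i
    by_cases hi : i ≤ m
    · rw [← K_coeff m P (fun j => (coeff_le_xd P j).trans h1) i j hi,
        ← K_coeff m Q (fun j => (coeff_le_xd Q j).trans h4) i j hi]
      exact congrArg (fun R => R.coeff (i + (m + 1) * j)) hPQ
    · rw [coeff_eq_zero_of_natDegree_lt (lt_of_le_of_lt ((coeff_le_xd P j).trans h1) (by omega)),
        coeff_eq_zero_of_natDegree_lt (lt_of_le_of_lt ((coeff_le_xd Q j).trans h4) (by omega))]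

end Pool.Agent.R523.Gel
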