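import Pool.Agent.TH456.TM.Meas2
import Pool.Agent.R356.Len

/-!
# Transcendence measures of logarithms of arbitrary algebraic numbers

The construction of `Pool.Agent.TH456.TM` with several embeddings of the ring of coefficients.
-/

set_option autoImplicit false

namespace Pool.Agent.R523.LM

open Polynomial Finset
open Pool.Agent.TH456.TM

variable {m : ℕ} {O : Type} [CommRing O] {Λ : Type}

/-- the integral forms -/
lemma BlK (σ : Λ → (O →+* ℂ)) (s0 : Λ) (θ : ℂ) (a b : O) (W : ℝ) (haW : ∀ s, ‖σ s a‖ ≤ W)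
    (hbW : ∀ s, ‖σ s b‖ ≤ W) (hab : σ s0 b * Complex.exp θ = σ s0 a) (n : ℕ) (l₀ : Fin (m + 1)) :
    ∃ B : O[X], B.natDegree ≤ n ∧
      (∀ s j, ‖σ s (B.coeff j)‖ ≤ (m + 1) * (W ^ m * (n.factorial * (KC m n : ℝ)))) ∧
      ∀ x : ℂ, (B.map (σ s0)).eval x = σ s0 b ^ m * ((n.factorial : ℂ) * ((SC m n : ℚ) : ℂ) *
        ∑ k : Fin (m + 1), aeval x (Ak n l₀ k) * Complex.exp (((k : ℕ) : ℂ) * θ)) := by
  have hW : 0 ≤ W := (norm_nonneg _).trans (haW s0)
  choose P hP1 hP2 hP3 using fun k : Fin (m + 1) => Ak_int (m := m) n l₀ k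
  refine ⟨∑ k : Fin (m + 1), C (a ^ (k : ℕ) * b ^ (m - k)) * (P k).map (Int.castRingHom O), ?_, ?_, ?_⟩
  · refine natDegree_sum_le_of_forall_le _ _ fun k _ => ?_
    exact (natDegree_C_mul_le _ _).trans (natDegree_map_le.trans (hP1 k))
  · intro s j
    rw [finsetSum_coeff, map_sum]
    refine (norm_sum_le _ _).trans ?_
    have h1 : ∀ k ∈ (univ : Finset (Fin (m + 1))),
        ‖σ s ((C (a ^ (k : ℕ) * b ^ (m - k)) * (P k).map (Int.castRingHom O)).coeff j)‖ ≤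
          W ^ m * (n.factorial * (KC m n : ℝ)) := by
      intro k _
      rw [coeff_C_mul, coeff_map, map_mul, map_mul, map_pow, map_pow, norm_mul, norm_mul, norm_pow,
        norm_pow]
      have h2 : ‖σ s a‖ ^ (k : ℕ) * ‖σ s b‖ ^ (m - k) ≤ W ^ m := by
        have hk : (k : ℕ) ≤ m := by have := k.2; omega
        calc ‖σ s a‖ ^ (k : ℕ) * ‖σ s b‖ ^ (m - k) ≤ W ^ (k : ℕ) * W ^ (m - k) := by
              gcongr
              · exact haW s
              · exact hbW s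
          _ = W ^ m := by rw [← pow_add]; congr 1; omega
      have h3 : ‖σ s ((Int.castRingHom O) ((P k).coeff j))‖ ≤ n.factorial * (KC m n : ℝ) := by
        rw [eq_intCast, map_intCast, Complex.norm_intCast]
        exact hP2 k j
      exact mul_le_mul h2 h3 (norm_nonneg _) (by positivity)
    refine (Finset.sum_le_sum h1).trans ?_
    rw [Finset.sum_const, Finset.card_univ, Fintype.card_fin, nsmul_eq_mul]
    push_cast
    exact le_rfl
  · intro x
    rw [Polynomial.map_sum, eval_finsetSum]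
    rw [Finset.mul_sum, Finset.mul_sum]
    refine Finset.sum_congr rfl fun k _ => ?_
    rw [Polynomial.map_mul, map_C, eval_mul, eval_C, Polynomial.map_map]
    have h1 : ((P k).map ((σ s0).comp (Int.castRingHom O))).eval x = aeval x (P k) := by
      rw [aeval_def, eval_map]
      congr 1
      exact RingHom.ext_int _ _
    rw [h1, hP3 k x, map_mul, map_pow, map_pow, ← hab, mul_pow, ← Complex.exp_nat_mul]
    have hk : (k : ℕ) ≤ m := by have := k.2; omega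
    have h2 : σ s0 b ^ m = σ s0 b ^ (k : ℕ) * σ s0 b ^ (m - k) := by
      rw [← pow_add]; congr 1; omega
    rw [h2]
    ring

/-- the combined forms -/
lemma combK (σ : Λ → (O →+* ℂ)) (s0 : Λ) (θ : ℂ) (a b : O) (hb : σ s0 b ≠ 0) (W : ℝ)
    (haW : ∀ s, ‖σ s a‖ ≤ W) (hbW : ∀ s, ‖σ s b‖ ≤ W) (hab : σ s0 b * Complex.exp θ = σ s0 a)
    {n : ℕ} (hn : 1 ≤ n)
    (D : ℕ) (S : Finset ℂ) (hS : S.card ≤ D) (hS0 : ∀ α ∈ S, α ≠ 0) (ε : ℝ)
    (hε : ∀ l₀ : Fin (m + 1), ‖((SC m n : ℚ) : ℂ) * Rv n l₀ θ‖ ≤ ε) :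
    ∃ B : O[X], B.natDegree ≤ n ∧
      (∀ s j, ‖σ s (B.coeff j)‖ ≤ (m + 1) * D ^ 2 * ((m + 1) * (W ^ m * (n.factorial * (KC m n : ℝ))))) ∧
      ‖(B.map (σ s0)).eval θ‖ ≤ (m + 1) * D ^ 2 * (W ^ m * (n.factorial * ε)) ∧
      ∀ α ∈ S, (B.map (σ s0)).eval α ≠ 0 := by
  have hW : 0 ≤ W := (norm_nonneg _).trans (haW s0)
  choose B hB1 hB2 hB3 using fun l₀ : Fin (m + 1) => BlK (m := m) σ s0 θ a b W haW hbW hab n l₀
  have hS' : ∀ α ∈ S, ∃ l, (fun α l => ((B l).map (σ s0)).eval α) α l ≠ 0 := by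
    intro α hα
    obtain ⟨l, hl⟩ := nonvanish (m := m) hn α (hS0 α hα)
      (fun k : Fin (m + 1) => Complex.exp (((k : ℕ) : ℂ) * θ)) (by
        intro h
        have := congrFun h 0
        exact Complex.exp_ne_zero _ this)
    refine ⟨l, ?_⟩
    show ((B l).map (σ s0)).eval α ≠ 0
    rw [hB3 l α]
    refine mul_ne_zero (pow_ne_zero _ hb) (mul_ne_zero (mul_ne_zero ?_ ?_) hl)
    · exact_mod_cast n.factorial_ne_zero
    · have : SC m n ≠ 0 := by
        unfold SC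
        have := Nat.lcmUpto_pos m
        positivity
      exact_mod_cast this
  obtain ⟨y, hy1, hy2⟩ := small_comb (m := m) (fun α l => ((B l).map (σ s0)).eval α) S hS'
  have hyD : ∀ l, ((y l : ℕ) : ℝ) ≤ (D : ℝ) ^ 2 := by
    intro l
    have : y l ≤ D ^ 2 := (hy1 l).trans (by gcongr)
    exact_mod_cast this
  refine ⟨∑ l, C ((y l : ℕ) : O) * B l, ?_, ?_, ?_, ?_⟩
  · refine natDegree_sum_le_of_forall_le _ _ fun k _ => ?_
    exact (natDegree_C_mul_le _ _).trans (hB1 k)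
  · intro s j
    rw [finsetSum_coeff, map_sum]
    refine (norm_sum_le _ _).trans ?_
    have h1 : ∀ l ∈ (univ : Finset (Fin (m + 1))), ‖σ s ((C ((y l : ℕ) : O) * B l).coeff j)‖ ≤
        (D : ℝ) ^ 2 * ((m + 1) * (W ^ m * (n.factorial * (KC m n : ℝ)))) := by
      intro l _
      rw [coeff_C_mul, map_mul, norm_mul, map_natCast, Complex.norm_natCast]
      exact mul_le_mul (hyD l) (hB2 l s j) (norm_nonneg _) (by positivity)
    refine (Finset.sum_le_sum h1).trans ?_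
    rw [Finset.sum_const, Finset.card_univ, Fintype.card_fin, nsmul_eq_mul]
    push_cast
    exact le_of_eq (by ring)
  · rw [Polynomial.map_sum, eval_finsetSum]
    refine (norm_sum_le _ _).trans ?_
    have h1 : ∀ l ∈ (univ : Finset (Fin (m + 1))), ‖eval θ ((C ((y l : ℕ) : O) * B l).map (σ s0))‖ ≤
        (D : ℝ) ^ 2 * (W ^ m * (n.factorial * ε)) := by
      intro l _
      rw [Polynomial.map_mul, map_C, eval_mul, eval_C, map_natCast, norm_mul, Complex.norm_natCast]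
      have h2 : ‖((B l).map (σ s0)).eval θ‖ ≤ W ^ m * (n.factorial * ε) := by
        rw [hB3 l θ]
        have h3 : (n.factorial : ℂ) * ((SC m n : ℚ) : ℂ) *
            ∑ k : Fin (m + 1), aeval θ (Ak n l k) * Complex.exp (((k : ℕ) : ℂ) * θ) =
            (n.factorial : ℂ) * (((SC m n : ℚ) : ℂ) * Rv n l θ) := by
          unfold Rv; ring
        rw [h3, norm_mul, norm_mul, norm_pow, Complex.norm_natCast]
        have h4 := hε l
        have h5 := hbW s0
        gcongr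
      exact mul_le_mul (hyD l) h2 (norm_nonneg _) (by positivity)
    refine (Finset.sum_le_sum h1).trans ?_
    rw [Finset.sum_const, Finset.card_univ, Fintype.card_fin, nsmul_eq_mul]
    push_cast
    exact le_of_eq (by ring)
  · intro α hα
    rw [Polynomial.map_sum, eval_finsetSum]
    have h1 : ∀ l ∈ (univ : Finset (Fin (m + 1))), eval α ((C ((y l : ℕ) : O) * B l).map (σ s0)) =
        (y l : ℂ) * ((B l).map (σ s0)).eval α := by
      intro l _
      rw [Polynomial.map_mul, map_C, eval_mul, eval_C, map_natCast]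
    rw [Finset.sum_congr rfl h1]
    exact hy2 α hα

/-- **Approximations** -/
theorem approxK [Finite Λ] (σ : Λ → (O →+* ℂ)) (s0 : Λ) (θ : ℂ) (a b : O) (hb : σ s0 b ≠ 0)
    (hab : σ s0 b * Complex.exp θ = σ s0 a) (D : ℕ) :
    ∃ (n : ℕ) (C K : ℝ), 1 ≤ n ∧ 1 ≤ C ∧ 1 ≤ K ∧ ∀ m : ℕ, 1 ≤ m → ∀ S : Finset ℂ, S.card ≤ D →
      (∀ α ∈ S, α ≠ 0) → ∃ B : O[X], B.natDegree ≤ n ∧ (∀ s j, ‖σ s (B.coeff j)‖ ≤ C * K ^ m) ∧
        ‖(B.map (σ s0)).eval θ‖ * (K ^ D) ^ m ≤ C * Real.exp (-m) ∧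
        ∀ α ∈ S, (B.map (σ s0)).eval α ≠ 0 := by
  obtain ⟨L, hL⟩ : ∃ L, L = Real.exp (Real.log 4 + 4) := ⟨_, rfl⟩
  have hL1 : 1 ≤ L := by
    rw [hL]
    apply Real.one_le_exp
    have : 0 ≤ Real.log 4 := Real.log_nonneg (by norm_num)
    linarith
  obtain ⟨W, hW1, haW, hbW⟩ : ∃ W : ℝ, 1 ≤ W ∧ (∀ s, ‖σ s a‖ ≤ W) ∧ ∀ s, ‖σ s b‖ ≤ W := by
    cases nonempty_fintype Λ
    refine ⟨1 + ∑ s, (‖σ s a‖ + ‖σ s b‖), ?_, fun s => ?_, fun s => ?_⟩
    · have : 0 ≤ ∑ s, (‖σ s a‖ + ‖σ s b‖) := Finset.sum_nonneg fun s _ => by positivity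
      linarith
    · have := Finset.single_le_sum (f := fun s => ‖σ s a‖ + ‖σ s b‖) (fun s _ => by positivity)
        (Finset.mem_univ s)
      have h2 := norm_nonneg (σ s b)
      linarith
    · have := Finset.single_le_sum (f := fun s => ‖σ s a‖ + ‖σ s b‖) (fun s _ => by positivity)
        (Finset.mem_univ s)
      have h2 := norm_nonneg (σ s a)
      linarith
  obtain ⟨T, hT⟩ : ∃ T, T = ‖θ‖ := ⟨_, rfl⟩
  have hT0 : 0 ≤ T := by rw [hT]; positivity
  obtain ⟨Y, hY⟩ : ∃ Y, Y = (4 * W * L) ^ (D + 1) * Real.exp (2 * T + 1) := ⟨_, rfl⟩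
  have hY1 : 1 ≤ Y := by
    rw [hY]
    have h1 : 1 ≤ (4 * W * L) ^ (D + 1) := one_le_pow₀ (by nlinarith)
    have h2 : 1 ≤ Real.exp (2 * T + 1) := Real.one_le_exp (by positivity)
    nlinarith
  obtain ⟨n, hn⟩ := exists_nat_ge (max 1 ((4 * L) ^ (D + 1) * (2 * Real.exp 1 * T) * Y))
  have hn1 : (1 : ℝ) ≤ n := (le_max_left _ _).trans hn
  have hn1' : 1 ≤ n := by exact_mod_cast hn1
  have hnZ : (4 * L) ^ (D + 1) * (2 * Real.exp 1 * T) * Y ≤ n := (le_max_right _ _).trans hn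
  have hn0 : (0 : ℝ) < n := by linarith
  obtain ⟨q, hq⟩ : ∃ q, q = 2 * Real.exp 1 * T / n := ⟨_, rfl⟩
  have hq0 : 0 ≤ q := by rw [hq]; positivity
  have h4L : 1 ≤ (4 * L) ^ (D + 1) := one_le_pow₀ (by linarith)
  have hqY : (4 * L) ^ (D + 1) * q ≤ 1 / Y := by
    rw [hq, le_div_iff₀ (by linarith), mul_div_assoc', div_mul_eq_mul_div, div_le_one hn0]
    exact hnZ
  have hq1 : q ≤ 1 := by
    have h1 : q ≤ (4 * L) ^ (D + 1) * q := le_mul_of_one_le_left hq0 h4L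
    have h2 : 1 / Y ≤ 1 := by rw [div_le_one (by linarith)]; exact hY1
    linarith
  obtain ⟨Q, hQ⟩ : ∃ Q, Q = 4 ^ n * L ^ (n + 1) := ⟨_, rfl⟩
  have hQ1 : 1 ≤ Q := by
    rw [hQ]
    have h1 : (1 : ℝ) ≤ 4 ^ n := one_le_pow₀ (by norm_num)
    have h2 : 1 ≤ L ^ (n + 1) := one_le_pow₀ hL1
    nlinarith
  obtain ⟨K, hK⟩ : ∃ K, K = 4 * W * Q := ⟨_, rfl⟩
  have hK1 : 1 ≤ K := by rw [hK]; nlinarith
  -- the main inequality
  have hmain : K ^ (D + 1) * Real.exp (2 * T) * q ^ n ≤ Real.exp (-1) := by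
    have e1 : K ^ (D + 1) * Real.exp (2 * T) * q ^ n =
        Y * ((4 * L) ^ (D + 1) * q) ^ n * Real.exp (-1) := by
      rw [hK, hQ, hY, show 2 * T + 1 = 2 * T - (-1) by ring, Real.exp_sub]
      have h5 : Real.exp (-1) ≠ 0 := (Real.exp_pos _).ne'
      have e2 : (4 * W * (4 ^ n * L ^ (n + 1))) ^ (D + 1) =
          (4 * W * L) ^ (D + 1) * ((4 * L) ^ (D + 1)) ^ n := by
        rw [← pow_mul, mul_comm (D + 1) n, pow_mul, ← mul_pow]
        congr 1
        rw [mul_pow]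
        ring
      rw [e2, mul_pow ((4 * L) ^ (D + 1)) q n]
      field_simp
    rw [e1]
    have h6 : ((4 * L) ^ (D + 1) * q) ^ n ≤ (1 / Y) ^ n := by gcongr
    have h7 : (1 / Y) ^ n ≤ 1 / Y := by
      have h8 : 1 / Y ≤ 1 := by rw [div_le_one (by linarith)]; exact hY1
      exact pow_le_of_le_one (by positivity) h8 (by omega)
    have h9 : Y * ((4 * L) ^ (D + 1) * q) ^ n ≤ 1 := by
      calc Y * ((4 * L) ^ (D + 1) * q) ^ n ≤ Y * (1 / Y) := by
            have := h6.trans h7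
            gcongr
        _ = 1 := by field_simp
    calc Y * ((4 * L) ^ (D + 1) * q) ^ n * Real.exp (-1) ≤ 1 * Real.exp (-1) := by gcongr
      _ = _ := one_mul _
  obtain ⟨C, hC⟩ : ∃ C : ℝ, C = D ^ 2 * (n.factorial * ((n : ℝ) + 1) ^ (n + 1)) + 1 := ⟨_, rfl⟩
  have hC1 : 1 ≤ C := by rw [hC]; have : (0 : ℝ) ≤ D ^ 2 * (n.factorial * ((n : ℝ) + 1) ^ (n + 1)) := by
                                     positivity
                         linarith
  refine ⟨n, C, K, hn1', hC1, hK1, fun m hm S hS hS0 => ?_⟩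
  obtain ⟨M, hM⟩ : ∃ M, M = (m + 1) * n := ⟨_, rfl⟩
  obtain ⟨B, hB1, hB2, hB3, hB4⟩ := combK (m := m) σ s0 θ a b hb W haW hbW hab hn1' D S hS hS0 _
    (fun l₀ => Rv_bound (m := m) hn1' hm l₀ θ)
  rw [← hM, ← hT] at hB3
  have hKC : (KC m n : ℝ) ≤ ((n : ℝ) + 1) ^ n * Q ^ m := by rw [hQ, hL]; exact KC_le m n
  have hKC0 : (0 : ℝ) ≤ KC m n := by exact_mod_cast KC_nonneg m n
  have hm2 : ((m : ℝ) + 1) * (m + 1) ≤ 4 ^ m := by
    have h2 : ((m : ℝ) + 1) ≤ 2 ^ m := by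
      have : m + 1 ≤ 2 ^ m := Nat.lt_two_pow_self
      exact_mod_cast this
    calc ((m : ℝ) + 1) * (m + 1) ≤ 2 ^ m * 2 ^ m := by gcongr
      _ = 4 ^ m := by rw [← mul_pow]; norm_num
  have hKm : K ^ m = 4 ^ m * W ^ m * Q ^ m := by rw [hK, mul_pow, mul_pow]
  have hfac : (0 : ℝ) ≤ n.factorial := by positivity
  refine ⟨B, hB1, fun s j => ?_, ?_, hB4⟩
  · refine (hB2 s j).trans ?_
    have hn1n : ((n : ℝ) + 1) ^ n ≤ ((n : ℝ) + 1) ^ (n + 1) :=
      pow_le_pow_right₀ (by linarith) (Nat.le_succ _)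
    calc ((m : ℝ) + 1) * D ^ 2 * ((m + 1) * (W ^ m * (n.factorial * (KC m n : ℝ))))
        = D ^ 2 * n.factorial * ((((m : ℝ) + 1) * (m + 1)) * W ^ m * (KC m n : ℝ)) := by ring
      _ ≤ D ^ 2 * n.factorial * (4 ^ m * W ^ m * (((n : ℝ) + 1) ^ n * Q ^ m)) := by gcongr
      _ = (D ^ 2 * (n.factorial * ((n : ℝ) + 1) ^ n)) * K ^ m := by rw [hKm]; ring
      _ ≤ C * K ^ m := by
          have : (D : ℝ) ^ 2 * (n.factorial * ((n : ℝ) + 1) ^ n) ≤ C := by
            rw [hC]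
            have : (D : ℝ) ^ 2 * (n.factorial * ((n : ℝ) + 1) ^ n) ≤
                (D : ℝ) ^ 2 * (n.factorial * ((n : ℝ) + 1) ^ (n + 1)) := by gcongr
            linarith
          gcongr
  · have hM1 : 1 ≤ M := by rw [hM]; exact Nat.mul_pos m.succ_pos hn1'
    have hxM : (2 * m * T) ^ M / M.factorial ≤ q ^ M := by
      refine tail_le _ (by positivity) M hM1 q ?_
      rw [hM, hq]
      push_cast
      have : 2 * Real.exp 1 * T / n * (((m : ℝ) + 1) * n) = 2 * Real.exp 1 * T * (m + 1) := by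
        field_simp
      rw [this]
      have he : 0 < Real.exp 1 := Real.exp_pos 1
      have : 0 ≤ Real.exp 1 * T := by positivity
      nlinarith
    have hqM : q ^ M ≤ (q ^ n) ^ m := by
      rw [← pow_mul]
      apply pow_le_pow_of_le_one hq0 hq1
      rw [hM, mul_comm n m]
      exact Nat.mul_le_mul_right n (Nat.le_succ m)
    have hx2 : Real.exp (2 * m * T) = Real.exp (2 * T) ^ m := by
      rw [← Real.exp_nat_mul]; congr 1; ring
    calc ‖(B.map (σ s0)).eval θ‖ * (K ^ D) ^ m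
        ≤ (((m : ℝ) + 1) * D ^ 2 * (W ^ m * (n.factorial * (((m : ℝ) + 1) * (n + 1) * (KC m n : ℝ) *
          ((2 * m * T) ^ M / M.factorial * Real.exp (2 * m * T)))))) * (K ^ D) ^ m := by gcongr
      _ = D ^ 2 * n.factorial * (n + 1) * ((((m : ℝ) + 1) * (m + 1)) * W ^ m * (KC m n : ℝ) *
          ((2 * m * T) ^ M / M.factorial * Real.exp (2 * m * T))) * (K ^ D) ^ m := by ring
      _ ≤ D ^ 2 * n.factorial * (n + 1) * (4 ^ m * W ^ m * (((n : ℝ) + 1) ^ n * Q ^ m) *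
          ((q ^ n) ^ m * Real.exp (2 * T) ^ m)) * (K ^ D) ^ m := by
          rw [hx2]
          have := hxM.trans hqM
          gcongr
      _ = (D ^ 2 * (n.factorial * ((n : ℝ) + 1) ^ (n + 1))) *
          (K ^ (D + 1) * Real.exp (2 * T) * q ^ n) ^ m := by
          rw [mul_pow, mul_pow, pow_succ K D, mul_pow, hKm]
          ring
      _ ≤ C * (Real.exp (-1)) ^ m := by
          have h1 : (D : ℝ) ^ 2 * (n.factorial * ((n : ℝ) + 1) ^ (n + 1)) ≤ C := by rw [hC]; linarith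
          have h2 : 0 ≤ K ^ (D + 1) * Real.exp (2 * T) * q ^ n := by positivity
          gcongr
      _ = C * Real.exp (-m) := by
          rw [← Real.exp_nat_mul]
          congr 2
          ring

end Pool.Agent.R523.LM
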