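import Pool.Agent.R523.Crit
import Pool.Agent.R356.Len
import Pool.Agent.TH550.NRZ.Unif

/-!
# Counting near relations of bounded bidegree
-/

set_option autoImplicit false

namespace Pool.Agent.R523.Gel

open Polynomial Matrix Finset
open Pool.Agent.TH456.TM
open Pool.Agent.R356 (IsLen len le_len isLen_int)

lemma det_len {R : Type*} [CommRing R] {f : R → ℝ} (h : IsLen f) (N : ℕ)
    (M : Matrix (Fin N) (Fin N) R) (B : Fin N → ℝ) (hM : ∀ i j, f (M i j) ≤ B j) :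
    f M.det ≤ N.factorial * ∏ j, B j := by
  classical
  rw [Matrix.det_apply]
  refine (h.sum _ _).trans ?_
  have h1 : ∀ σ ∈ (univ : Finset (Equiv.Perm (Fin N))),
      f (Equiv.Perm.sign σ • ∏ i, M (σ i) i) ≤ ∏ j, B j := by
    intro σ _
    have h2 : f (∏ i, M (σ i) i) ≤ ∏ j, B j :=
      (h.prod _ _).trans (Finset.prod_le_prod (fun i _ => h.nonneg _) fun i _ => hM _ _)
    rcases Int.units_eq_one_or (Equiv.Perm.sign σ) with h3 | h3
    · rw [h3, one_smul]; exact h2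
    · rw [h3, Units.neg_smul, one_smul, h.neg]; exact h2
  refine (Finset.sum_le_sum h1).trans ?_
  rw [Finset.sum_const, Finset.card_univ, Fintype.card_perm, Fintype.card_fin, nsmul_eq_mul]

lemma res_len {R : Type*} [CommRing R] {f : R → ℝ} (h : IsLen f) (P Q : R[X]) (a b : ℕ) (A B : ℝ)
    (hP : ∀ i, f (P.coeff i) ≤ A) (hQ : ∀ i, f (Q.coeff i) ≤ B) :
    f (resultant P Q a b) ≤ (a + b).factorial * (B ^ a * A ^ b) := by
  have hA : 0 ≤ A := (h.nonneg _).trans (hP 0)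
  have hB : 0 ≤ B := (h.nonneg _).trans (hQ 0)
  have h1 := det_len h (a + b) (sylvester P Q a b)
    (fun j => Fin.addCases (fun _ : Fin a => B) (fun _ : Fin b => A) j) (fun i j => by
      rw [sylvester, Matrix.of_apply]
      refine Fin.addCases (fun j₁ => ?_) (fun j₁ => ?_) j
      · rw [Fin.addCases_left, Fin.addCases_left]
        split_ifs
        · exact hQ _
        · rw [h.zero]; exact hB
      · rw [Fin.addCases_right, Fin.addCases_right]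
        split_ifs
        · exact hP _
        · rw [h.zero]; exact hA)
  refine h1.trans (le_of_eq ?_)
  rw [Fin.prod_univ_add]
  simp

lemma len_le (m : ℕ) (q : ℤ[X]) (hq : q.natDegree ≤ m) (H : ℝ) (hH : ∀ k, |(q.coeff k : ℝ)| ≤ H) :
    len (fun z : ℤ => |(z : ℝ)|) q ≤ (m + 1) * H := by
  rw [Pool.Agent.R356.len_eq isLen_int q (m + 1) (by omega)]
  calc ∑ i ∈ range (m + 1), |((q.coeff i : ℤ) : ℝ)| ≤ ∑ _i ∈ range (m + 1), H :=
        Finset.sum_le_sum fun i _ => hH i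
    _ = _ := by rw [Finset.sum_const, card_range, nsmul_eq_mul]; push_cast; ring

/-- the gap between two near relations -/
theorem near_gap (x : ℂ) (m n : ℕ) (hn : 1 ≤ n) (κ c : ℝ) (hκ : 0 ≤ κ) (hc : 0 < c)
    (hmeas : ∀ R : ℤ[X], R ≠ 0 → R.natDegree ≤ 2 * n * m → ∀ H : ℝ, 1 ≤ H →
      (∀ k, |(R.coeff k : ℝ)| ≤ H) → c ≤ H ^ κ * ‖aeval x R‖)
    (w : ℝ) (hw0 : 0 ≤ w) (T : ℝ) (hT : 1 ≤ T) :
    ∃ c' : ℝ, 0 < c' ∧ ∀ t : ℂ, ‖t‖ ≤ T → ∀ P Q : ℤ[X][X], Irreducible P → Irreducible Q →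
      ¬ Associated P Q → 0 < P.natDegree → 0 < Q.natDegree → P.natDegree ≤ n → Q.natDegree ≤ n →
      xd P ≤ m → xd Q ≤ m → ∀ H₁ H₂ : ℝ, 1 ≤ H₁ → H₁ ≤ H₂ →
      (∀ j k, |(((P.coeff j).coeff k : ℤ) : ℝ)| ≤ H₁) → (∀ j k, |(((Q.coeff j).coeff k : ℤ) : ℝ)| ≤ H₂) →
      ‖evR x t P‖ ≤ H₁ ^ (-w) → ‖evR x t Q‖ ≤ H₂ ^ (-w) →
      c' * H₁ ^ (w - (n - 1) - n * κ) ≤ H₂ ^ (n * (1 + κ)) := by
  obtain ⟨T1, hT1⟩ : ∃ T1 : ℝ, T1 = max 1 ‖x‖ := ⟨_, rfl⟩
  have hT11 : 1 ≤ T1 := by rw [hT1]; exact le_max_left _ _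
  obtain ⟨A0, hA0⟩ : ∃ A0 : ℝ, A0 = (m + 1) * T1 ^ m := ⟨_, rfl⟩
  have hmR : (0 : ℝ) ≤ m := Nat.cast_nonneg m
  have hA01 : 1 ≤ A0 := by
    rw [hA0]
    exact one_le_mul_of_one_le_of_one_le (by linarith) (one_le_pow₀ hT11)
  obtain ⟨G, hG⟩ : ∃ G : ℝ, G = (2 * n) * T ^ (2 * n) * ((2 * n).factorial * A0 ^ (2 * n)) :=
    ⟨_, rfl⟩
  have hnR : (1 : ℝ) ≤ n := by exact_mod_cast hn
  have hG0 : 0 < G := by rw [hG]; positivity
  obtain ⟨G', hG'⟩ : ∃ G' : ℝ, G' = (2 * n).factorial * (m + 1 : ℝ) ^ (2 * n) := ⟨_, rfl⟩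
  have hG'1 : 1 ≤ G' := by
    rw [hG']
    have h1 : (1 : ℝ) ≤ ((2 * n).factorial : ℝ) := by exact_mod_cast Nat.factorial_pos (2 * n)
    exact one_le_mul_of_one_le_of_one_le h1 (one_le_pow₀ (by linarith))
  refine ⟨c / (G' ^ κ * G), by positivity, ?_⟩
  intro t ht P Q hP hQ hPQ hP0 hQ0 hPn hQn hPm hQm H₁ H₂ hH1 hH12 hPH hQH hPv hQv
  have hH2 : 1 ≤ H₂ := hH1.trans hH12
  have hH10 : 0 < H₁ := by linarith
  have hH20 : 0 < H₂ := by linarith
  obtain ⟨a, ha⟩ : ∃ a, a = P.natDegree := ⟨_, rfl⟩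
  obtain ⟨b, hb⟩ : ∃ b, b = Q.natDegree := ⟨_, rfl⟩
  have hres := Pool.Agent.TH647.NR.resultant_ne_zero_of_irreducible P Q hP hQ hP0 hQ0 hPQ
  rw [← ha, ← hb] at hres
  have hab : a + b ≤ 2 * n := by omega
  have hab0 : 0 < a + b := by omega
  have han : a ≤ n := by omega
  have hbn : b ≤ n := by omega
  obtain ⟨R, hR⟩ : ∃ R, R = resultant P Q a b := ⟨_, rfl⟩
  rw [← hR] at hres
  -- degree
  obtain ⟨N, hN⟩ : ∃ N : ℤ, 0 ≤ N ∧ (∀ j k, |(P.coeff j).coeff k| ≤ N) ∧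
      ∀ j k, |(Q.coeff j).coeff k| ≤ N := by
    refine ⟨⌊H₂⌋, Int.floor_nonneg.2 (by linarith), fun j k => ?_, fun j k => ?_⟩
    · rw [Int.le_floor]; exact_mod_cast (hPH j k).trans hH12
    · rw [Int.le_floor]; exact_mod_cast hQH j k
  obtain ⟨hRdeg, -⟩ := Pool.Agent.TH647.NR.resultant_bounds P Q a b m N hN.1
    (fun j => (coeff_le_xd P j).trans hPm) (fun j => (coeff_le_xd Q j).trans hQm) hN.2.1 hN.2.2
  rw [← hR] at hRdeg
  -- coefficients
  have hRc : ∀ k, |((R.coeff k : ℤ) : ℝ)| ≤ G' * (H₁ * H₂) ^ n := by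
    intro k
    have h1 := le_len isLen_int R k
    refine h1.trans ?_
    have h2 := res_len isLen_int.poly P Q a b ((m + 1) * H₁) ((m + 1) * H₂)
      (fun j => len_le m _ ((coeff_le_xd P j).trans hPm) H₁ (hPH j))
      (fun j => len_le m _ ((coeff_le_xd Q j).trans hQm) H₂ (hQH j))
    rw [← hR] at h2
    refine h2.trans ?_
    have h3 : ((a + b).factorial : ℝ) ≤ ((2 * n).factorial : ℝ) := by
      exact_mod_cast Nat.factorial_le hab
    have h4 : ((m + 1 : ℝ) * H₂) ^ a ≤ ((m + 1) * H₂) ^ n := pow_le_pow_right₀ (by nlinarith) han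
    have h5 : ((m + 1 : ℝ) * H₁) ^ b ≤ ((m + 1) * H₁) ^ n := pow_le_pow_right₀ (by nlinarith) hbn
    calc ((a + b).factorial : ℝ) * (((m + 1) * H₂) ^ a * ((m + 1) * H₁) ^ b) ≤
          ((2 * n).factorial : ℝ) * (((m + 1) * H₂) ^ n * ((m + 1) * H₁) ^ n) := by gcongr
      _ = G' * (H₁ * H₂) ^ n := by
          rw [hG', mul_pow, mul_pow, mul_pow, show 2 * n = n + n by ring, pow_add]
          ring
  have hHH : 1 ≤ G' * (H₁ * H₂) ^ n :=
    one_le_mul_of_one_le_of_one_le hG'1 (one_le_pow₀ (one_le_mul_of_one_le_of_one_le hH1 hH2))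
  have hm := hmeas R hres (hRdeg.trans (Nat.mul_le_mul_right m hab)) _ hHH hRc
  -- the value
  obtain ⟨ε, hε⟩ : ∃ ε : ℝ, ε = H₁ ^ (-w) * (1 / H₁) := ⟨_, rfl⟩
  have hval : ‖aeval x R‖ ≤ G * ε * (H₁ ^ n * H₂ ^ n) := by
    have h1 : aeval x R = resultant (P.map (σx x)) (Q.map (σx x)) a b := by
      rw [resultant_map_map, hR]
      rfl
    have hcf : ∀ F : ℤ[X][X], xd F ≤ m → ∀ H : ℝ, (∀ j k, |(((F.coeff j).coeff k : ℤ) : ℝ)| ≤ H) →
        ∀ i, ‖(F.map (σx x)).coeff i‖ ≤ A0 * H := by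
      intro F hF H hF' i
      rw [coeff_map, hA0, hT1]
      have := aeval_le x m (F.coeff i) ((coeff_le_xd F i).trans hF) H (hF' i)
      calc ‖σx x (F.coeff i)‖ ≤ (m + 1) * H * max 1 ‖x‖ ^ m := this
        _ = _ := by ring
    have hevl : ∀ F : ℤ[X][X], (F.map (σx x)).eval t = evR x t F := by
      intro F
      rw [evR_apply]
      rfl
    have h2 := res_le (C ((1 / H₁ : ℝ) : ℂ) * P.map (σx x)) (C ((1 / H₂ : ℝ) : ℂ) * Q.map (σx x)) a b
      ((natDegree_C_mul_le _ _).trans (natDegree_map_le.trans ha.ge))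
      ((natDegree_C_mul_le _ _).trans (natDegree_map_le.trans hb.ge)) hab0 A0 T ε hA01
      (fun i => by
        rw [coeff_C_mul, norm_mul, Complex.norm_real, Real.norm_of_nonneg (by positivity),
          div_mul_eq_mul_div, one_mul, div_le_iff₀ hH10]
        exact hcf P hPm H₁ hPH i)
      (fun i => by
        rw [coeff_C_mul, norm_mul, Complex.norm_real, Real.norm_of_nonneg (by positivity),
          div_mul_eq_mul_div, one_mul, div_le_iff₀ hH20]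
        exact hcf Q hQm H₂ hQH i) t hT ht
      (by
        rw [eval_mul, eval_C, norm_mul, Complex.norm_real, Real.norm_of_nonneg (by positivity),
          hevl, hε, mul_comm]
        exact mul_le_mul_of_nonneg_right hPv (by positivity))
      (by
        rw [eval_mul, eval_C, norm_mul, Complex.norm_real, Real.norm_of_nonneg (by positivity),
          hevl, hε, mul_comm]
        have h3 : H₂ ^ (-w) ≤ H₁ ^ (-w) := Real.rpow_le_rpow_of_nonpos hH10 hH12 (by linarith)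
        have h4 : 1 / H₂ ≤ 1 / H₁ := one_div_le_one_div_of_le hH10 hH12
        exact mul_le_mul (hQv.trans h3) h4 (by positivity) (by positivity))
    rw [resultant_C_mul_left, resultant_C_mul_right, norm_mul, norm_mul, norm_pow, norm_pow,
      Complex.norm_real, Complex.norm_real, Real.norm_of_nonneg (by positivity),
      Real.norm_of_nonneg (by positivity), ← h1] at h2
    have hε0 : 0 < ε := by rw [hε]; positivity
    have h3 : ((a : ℝ) + b) ≤ 2 * n := by exact_mod_cast hab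
    have h4 : T ^ (a + b) ≤ T ^ (2 * n) := pow_le_pow_right₀ hT hab
    have h5 : ((a + b).factorial : ℝ) ≤ ((2 * n).factorial : ℝ) := by
      exact_mod_cast Nat.factorial_le hab
    have h6 : A0 ^ (a + b - 1) ≤ A0 ^ (2 * n) := pow_le_pow_right₀ hA01 (by omega)
    have h7 : ((a : ℝ) + b) * (T ^ (a + b) * ε) * ((a + b).factorial * A0 ^ (a + b - 1)) ≤ G * ε := by
      calc _ ≤ (2 * n) * (T ^ (2 * n) * ε) * ((2 * n).factorial * A0 ^ (2 * n)) := by gcongr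
        _ = _ := by rw [hG]; ring
    have h8 := h2.trans h7
    have h9 : (1 / H₁) ^ b * ((1 / H₂) ^ a * ‖aeval x R‖) * (H₁ ^ b * H₂ ^ a) = ‖aeval x R‖ := by
      rw [one_div, one_div, inv_pow, inv_pow]
      field_simp
    rw [← h9]
    have h10 : H₁ ^ b * H₂ ^ a ≤ H₁ ^ n * H₂ ^ n :=
      mul_le_mul (pow_le_pow_right₀ hH1 hbn) (pow_le_pow_right₀ hH2 han) (by positivity)
        (by positivity)
    exact mul_le_mul h8 h10 (by positivity) (by positivity)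
  -- conclusion
  have e1 : (G' * (H₁ * H₂) ^ n) ^ κ = G' ^ κ * (H₁ ^ (n * κ) * H₂ ^ (n * κ)) := by
    rw [Real.mul_rpow (by linarith) (by positivity), mul_pow, Real.mul_rpow (by positivity)
      (by positivity), ← Real.rpow_natCast H₁, ← Real.rpow_natCast H₂, ← Real.rpow_mul hH10.le,
      ← Real.rpow_mul hH20.le]
  have e2 : H₁ ^ (w - (n - 1) - n * κ) * (H₁ ^ (n * κ) * (H₁ ^ (-w) * (1 / H₁) * H₁ ^ n)) = 1 := by
    rw [one_div, ← Real.rpow_neg_one, ← Real.rpow_natCast H₁ n, ← Real.rpow_add hH10,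
      ← Real.rpow_add hH10, ← Real.rpow_add hH10, ← Real.rpow_add hH10]
    rw [show w - (n - 1) - n * κ + (n * κ + (-w + -1 + (n : ℝ))) = 0 by ring, Real.rpow_zero]
  have e3 : H₂ ^ (n * (1 + κ)) = H₂ ^ n * H₂ ^ (n * κ) := by
    rw [← Real.rpow_natCast H₂ n, ← Real.rpow_add hH20]
    congr 1
    ring
  have hp : 0 < H₁ ^ (w - (n - 1) - n * κ) := Real.rpow_pos_of_pos hH10 _
  have hmain : c * H₁ ^ (w - (n - 1) - n * κ) ≤ G' ^ κ * G * H₂ ^ (n * (1 + κ)) := by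
    calc c * H₁ ^ (w - (n - 1) - n * κ) ≤
          ((G' * (H₁ * H₂) ^ n) ^ κ * (G * ε * (H₁ ^ n * H₂ ^ n))) * H₁ ^ (w - (n - 1) - n * κ) := by
          refine mul_le_mul_of_nonneg_right (hm.trans ?_) hp.le
          exact mul_le_mul_of_nonneg_left hval (by positivity)
      _ = G' ^ κ * G * H₂ ^ (n * (1 + κ)) *
          (H₁ ^ (w - (n - 1) - n * κ) * (H₁ ^ (n * κ) * (H₁ ^ (-w) * (1 / H₁) * H₁ ^ n))) := by
          rw [e1, e3, hε]; ring
      _ = _ := by rw [e2, mul_one]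
  rw [div_mul_eq_mul_div, div_le_iff₀ (by positivity)]
  linarith

/-- the near relations: irreducible integer polynomials, normalised by a positive leading
coefficient, of degree at most `n` in the outer and at most `m` in the inner variable, of height at
most `X`, whose value at `(x, t)` is at most the power `-w` of their height -/
def Near (x : ℂ) (m n : ℕ) (t : ℂ) (w X : ℝ) : Set ℤ[X][X] :=
  {P | Irreducible P ∧ 0 < P.leadingCoeff.leadingCoeff ∧ P.natDegree ≤ n ∧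
    (∀ j, (P.coeff j).natDegree ≤ m) ∧ (hgt P : ℝ) ≤ X ∧ ‖vl x t P‖ ≤ (hgt P : ℝ) ^ (-w)}

lemma not_assoc (P Q : ℤ[X][X]) (hP : 0 < P.leadingCoeff.leadingCoeff)
    (hQ : 0 < Q.leadingCoeff.leadingCoeff) (hne : P ≠ Q) : ¬ Associated P Q := by
  rintro ⟨u, hu⟩
  obtain ⟨r, hr, hr'⟩ := Polynomial.isUnit_iff.1 u.isUnit
  obtain ⟨s, hs, hs'⟩ := Polynomial.isUnit_iff.1 hr
  rcases Int.isUnit_iff.1 hs with h | h
  · apply hne
    rw [← hu, ← hr', ← hs', h]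
    simp
  · have h1 : Q.leadingCoeff.leadingCoeff = -P.leadingCoeff.leadingCoeff := by
      rw [← hu, ← hr', ← hs', h]
      simp
    omega

theorem near_count (x : ℂ) (m n : ℕ) (hn : 1 ≤ n) (κ c : ℝ) (hκ : 0 ≤ κ) (hc : 0 < c)
    (hmeas : ∀ R : ℤ[X], R ≠ 0 → R.natDegree ≤ 2 * n * m → ∀ H : ℝ, 1 ≤ H →
      (∀ k, |(R.coeff k : ℝ)| ≤ H) → c ≤ H ^ κ * ‖aeval x R‖)
    (w ρ : ℝ) (hw : 2 * n - 1 + 2 * n * κ < w) (hρ : 1 < ρ)
    (hρw : ρ < (w - (n - 1) - n * κ) / (n * (1 + κ))) (T : ℝ) :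
    ∃ C : ℝ, ∀ t : ℂ, ‖t‖ ≤ T → ∀ X : ℝ, 3 ≤ X → (Near x m n t w X).Finite ∧
      ((Near x m n t w X).ncard : ℝ) ≤ Real.log (Real.log X) / Real.log ρ + C := by
  classical
  have hnR : (1 : ℝ) ≤ n := by exact_mod_cast hn
  have hnκ : 0 ≤ (n : ℝ) * κ := by positivity
  have hκn : κ ≤ n * κ := le_mul_of_one_le_left hκ hnR
  have hw0 : 0 < w := by linarith
  have hwκ : 0 < w - κ := by linarith
  obtain ⟨c', hc', hgap⟩ := near_gap x m n hn κ c hκ hc hmeas w hw0.le (max 1 T) (le_max_left _ _)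
  obtain ⟨N, hN⟩ : ∃ N : ℝ, N = n * (1 + κ) := ⟨_, rfl⟩
  have hN0 : 0 < N := by rw [hN]; positivity
  rw [← hN] at hρw
  obtain ⟨γ, hγ⟩ : ∃ γ : ℝ, γ = (w - (n - 1) - n * κ) / N := ⟨_, rfl⟩
  have hγ1 : 1 < γ := by rw [hγ]; linarith
  -- bound for the heights of the polynomials in one variable
  obtain ⟨B0, hB0⟩ : ∃ B0 : ℝ, B0 = max 1 ((1 / c) ^ (1 / (w - κ))) := ⟨_, rfl⟩
  have hB01 : 1 ≤ B0 := by rw [hB0]; exact le_max_left _ _
  have hdeg0 : ∀ t : ℂ, ∀ P : ℤ[X][X], Irreducible P → P.natDegree = 0 →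
      (∀ j, (P.coeff j).natDegree ≤ m) → 1 ≤ (hgt P : ℝ) → ‖vl x t P‖ ≤ (hgt P : ℝ) ^ (-w) →
      (hgt P : ℝ) ≤ B0 := by
    intro t P hP hPd hPm hPh hPv
    have hP0 : (0 : ℝ) < hgt P := by linarith
    obtain ⟨q, hq⟩ : ∃ q : ℤ[X], P = C q := ⟨P.coeff 0, eq_C_of_natDegree_eq_zero hPd⟩
    have hq0 : q ≠ 0 := by
      rintro rfl
      exact hP.ne_zero (by rw [hq, C_0])
    have hqm : q.natDegree ≤ m := by
      have := hPm 0
      rwa [hq, coeff_C_zero] at this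
    have hval : vl x t P = aeval x q := by
      rw [← evR_apply, hq]
      unfold evR σx
      simp
    have h1 := hmeas q hq0 (by nlinarith) (hgt P) hPh (fun k => by
      have h2 := le_hgt P 0 k
      rw [hq, coeff_C_zero, ← hq] at h2
      have h3 : |((q.coeff k : ℤ) : ℝ)| = ((q.coeff k).natAbs : ℝ) := by
        rw [Nat.cast_natAbs, Int.cast_abs]
      rw [h3]
      exact_mod_cast h2)
    rw [← hval] at h1
    have h4 : c ≤ (hgt P : ℝ) ^ (-(w - κ)) := by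
      refine h1.trans ((mul_le_mul_of_nonneg_left hPv (by positivity)).trans (le_of_eq ?_))
      rw [← Real.rpow_add hP0]
      congr 1
      ring
    have h5 : (hgt P : ℝ) ^ (w - κ) ≤ 1 / c := by
      rw [le_div_iff₀ hc]
      have h6 : (hgt P : ℝ) ^ (w - κ) * (hgt P : ℝ) ^ (-(w - κ)) = 1 := by
        rw [← Real.rpow_add hP0]; simp
      have h7 : 0 < (hgt P : ℝ) ^ (w - κ) := Real.rpow_pos_of_pos hP0 _
      calc (hgt P : ℝ) ^ (w - κ) * c ≤ (hgt P : ℝ) ^ (w - κ) * (hgt P : ℝ) ^ (-(w - κ)) :=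
            mul_le_mul_of_nonneg_left h4 h7.le
        _ = 1 := h6
    rw [hB0]
    refine le_trans ?_ (le_max_right _ _)
    calc (hgt P : ℝ) = ((hgt P : ℝ) ^ (w - κ)) ^ (1 / (w - κ)) := by
          rw [← Real.rpow_mul hP0.le, mul_one_div_cancel hwκ.ne', Real.rpow_one]
      _ ≤ (1 / c) ^ (1 / (w - κ)) := Real.rpow_le_rpow (by positivity) h5 (by positivity)
  obtain ⟨C1, hC1⟩ : ∃ C1 : ℝ, C1 = min (c' ^ (1 / N)) (B0 ^ (-γ)) := ⟨_, rfl⟩
  have hB00 : 0 < B0 := by linarith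
  have hC10 : 0 < C1 := by
    rw [hC1]; exact lt_min (Real.rpow_pos_of_pos hc' _) (Real.rpow_pos_of_pos hB00 _)
  -- the type of the polynomials of bounded degrees
  obtain ⟨α, hα⟩ : ∃ α : Set ℤ[X][X], α = {P | P.natDegree ≤ n ∧ xd P ≤ m} := ⟨_, rfl⟩
  have hαi : ∀ P : ℤ[X][X], P ∈ α ↔ P.natDegree ≤ n ∧ xd P ≤ m := fun P => by rw [hα]; rfl
  have hmem : ∀ P : α, (P : ℤ[X][X]).natDegree ≤ n ∧ xd (P : ℤ[X][X]) ≤ m := fun P =>
    (hαi _).1 P.2
  have hfin : ∀ X : ℝ, {P : α | (hgt (P : ℤ[X][X]) : ℝ) ≤ X}.Finite := by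
    intro X
    have h1 := finite_MM m n (((m + (m + 1) * n + 1 : ℕ) : ℝ) * X)
    refine (h1.preimage (f := fun P : α => (P : ℤ[X][X])) Subtype.val_injective.injOn).subset ?_
    intro P hP
    refine ⟨(hmem P).2, (hmem P).1, MM_le m n P (hmem P).2 (hmem P).1 X fun j i => ?_⟩
    have h2 := le_hgt (P : ℤ[X][X]) j i
    have h3 : |((((P : ℤ[X][X]).coeff j).coeff i : ℤ) : ℝ)| =
        ((((P : ℤ[X][X]).coeff j).coeff i).natAbs : ℝ) := by
      rw [Nat.cast_natAbs, Int.cast_abs]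
    rw [h3]
    exact le_trans (by exact_mod_cast h2) hP
  obtain ⟨C, hC⟩ := Pool.Agent.TH550.NRZ.count_unif (α := α) (fun P => (hgt (P : ℤ[X][X]) : ℝ)) hfin
    C1 γ ρ hC10 hρ (by rw [hγ]; exact hρw)
  refine ⟨C, fun t ht X hX => ?_⟩
  obtain ⟨S, hS⟩ : ∃ S : Set α, S = {P : α | Irreducible (P : ℤ[X][X]) ∧
      0 < (P : ℤ[X][X]).leadingCoeff.leadingCoeff ∧
      ‖vl x t (P : ℤ[X][X])‖ ≤ (hgt (P : ℤ[X][X]) : ℝ) ^ (-w)} := ⟨_, rfl⟩
  have hcoef : ∀ (P : ℤ[X][X]) (j k : ℕ), |(((P.coeff j).coeff k : ℤ) : ℝ)| ≤ hgt P := by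
    intro P j k
    have h2 := le_hgt P j k
    have h3 : |(((P.coeff j).coeff k : ℤ) : ℝ)| = (((P.coeff j).coeff k).natAbs : ℝ) := by
      rw [Nat.cast_natAbs, Int.cast_abs]
    rw [h3]
    exact_mod_cast h2
  obtain ⟨h1, h2⟩ := hC S (by
    intro P hP Q hQ hPQ hle h1
    rw [hS] at hP hQ
    obtain ⟨hPi, hPl, hPv⟩ := hP
    obtain ⟨hQi, hQl, hQv⟩ := hQ
    have hQ1 : 1 ≤ (hgt (Q : ℤ[X][X]) : ℝ) := h1.trans hle
    have hP0 : (0 : ℝ) < hgt (P : ℤ[X][X]) := by linarith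
    by_cases hB : (hgt (P : ℤ[X][X]) : ℝ) ≤ B0
    · -- small height
      calc C1 * (hgt (P : ℤ[X][X]) : ℝ) ^ γ ≤ B0 ^ (-γ) * B0 ^ γ := by
            refine mul_le_mul (by rw [hC1]; exact min_le_right _ _) ?_ (by positivity) (by positivity)
            exact Real.rpow_le_rpow hP0.le hB (by linarith)
        _ = 1 := by rw [← Real.rpow_add hB00]; simp
        _ ≤ _ := hQ1
    · push Not at hB
      have hPd : 0 < (P : ℤ[X][X]).natDegree := by
        rcases Nat.eq_zero_or_pos (P : ℤ[X][X]).natDegree with h | h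
        · exact absurd (hdeg0 t P hPi h (fun j => (coeff_le_xd _ j).trans (hmem P).2) h1 hPv)
            (not_le.2 hB)
        · exact h
      have hQd : 0 < (Q : ℤ[X][X]).natDegree := by
        rcases Nat.eq_zero_or_pos (Q : ℤ[X][X]).natDegree with h | h
        · exact absurd (hdeg0 t Q hQi h (fun j => (coeff_le_xd _ j).trans (hmem Q).2) hQ1 hQv)
            (not_le.2 (hB.trans_le hle))
        · exact h
      have h3 := hgap t (ht.trans (le_max_right _ _)) P Q hPi hQi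
        (not_assoc _ _ hPl hQl fun h => hPQ (Subtype.ext h)) hPd hQd (hmem P).1 (hmem Q).1
        (hmem P).2 (hmem Q).2 (hgt (P : ℤ[X][X])) (hgt (Q : ℤ[X][X])) h1 hle (hcoef P) (hcoef Q)
        (by rw [evR_apply]; exact hPv) (by rw [evR_apply]; exact hQv)
      rw [← hN] at h3
      have hQ0 : (0 : ℝ) < hgt (Q : ℤ[X][X]) := by linarith
      have h4 : (c' * (hgt (P : ℤ[X][X]) : ℝ) ^ (w - (n - 1) - n * κ)) ^ (1 / N) ≤
          hgt (Q : ℤ[X][X]) := by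
        calc _ ≤ ((hgt (Q : ℤ[X][X]) : ℝ) ^ N) ^ (1 / N) :=
              Real.rpow_le_rpow (by positivity) h3 (by positivity)
          _ = _ := by rw [← Real.rpow_mul hQ0.le, mul_one_div_cancel hN0.ne', Real.rpow_one]
      rw [Real.mul_rpow hc'.le (by positivity), ← Real.rpow_mul hP0.le, mul_one_div, ← hγ] at h4
      refine le_trans ?_ h4
      exact mul_le_mul_of_nonneg_right (by rw [hC1]; exact min_le_left _ _) (by positivity)) X hX
  have himg : Near x m n t w X = (fun P : α => (P : ℤ[X][X])) '' {P ∈ S | (hgt (P : ℤ[X][X]) : ℝ) ≤ X} := by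
    ext P
    constructor
    · rintro ⟨h3, h4, h5, h6, h7, h8⟩
      have hPα : P ∈ α := by rw [hα]; exact ⟨h5, xd_le P m h6⟩
      exact ⟨⟨P, hPα⟩, ⟨by rw [hS]; exact ⟨h3, h4, h8⟩, h7⟩, rfl⟩
    · rintro ⟨Q, ⟨h3, h4⟩, rfl⟩
      rw [hS] at h3
      exact ⟨h3.1, h3.2.1, (hmem Q).1, fun j => (coeff_le_xd _ j).trans (hmem Q).2, h4, h3.2.2⟩
  rw [himg]
  refine ⟨h1.image _, ?_⟩
  rw [Set.ncard_image_of_injective _ Subtype.val_injective]
  exact h2

end Pool.Agent.R523.Gel
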