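import Pool.Agent.R523.LogA
import Pool.Agent.R523.NearB

/-!
# The transcendence measure with several embeddings
-/

set_option autoImplicit false

namespace Pool.Agent.R523.LM

open Polynomial Finset
open Pool.Agent.TH456.TM
open Pool.Agent.R356 (IsLen)

variable {O : Type} [CommRing O] {Λ : Type}

lemma isLen_emb (f : O →+* ℂ) : IsLen (fun z : O => ‖f z‖) where
  nonneg := fun _ => norm_nonneg _
  zero := by simp
  one := by simp
  neg := fun a => by simp
  add := fun a b => by simpa using norm_add_le (f a) (f b)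
  mul := fun a b => by simp

/-- the measure for polynomials with nonzero constant coefficient -/
theorem measure_auxK [Fintype Λ] (σ : Λ → (O →+* ℂ)) (s0 : Λ)
    (hσ : ∀ z : O, z ≠ 0 → 1 ≤ ∏ s, ‖σ s z‖)
    (θ : ℂ) (a b : O) (hb : b ≠ 0) (hab : σ s0 b * Complex.exp θ = σ s0 a) (D : ℕ) :
    ∃ κ c : ℝ, 0 ≤ κ ∧ 0 < c ∧ c ≤ 1 ∧ ∀ P : O[X], P.coeff 0 ≠ 0 → P.natDegree ≠ 0 →
      P.natDegree ≤ D → ∀ H : ℝ, 1 ≤ H → (∀ s j, ‖σ s (P.coeff j)‖ ≤ H) →
        c ≤ H ^ κ * ‖(P.map (σ s0)).eval θ‖ := by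
  classical
  obtain ⟨δ, hδ⟩ : ∃ δ, δ = Fintype.card Λ := ⟨_, rfl⟩
  have hδ1 : 1 ≤ δ := by rw [hδ]; exact Fintype.card_pos_iff.2 ⟨s0⟩
  have hinj : Function.Injective (σ s0) := by
    rw [injective_iff_map_eq_zero]
    intro z hz
    by_contra h
    have := hσ z h
    rw [Finset.prod_eq_zero (Finset.mem_univ s0) (by rw [hz, norm_zero])] at this
    linarith
  obtain ⟨n, C, K, hn, hC, hK, happ⟩ := approxK σ s0 θ a b
    (fun h => hb (hinj (by rw [h, map_zero]))) hab (D * δ)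
  have hDδ : D ≤ D * δ := Nat.le_mul_of_pos_right _ hδ1
  obtain ⟨T, hT⟩ : ∃ T, T = max 1 ‖θ‖ := ⟨_, rfl⟩
  have hT1 : 1 ≤ T := by rw [hT]; exact le_max_left _ _
  have hθT : ‖θ‖ ≤ T := by rw [hT]; exact le_max_right _ _
  obtain ⟨C₃, hC₃⟩ : ∃ C₃ : ℝ, C₃ = (D + n : ℕ) * T ^ (D + n) * (D + n).factorial := ⟨_, rfl⟩
  have hC₃1 : 1 ≤ C₃ := by
    rw [hC₃]
    have h1 : (1 : ℝ) ≤ (D + n : ℕ) := by exact_mod_cast (by omega : 1 ≤ D + n)
    have h2 : 1 ≤ T ^ (D + n) := one_le_pow₀ hT1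
    have h3 : (1 : ℝ) ≤ (D + n).factorial := by exact_mod_cast Nat.factorial_pos _
    have h4 : 1 ≤ ((D + n : ℕ) : ℝ) * T ^ (D + n) := by nlinarith
    nlinarith
  obtain ⟨F, hF⟩ : ∃ F : ℝ, F = ((D + n).factorial : ℝ) ^ (δ - 1) := ⟨_, rfl⟩
  have hF1 : 1 ≤ F := by
    rw [hF]
    exact one_le_pow₀ (by exact_mod_cast Nat.factorial_pos _)
  obtain ⟨A, hA⟩ : ∃ A : ℝ, A = F * C₃ * C ^ (D * δ + 1) := ⟨_, rfl⟩
  have hFC : 1 ≤ F * C₃ := by nlinarith
  have hA1 : 1 ≤ A := by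
    rw [hA]
    have : 1 ≤ C ^ (D * δ + 1) := one_le_pow₀ hC
    nlinarith
  have hlogA : 0 ≤ Real.log A := Real.log_nonneg hA1
  have hlogK : 0 ≤ Real.log K := Real.log_nonneg hK
  obtain ⟨c, hc⟩ : ∃ c : ℝ, c = 1 / (F * C₃ * C ^ (D * δ) *
    Real.exp ((Real.log A + 2) * (D * δ : ℕ) * Real.log K)) := ⟨_, rfl⟩
  have hden : 1 ≤ F * C₃ * C ^ (D * δ) * Real.exp ((Real.log A + 2) * (D * δ : ℕ) * Real.log K) := by
    have h1 : 1 ≤ C ^ (D * δ) := one_le_pow₀ hC
    have h2 : 1 ≤ Real.exp ((Real.log A + 2) * (D * δ : ℕ) * Real.log K) := Real.one_le_exp (by positivity)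
    have h3 : 1 ≤ F * C₃ * C ^ (D * δ) := by nlinarith
    nlinarith
  refine ⟨(n * δ : ℕ) + (n * δ : ℕ) * (D * δ : ℕ) * Real.log K, c, by positivity,
    by rw [hc]; positivity, by rw [hc]; exact (div_le_one (by linarith)).2 hden, ?_⟩
  intro P hP0 hPd hPD H hH hPH
  have hH0 : 0 < H := by linarith
  have hlogH : 0 ≤ Real.log H := Real.log_nonneg hH
  obtain ⟨m, hm⟩ : ∃ m : ℕ, m = ⌈Real.log A + (n * δ : ℕ) * Real.log H⌉₊ + 1 := ⟨_, rfl⟩
  have hm1 : 1 ≤ m := by omega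
  have hmlow : Real.log A + (n * δ : ℕ) * Real.log H < m := by
    have := Nat.le_ceil (Real.log A + (n * δ : ℕ) * Real.log H)
    rw [hm]; push_cast at this ⊢; linarith
  have hmup : (m : ℝ) ≤ Real.log A + (n * δ : ℕ) * Real.log H + 2 := by
    have := Nat.ceil_lt_add_one (a := Real.log A + (n * δ : ℕ) * Real.log H) (by positivity)
    rw [hm]; push_cast at this ⊢; linarith
  -- the roots
  have hP : P ≠ 0 := by
    rintro rfl; simp at hP0
  have hfne : P.map (σ s0) ≠ 0 := (Polynomial.map_ne_zero_iff hinj).2 hP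
  obtain ⟨B, hB1, hB2, hB3, hB4⟩ := happ m hm1 (P.map (σ s0)).roots.toFinset
    ((Multiset.toFinset_card_le _).trans ((Polynomial.card_roots' _).trans
      (natDegree_map_le.trans (hPD.trans hDδ))))
    (fun α hα => by
      rw [Multiset.mem_toFinset, mem_roots hfne, IsRoot.def] at hα
      rintro rfl
      rw [← coeff_zero_eq_eval_zero, coeff_map] at hα
      exact hP0 (hinj (by rw [hα, map_zero])))
  obtain ⟨K₀, hK₀⟩ : ∃ K₀, K₀ = C * K ^ m := ⟨_, rfl⟩
  rw [← hK₀] at hB2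
  have hK₀1 : 1 ≤ K₀ := by
    rw [hK₀]
    have : 1 ≤ K ^ m := one_le_pow₀ hK
    nlinarith
  have hK₀0 : 0 < K₀ := by linarith
  obtain ⟨d, hd⟩ : ∃ d, d = P.natDegree := ⟨_, rfl⟩
  obtain ⟨e, he⟩ : ∃ e, e = B.natDegree := ⟨_, rfl⟩
  rw [← hd] at hPd hPD
  rw [← he] at hB1
  have hfd : (P.map (σ s0)).natDegree = d := by rw [natDegree_map_eq_of_injective hinj, hd]
  have hgd : (B.map (σ s0)).natDegree = e := by rw [natDegree_map_eq_of_injective hinj, he]
  have hde : d + e ≤ D + n := by omega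
  -- coprimality
  have hcop : IsCoprime (P.map (σ s0)) (B.map (σ s0)) := by
    refine (Polynomial.isCoprime_iff_aeval_ne_zero_of_isAlgClosed ℂ ℂ _ _).2 fun z => ?_
    by_cases hz : aeval z (P.map (σ s0)) = 0
    · right
      rw [coe_aeval_eq_eval] at hz ⊢
      exact hB4 z (by
        rw [Multiset.mem_toFinset, mem_roots hfne, IsRoot.def]
        exact hz)
    · left; exact hz
  have hres : resultant (P.map (σ s0)) (B.map (σ s0)) d e ≠ 0 := by
    have := resultant_ne_zero _ _ hcop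
    rwa [hfd, hgd] at this
  obtain ⟨G, hG⟩ : ∃ G : ℝ, G = H ^ n * K₀ ^ D := ⟨_, rfl⟩
  have hHn : 1 ≤ H ^ n := one_le_pow₀ hH
  have hKD : 1 ≤ K₀ ^ D := one_le_pow₀ hK₀1
  have hG1 : 1 ≤ G := by rw [hG]; nlinarith
  have hG0 : 0 < G := by linarith
  obtain ⟨r, hr⟩ : ∃ r, r = resultant P B d e := ⟨_, rfl⟩
  have hr0 : r ≠ 0 := by
    intro h0
    apply hres
    rw [resultant_map_map, ← hr, h0, map_zero]
  have hrs : ∀ s, ‖σ s r‖ ≤ ((D + n).factorial : ℝ) * G := by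
    intro s
    have h1 := Pool.Agent.R523.Gel.res_len (isLen_emb (σ s)) P B d e H K₀ (hPH s) (hB2 s)
    rw [← hr] at h1
    refine h1.trans ?_
    have h4 : (((d + e).factorial : ℕ) : ℝ) ≤ (D + n).factorial := by
      exact_mod_cast Nat.factorial_le hde
    have h6 : H ^ e ≤ H ^ n := pow_le_pow_right₀ hH hB1
    have h7 : K₀ ^ d ≤ K₀ ^ D := pow_le_pow_right₀ hK₀1 hPD
    calc ((d + e).factorial : ℝ) * (K₀ ^ d * H ^ e) ≤ ((D + n).factorial : ℝ) * (K₀ ^ D * H ^ n) := by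
          gcongr
      _ = _ := by rw [hG]; ring
  have hres1 : 1 ≤ ‖resultant (P.map (σ s0)) (B.map (σ s0)) d e‖ * (F * G ^ (δ - 1)) := by
    have h1 := hσ r hr0
    rw [← Finset.mul_prod_erase univ _ (mem_univ s0)] at h1
    have h2 : ∏ s ∈ univ.erase s0, ‖σ s r‖ ≤ F * G ^ (δ - 1) := by
      calc ∏ s ∈ univ.erase s0, ‖σ s r‖ ≤ ∏ _s ∈ (univ : Finset Λ).erase s0,
            (((D + n).factorial : ℝ) * G) := Finset.prod_le_prod (fun s _ => norm_nonneg _)
              fun s _ => hrs s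
        _ = F * G ^ (δ - 1) := by
          rw [Finset.prod_const, Finset.card_erase_of_mem (mem_univ _), card_univ, ← hδ, mul_pow, hF]
    rw [resultant_map_map, ← hr]
    exact h1.trans (mul_le_mul_of_nonneg_left h2 (norm_nonneg _))
  -- the upper bound
  obtain ⟨ε, hε⟩ : ∃ ε, ε = max ‖(P.map (σ s0)).eval θ‖ ‖(B.map (σ s0)).eval θ‖ := ⟨_, rfl⟩
  have hε0 : 0 ≤ ε := by rw [hε]; exact (norm_nonneg _).trans (le_max_left _ _)
  have hscale : ‖resultant (Polynomial.C ((1 / H : ℝ) : ℂ) * P.map (σ s0))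
      (Polynomial.C ((1 / K₀ : ℝ) : ℂ) * B.map (σ s0)) d e‖ =
      (1 / H) ^ e * ((1 / K₀) ^ d * ‖resultant (P.map (σ s0)) (B.map (σ s0)) d e‖) := by
    rw [resultant_C_mul_left, resultant_C_mul_right, norm_mul, norm_mul, norm_pow, norm_pow,
      Complex.norm_real, Complex.norm_real, Real.norm_of_nonneg (by positivity),
      Real.norm_of_nonneg (by positivity)]
  have hup := Pool.Agent.TH647.NR.norm_resultant_le (Polynomial.C ((1 / H : ℝ) : ℂ) * P.map (σ s0))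
    (Polynomial.C ((1 / K₀ : ℝ) : ℂ) * B.map (σ s0)) d e ((natDegree_C_mul_le _ _).trans hfd.le)
    ((natDegree_C_mul_le _ _).trans hgd.le) (by omega) 1 T ε le_rfl
    (fun i => by
      rw [coeff_C_mul, coeff_map, norm_mul, Complex.norm_real, Real.norm_of_nonneg (by positivity),
        div_mul_eq_mul_div, one_mul, div_le_one hH0]
      exact hPH s0 i)
    (fun i => by
      rw [coeff_C_mul, coeff_map, norm_mul, Complex.norm_real, Real.norm_of_nonneg (by positivity),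
        div_mul_eq_mul_div, one_mul, div_le_one hK₀0]
      exact hB2 s0 i) θ hT1 hθT
    (by
      rw [eval_mul, eval_C, norm_mul, Complex.norm_real, Real.norm_of_nonneg (by positivity),
        div_mul_eq_mul_div, one_mul, div_le_iff₀ hH0]
      have h1 : ‖(P.map (σ s0)).eval θ‖ ≤ ε := by rw [hε]; exact le_max_left _ _
      nlinarith)
    (by
      rw [eval_mul, eval_C, norm_mul, Complex.norm_real, Real.norm_of_nonneg (by positivity),
        div_mul_eq_mul_div, one_mul, div_le_iff₀ hK₀0]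
      have h1 : ‖(B.map (σ s0)).eval θ‖ ≤ ε := by rw [hε]; exact le_max_right _ _
      nlinarith)
  rw [hscale, one_pow, mul_one] at hup
  obtain ⟨ρ, hρ⟩ : ∃ ρ, ρ = ‖resultant (P.map (σ s0)) (B.map (σ s0)) d e‖ := ⟨_, rfl⟩
  rw [← hρ] at hres1 hup
  have hρ0 : 0 ≤ ρ := by rw [hρ]; positivity
  have hρup : ρ ≤ G * (C₃ * ε) := by
    have h1 : ((d : ℝ) + e) * (T ^ (d + e) * ε) * (d + e).factorial ≤ C₃ * ε := by
      rw [hC₃]
      have h2 : ((d : ℝ) + e) ≤ (D + n : ℕ) := by exact_mod_cast hde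
      have h3 : T ^ (d + e) ≤ T ^ (D + n) := pow_le_pow_right₀ hT1 hde
      have h4 : (((d + e).factorial : ℕ) : ℝ) ≤ (D + n).factorial := by
        exact_mod_cast Nat.factorial_le hde
      calc ((d : ℝ) + e) * (T ^ (d + e) * ε) * (d + e).factorial
          ≤ (D + n : ℕ) * (T ^ (D + n) * ε) * (D + n).factorial := by gcongr
        _ = _ := by ring
    have h5 : (1 / H) ^ e * ((1 / K₀) ^ d * ρ) ≤ C₃ * ε := hup.trans h1
    have h6 : H ^ e ≤ H ^ n := pow_le_pow_right₀ hH hB1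
    have h7 : K₀ ^ d ≤ K₀ ^ D := pow_le_pow_right₀ hK₀1 hPD
    have hce : 0 ≤ C₃ * ε := by positivity
    calc ρ = H ^ e * K₀ ^ d * ((1 / H) ^ e * ((1 / K₀) ^ d * ρ)) := by
          rw [one_div, one_div, inv_pow, inv_pow]
          field_simp
      _ ≤ H ^ n * K₀ ^ D * (C₃ * ε) := by gcongr
      _ = _ := by rw [hG]
  have hup2 : 1 ≤ G ^ δ * (F * C₃ * ε) := by
    have h1 : G ^ δ = G * G ^ (δ - 1) := by
      rw [← pow_succ', Nat.sub_add_cancel hδ1]
    have hGp : 0 ≤ F * G ^ (δ - 1) := by positivity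
    calc (1 : ℝ) ≤ ρ * (F * G ^ (δ - 1)) := hres1
      _ ≤ (G * (C₃ * ε)) * (F * G ^ (δ - 1)) := mul_le_mul_of_nonneg_right hρup hGp
      _ = _ := by rw [h1]; ring
  have hGδ : G ^ δ = H ^ (n * δ) * (C ^ (D * δ) * (K ^ (D * δ)) ^ m) := by
    rw [hG, mul_pow, ← pow_mul, ← pow_mul, hK₀, mul_pow, ← pow_mul, ← pow_mul, mul_comm m (D * δ)]
  rcases le_total ‖(P.map (σ s0)).eval θ‖ ‖(B.map (σ s0)).eval θ‖ with hle | hle
  · exfalso
    rw [max_eq_right hle] at hε
    have h1 : G ^ δ * (F * C₃ * ε) ≤ A * (H ^ (n * δ) * Real.exp (-m)) := by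
      rw [hGδ, hε, hA]
      calc H ^ (n * δ) * (C ^ (D * δ) * (K ^ (D * δ)) ^ m) * (F * C₃ * ‖(B.map (σ s0)).eval θ‖)
          = H ^ (n * δ) * C ^ (D * δ) * (F * C₃) *
            (‖(B.map (σ s0)).eval θ‖ * (K ^ (D * δ)) ^ m) := by ring
        _ ≤ H ^ (n * δ) * C ^ (D * δ) * (F * C₃) * (C * Real.exp (-m)) := by gcongr
        _ = _ := by ring
    have h2 : A * (H ^ (n * δ) * Real.exp (-m)) < 1 := by
      have h3 : A * H ^ (n * δ) = Real.exp (Real.log A + (n * δ : ℕ) * Real.log H) := by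
        rw [Real.exp_add, Real.exp_log (by linarith), Real.exp_nat_mul, Real.exp_log hH0]
      rw [← mul_assoc, h3, ← Real.exp_add, Real.exp_lt_one_iff]
      linarith
    linarith
  · rw [max_eq_left hle] at hε
    rw [← hε]
    obtain ⟨N, hN⟩ : ∃ N : ℕ, N = n * δ := ⟨_, rfl⟩
    obtain ⟨E, hE⟩ : ∃ E : ℕ, E = D * δ := ⟨_, rfl⟩
    rw [← hN, ← hE]
    rw [← hN] at hmup
    rw [← hE] at hc hden
    rw [← hN, ← hE] at hGδ
    have h1 : (K ^ E) ^ m ≤ Real.exp ((Real.log A + 2) * E * Real.log K) *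
        H ^ ((N : ℝ) * E * Real.log K) := by
      have h2 : (K ^ E) ^ m = Real.exp (m * (E * Real.log K)) := by
        rw [Real.exp_nat_mul, Real.exp_nat_mul, Real.exp_log (by linarith)]
      have h3 : H ^ ((N : ℝ) * E * Real.log K) = Real.exp (Real.log H * (N * E * Real.log K)) := by
        rw [Real.rpow_def_of_pos hH0]
      rw [h2, h3, ← Real.exp_add]
      apply Real.exp_le_exp.2
      have h4 : 0 ≤ (E : ℝ) * Real.log K := by positivity
      nlinarith
    have h5 : H ^ ((N : ℝ) + N * E * Real.log K) = H ^ N * H ^ ((N : ℝ) * E * Real.log K) := by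
      rw [Real.rpow_add hH0, Real.rpow_natCast]
    rw [hc, div_le_iff₀ (by linarith), h5]
    calc (1 : ℝ) ≤ G ^ δ * (F * C₃ * ε) := hup2
      _ = H ^ N * C ^ E * (F * C₃ * ε) * (K ^ E) ^ m := by rw [hGδ]; ring
      _ ≤ H ^ N * C ^ E * (F * C₃ * ε) * (Real.exp ((Real.log A + 2) * E * Real.log K) *
          H ^ ((N : ℝ) * E * Real.log K)) := by gcongr
      _ = _ := by ring

/-- **Transcendence measure** of `θ ≠ 0` with `e^θ` in the fraction field of `O` -/
theorem measureK [Fintype Λ] (σ : Λ → (O →+* ℂ)) (s0 : Λ)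
    (hσ : ∀ z : O, z ≠ 0 → 1 ≤ ∏ s, ‖σ s z‖) (hZ : ∀ z : ℤ, (z : O) = 0 → z = 0)
    (θ : ℂ) (hθ : θ ≠ 0) (a b : O)
    (hb : b ≠ 0) (hab : σ s0 b * Complex.exp θ = σ s0 a) : MeasT θ := by
  intro D
  obtain ⟨κ, c, hκ, hc, hc1, h⟩ := measure_auxK σ s0 hσ θ a b hb hab D
  obtain ⟨μ, hμ⟩ : ∃ μ, μ = min 1 ‖θ‖ := ⟨_, rfl⟩
  have hμ0 : 0 < μ := by rw [hμ]; exact lt_min one_pos (norm_pos_iff.2 hθ)
  have hμ1 : μ ≤ 1 := by rw [hμ]; exact min_le_left _ _
  have hμθ : μ ≤ ‖θ‖ := by rw [hμ]; exact min_le_right _ _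
  have hinjZ : Function.Injective (Int.castRingHom O) := by
    rw [injective_iff_map_eq_zero]
    intro z hz
    exact hZ z (by simpa using hz)
  refine ⟨κ, c * μ ^ D, hκ, by positivity, ?_⟩
  have key : ∀ d : ℕ, ∀ P : ℤ[X], P ≠ 0 → P.natDegree = d → d ≤ D →
      ∀ H : ℝ, 1 ≤ H → (∀ j, |(P.coeff j : ℝ)| ≤ H) → c * μ ^ d ≤ H ^ κ * ‖aeval θ P‖ := by
    intro d
    induction d with
    | zero =>
      intro P hP hPd _ H hH _
      obtain ⟨p, rfl⟩ : ∃ p, P = C p := ⟨P.coeff 0, eq_C_of_natDegree_eq_zero hPd⟩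
      rw [aeval_C, pow_zero, mul_one, algebraMap_int_eq, eq_intCast, Complex.norm_intCast]
      have hp : p ≠ 0 := fun h => hP (by rw [h, C_0])
      have h1 : (1 : ℝ) ≤ |(p : ℝ)| := by exact_mod_cast Int.one_le_abs hp
      have h2 : 1 ≤ H ^ κ := Real.one_le_rpow hH hκ
      nlinarith
    | succ d ih =>
      intro P hP hPd hdD H hH hPH
      by_cases h0 : P.coeff 0 = 0
      · have h1 : P.divX * X = P := by
          have := P.divX_mul_X_add
          rw [h0, C_0, add_zero] at this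
          exact this
        have h2 : P.divX ≠ 0 := by
          intro h2; rw [h2, zero_mul] at h1; exact hP h1.symm
        have h3 : P.divX.natDegree = d := by
          have := P.natDegree_divX_eq_natDegree_tsub_one
          omega
        have h4 := ih P.divX h2 h3 (by omega) H hH (fun j => by rw [coeff_divX]; exact hPH (j + 1))
        rw [← h1, map_mul, aeval_X, norm_mul, pow_succ]
        have h5 : 0 ≤ H ^ κ * ‖aeval θ P.divX‖ := by positivity
        calc c * (μ ^ d * μ) = (c * μ ^ d) * μ := by ring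
          _ ≤ (H ^ κ * ‖aeval θ P.divX‖) * ‖θ‖ := by gcongr
          _ = _ := by ring
      · have h1 := h (P.map (Int.castRingHom O)) (by
            rw [coeff_map]
            intro h2
            exact h0 (hinjZ (by rw [h2, map_zero])))
          (by rw [natDegree_map_eq_of_injective hinjZ]; omega)
          (by rw [natDegree_map_eq_of_injective hinjZ]; omega) H hH (fun s j => by
            rw [coeff_map, eq_intCast, map_intCast, Complex.norm_intCast]
            exact hPH j)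
        have h2 : ((P.map (Int.castRingHom O)).map (σ s0)).eval θ = aeval θ P := by
          rw [Polynomial.map_map, eval_map, aeval_def]
          congr 1
          exact RingHom.ext_int _ _
        rw [h2] at h1
        refine le_trans ?_ h1
        have : μ ^ (d + 1) ≤ 1 := pow_le_one₀ hμ0.le hμ1
        nlinarith
  intro P hP hPD H hH hPH
  refine le_trans ?_ (key P.natDegree P hP rfl hPD H hH hPH)
  have : μ ^ D ≤ μ ^ P.natDegree := pow_le_pow_of_le_one hμ0.le hμ1 hPD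
  gcongr

end Pool.Agent.R523.LM
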