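import Pool.Agent.R523.LogB

/-!
# Transcendence measures of logarithms of arbitrary algebraic numbers
-/

set_option autoImplicit false

namespace Pool.Agent.R523.LM

open Polynomial Finset NumberField
open Pool.Agent.TH456.TM

/-- Every nonzero complex number `θ` with `e^θ` algebraic has, in every degree, a transcendence
measure which is polynomial in the height. -/
theorem measT_of_exp (θ : ℂ) (hθ : θ ≠ 0) (h : IsAlgebraic ℚ (Complex.exp θ)) : MeasT θ := by
  classical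
  obtain ⟨α, hα⟩ : ∃ α, α = Complex.exp θ := ⟨_, rfl⟩
  rw [← hα] at h
  have hint : IsIntegral ℚ α := h.isIntegral
  let K : IntermediateField ℚ ℂ := IntermediateField.adjoin ℚ ({α} : Set ℂ)
  haveI hfd : FiniteDimensional ℚ K := IntermediateField.adjoin.finiteDimensional hint
  haveI hnf : NumberField K := { to_charZero := inferInstance, to_finiteDimensional := hfd }
  let g : K := ⟨α, IntermediateField.mem_adjoin_simple_self ℚ α⟩
  have hgalg : IsAlgebraic ℤ g := by
    have h1 : IsAlgebraic ℚ g := Algebra.IsAlgebraic.isAlgebraic g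
    exact (IsFractionRing.isAlgebraic_iff ℤ ℚ K).2 h1
  obtain ⟨y, hy, hyg⟩ := hgalg.exists_integral_multiple
  let a : 𝓞 K := ⟨y • g, hyg⟩
  let b : 𝓞 K := (y : 𝓞 K)
  have hbne : b ≠ 0 := by
    show ((y : ℤ) : 𝓞 K) ≠ 0
    exact_mod_cast hy
  refine measureK (O := 𝓞 K) (Λ := K →ₐ[ℚ] ℂ)
    (fun s => (s : K →+* ℂ).comp (algebraMap (𝓞 K) K)) K.val ?_ ?_ θ hθ a b hbne ?_
  · intro z hz
    have hz0 : (z : K) ≠ 0 := by simpa using hz
    have h1 := Algebra.norm_eq_prod_embeddings ℚ ℂ (z : K)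
    have h2 : IsIntegral ℤ (Algebra.norm ℚ (z : K)) := Algebra.isIntegral_norm ℚ z.isIntegral_coe
    obtain ⟨N, hN⟩ := IsIntegrallyClosed.isIntegral_iff.1 h2
    have h3 : Algebra.norm ℚ (z : K) ≠ 0 := Algebra.norm_ne_zero_iff.2 hz0
    have hN0 : N ≠ 0 := by
      rintro rfl
      apply h3
      rw [← hN, map_zero]
    have h4 : ∏ s : K →ₐ[ℚ] ℂ, ‖((s : K →+* ℂ).comp (algebraMap (𝓞 K) K)) z‖ =
        ‖∏ s : K →ₐ[ℚ] ℂ, s (z : K)‖ := by
      rw [norm_prod]
      rfl
    rw [h4, ← h1, ← hN]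
    have h5 : (algebraMap ℚ ℂ) ((algebraMap ℤ ℚ) N) = ((N : ℤ) : ℂ) := by simp
    rw [h5, Complex.norm_intCast]
    exact_mod_cast Int.one_le_abs hN0
  · intro z hz
    exact_mod_cast hz
  · show (K.val : K →+* ℂ) ((algebraMap (𝓞 K) K) b) * Complex.exp θ =
      (K.val : K →+* ℂ) ((algebraMap (𝓞 K) K) a)
    have h1 : (algebraMap (𝓞 K) K) b = (y : K) := by
      show (algebraMap (𝓞 K) K) ((y : ℤ) : 𝓞 K) = _
      rw [map_intCast]
    have h2 : (algebraMap (𝓞 K) K) a = y • g := rfl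
    rw [h1, h2, ← hα, map_intCast, zsmul_eq_mul, map_mul, map_intCast]
    rfl

end Pool.Agent.R523.LM
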