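import Pool.Agent.R523.LogC

/-!
# Two numbers, the first of which has a transcendence measure: windows without small values
-/

set_option autoImplicit false

namespace Pool.Agent.R523.LM

open Polynomial Finset
open Pool.Agent.TH456.TM
open Pool.Agent.R523.Gel
open Pool.Agent.R356 (IsLen isLen_int)

/-- lower bound for the nonzero values, if there is a relation -/
theorem rel_lower (x t : ℂ) (m n : ℕ) (hn : 1 ≤ n) (κ c : ℝ) (hκ : 0 ≤ κ) (hc : 0 < c)
    (hmeas : ∀ R : ℤ[X], R ≠ 0 → R.natDegree ≤ 2 * n * m → ∀ H : ℝ, 1 ≤ H →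
      (∀ k, |(R.coeff k : ℝ)| ≤ H) → c ≤ H ^ κ * ‖aeval x R‖)
    (F : ℤ[X][X]) (hF : Irreducible F) (hFn : F.natDegree ≤ n) (hFm : xd F ≤ m)
    (hF0 : evR x t F = 0) :
    ∃ c' : ℝ, 0 < c' ∧ ∀ P : ℤ[X][X], P.natDegree ≤ n → xd P ≤ m → ∀ H : ℝ, 1 ≤ H →
      (∀ j k, |(((P.coeff j).coeff k : ℤ) : ℝ)| ≤ H) →
      evR x t P = 0 ∨ c' ≤ H ^ (n * (1 + κ)) * ‖evR x t P‖ := by
  obtain ⟨T, hT⟩ : ∃ T : ℝ, T = max 1 ‖t‖ := ⟨_, rfl⟩
  have hT1 : 1 ≤ T := by rw [hT]; exact le_max_left _ _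
  have ht : ‖t‖ ≤ T := by rw [hT]; exact le_max_right _ _
  obtain ⟨T1, hT1'⟩ : ∃ T1 : ℝ, T1 = max 1 ‖x‖ := ⟨_, rfl⟩
  have hT11 : 1 ≤ T1 := by rw [hT1']; exact le_max_left _ _
  obtain ⟨A0, hA0⟩ : ∃ A0 : ℝ, A0 = (m + 1) * T1 ^ m := ⟨_, rfl⟩
  have hmR : (0 : ℝ) ≤ m := Nat.cast_nonneg m
  have hA01 : 1 ≤ A0 := by
    rw [hA0]
    exact one_le_mul_of_one_le_of_one_le (by linarith) (one_le_pow₀ hT11)
  obtain ⟨G, hG⟩ : ∃ G : ℝ, G = (2 * n) * T ^ (2 * n) * ((2 * n).factorial * A0 ^ (2 * n)) :=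
    ⟨_, rfl⟩
  have hnR : (1 : ℝ) ≤ n := by exact_mod_cast hn
  have hG0 : 0 < G := by rw [hG]; positivity
  obtain ⟨G', hG'⟩ : ∃ G' : ℝ, G' = (2 * n).factorial * (m + 1 : ℝ) ^ (2 * n) := ⟨_, rfl⟩
  have hG'1 : 1 ≤ G' := by
    rw [hG']
    have h1 : (1 : ℝ) ≤ ((2 * n).factorial : ℝ) := by exact_mod_cast Nat.factorial_pos (2 * n)
    exact one_le_mul_of_one_le_of_one_le h1 (one_le_pow₀ (by linarith))
  -- the height of `F`
  have hcoef : ∀ (P : ℤ[X][X]) (j k : ℕ), |(((P.coeff j).coeff k : ℤ) : ℝ)| ≤ hgt P := by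
    intro P j k
    have h2 := le_hgt P j k
    have h3 : |(((P.coeff j).coeff k : ℤ) : ℝ)| = (((P.coeff j).coeff k).natAbs : ℝ) := by
      rw [Nat.cast_natAbs, Int.cast_abs]
    rw [h3]
    exact_mod_cast h2
  obtain ⟨H₁, hH₁⟩ : ∃ H₁ : ℝ, H₁ = max 1 (hgt F : ℝ) := ⟨_, rfl⟩
  have hH1 : 1 ≤ H₁ := by rw [hH₁]; exact le_max_left _ _
  have hFH : ∀ j k, |(((F.coeff j).coeff k : ℤ) : ℝ)| ≤ H₁ := fun j k => by
    rw [hH₁]; exact (hcoef F j k).trans (le_max_right _ _)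
  have hH10 : 0 < H₁ := by linarith
  -- the degree of `F`
  have hFd : 0 < F.natDegree := by
    rcases Nat.eq_zero_or_pos F.natDegree with h | h
    · exfalso
      obtain ⟨q, hq⟩ : ∃ q : ℤ[X], F = C q := ⟨F.coeff 0, eq_C_of_natDegree_eq_zero h⟩
      have hq0 : q ≠ 0 := by
        rintro rfl
        exact hF.ne_zero (by rw [hq, C_0])
      have hqm : q.natDegree ≤ m := by
        have := (coeff_le_xd F 0).trans hFm
        rwa [hq, coeff_C_zero] at this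
      have hval : evR x t F = aeval x q := by
        rw [hq]
        unfold evR σx
        simp
      have h1 := hmeas q hq0 (by nlinarith) H₁ hH1 (fun k => by
        have := hFH 0 k
        rwa [hq, coeff_C_zero] at this)
      rw [← hval, hF0, norm_zero, mul_zero] at h1
      linarith
    · exact h
  refine ⟨c / (G' ^ κ * (H₁ ^ (n * κ) * (G * H₁ ^ n))), by positivity, ?_⟩
  intro P hPn hPm H hH hPH
  have hH0 : 0 < H := by linarith
  by_cases hdvd : F ∣ P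
  · left
    obtain ⟨Q, hQ⟩ := hdvd
    rw [hQ, map_mul, hF0, zero_mul]
  right
  obtain ⟨a, ha⟩ : ∃ a, a = P.natDegree := ⟨_, rfl⟩
  obtain ⟨b, hb⟩ : ∃ b, b = F.natDegree := ⟨_, rfl⟩
  have hres := res_ne P F hF hFd hdvd
  rw [← ha, ← hb] at hres
  have hab : a + b ≤ 2 * n := by omega
  have hab0 : 0 < a + b := by omega
  have han : a ≤ n := by omega
  have hbn : b ≤ n := by omega
  obtain ⟨R, hR⟩ : ∃ R, R = resultant P F a b := ⟨_, rfl⟩
  rw [← hR] at hres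
  -- degree
  obtain ⟨N, hN⟩ : ∃ N : ℤ, 0 ≤ N ∧ (∀ j k, |(P.coeff j).coeff k| ≤ N) ∧
      ∀ j k, |(F.coeff j).coeff k| ≤ N := by
    refine ⟨⌊max H H₁⌋, Int.floor_nonneg.2 (hH0.le.trans (le_max_left _ _)), fun j k => ?_,
      fun j k => ?_⟩
    · rw [Int.le_floor]; exact_mod_cast (hPH j k).trans (le_max_left _ _)
    · rw [Int.le_floor]; exact_mod_cast (hFH j k).trans (le_max_right _ _)
  obtain ⟨hRdeg, -⟩ := Pool.Agent.TH647.NR.resultant_bounds P F a b m N hN.1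
    (fun j => (coeff_le_xd P j).trans hPm) (fun j => (coeff_le_xd F j).trans hFm) hN.2.1 hN.2.2
  rw [← hR] at hRdeg
  -- coefficients
  have hRc : ∀ k, |((R.coeff k : ℤ) : ℝ)| ≤ G' * (H₁ * H) ^ n := by
    intro k
    have h1 := Pool.Agent.R356.le_len isLen_int R k
    refine h1.trans ?_
    have h2 := res_len isLen_int.poly P F a b ((m + 1) * H) ((m + 1) * H₁)
      (fun j => Pool.Agent.R523.Gel.len_le m _ ((coeff_le_xd P j).trans hPm) H (hPH j))
      (fun j => Pool.Agent.R523.Gel.len_le m _ ((coeff_le_xd F j).trans hFm) H₁ (hFH j))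
    rw [← hR] at h2
    refine h2.trans ?_
    have h3 : ((a + b).factorial : ℝ) ≤ ((2 * n).factorial : ℝ) := by
      exact_mod_cast Nat.factorial_le hab
    have h4 : ((m + 1 : ℝ) * H₁) ^ a ≤ ((m + 1) * H₁) ^ n := pow_le_pow_right₀ (by nlinarith) han
    have h5 : ((m + 1 : ℝ) * H) ^ b ≤ ((m + 1) * H) ^ n := pow_le_pow_right₀ (by nlinarith) hbn
    calc ((a + b).factorial : ℝ) * (((m + 1) * H₁) ^ a * ((m + 1) * H) ^ b) ≤
          ((2 * n).factorial : ℝ) * (((m + 1) * H₁) ^ n * ((m + 1) * H) ^ n) := by gcongr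
      _ = G' * (H₁ * H) ^ n := by
          rw [hG', mul_pow, mul_pow, mul_pow, show 2 * n = n + n by ring, pow_add]
          ring
  have hHH : 1 ≤ G' * (H₁ * H) ^ n :=
    one_le_mul_of_one_le_of_one_le hG'1 (one_le_pow₀ (one_le_mul_of_one_le_of_one_le hH1 hH))
  have hm := hmeas R hres (hRdeg.trans (Nat.mul_le_mul_right m hab)) _ hHH hRc
  -- the value
  obtain ⟨ε, hε⟩ : ∃ ε : ℝ, ε = ‖evR x t P‖ * (1 / H) := ⟨_, rfl⟩
  have hε0 : 0 ≤ ε := by rw [hε]; positivity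
  have hval : ‖aeval x R‖ ≤ G * ε * (H ^ n * H₁ ^ n) := by
    have h1 : aeval x R = resultant (P.map (σx x)) (F.map (σx x)) a b := by
      rw [resultant_map_map, hR]
      rfl
    have hcf : ∀ F : ℤ[X][X], xd F ≤ m → ∀ H : ℝ, (∀ j k, |(((F.coeff j).coeff k : ℤ) : ℝ)| ≤ H) →
        ∀ i, ‖(F.map (σx x)).coeff i‖ ≤ A0 * H := by
      intro F hF H hF' i
      rw [coeff_map, hA0, hT1']
      have := aeval_le x m (F.coeff i) ((coeff_le_xd F i).trans hF) H (hF' i)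
      calc ‖σx x (F.coeff i)‖ ≤ (m + 1) * H * max 1 ‖x‖ ^ m := this
        _ = _ := by ring
    have hevl : ∀ F : ℤ[X][X], (F.map (σx x)).eval t = evR x t F := by
      intro F
      rw [evR_apply]
      rfl
    have h2 := res_le (C ((1 / H : ℝ) : ℂ) * P.map (σx x)) (C ((1 / H₁ : ℝ) : ℂ) * F.map (σx x)) a b
      ((natDegree_C_mul_le _ _).trans (natDegree_map_le.trans ha.ge))
      ((natDegree_C_mul_le _ _).trans (natDegree_map_le.trans hb.ge)) hab0 A0 T ε hA01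
      (fun i => by
        rw [coeff_C_mul, norm_mul, Complex.norm_real, Real.norm_of_nonneg (by positivity),
          div_mul_eq_mul_div, one_mul, div_le_iff₀ hH0]
        exact hcf P hPm H hPH i)
      (fun i => by
        rw [coeff_C_mul, norm_mul, Complex.norm_real, Real.norm_of_nonneg (by positivity),
          div_mul_eq_mul_div, one_mul, div_le_iff₀ hH10]
        exact hcf F hFm H₁ hFH i) t hT1 ht
      (by
        rw [eval_mul, eval_C, norm_mul, Complex.norm_real, Real.norm_of_nonneg (by positivity),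
          hevl, hε, mul_comm])
      (by
        rw [eval_mul, hevl, hF0, mul_zero, norm_zero]
        exact hε0)
    rw [resultant_C_mul_left, resultant_C_mul_right, norm_mul, norm_mul, norm_pow, norm_pow,
      Complex.norm_real, Complex.norm_real, Real.norm_of_nonneg (by positivity),
      Real.norm_of_nonneg (by positivity), ← h1] at h2
    have h3 : ((a : ℝ) + b) ≤ 2 * n := by exact_mod_cast hab
    have h4 : T ^ (a + b) ≤ T ^ (2 * n) := pow_le_pow_right₀ hT1 hab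
    have h5 : ((a + b).factorial : ℝ) ≤ ((2 * n).factorial : ℝ) := by
      exact_mod_cast Nat.factorial_le hab
    have h6 : A0 ^ (a + b - 1) ≤ A0 ^ (2 * n) := pow_le_pow_right₀ hA01 (by omega)
    have h7 : ((a : ℝ) + b) * (T ^ (a + b) * ε) * ((a + b).factorial * A0 ^ (a + b - 1)) ≤ G * ε := by
      calc _ ≤ (2 * n) * (T ^ (2 * n) * ε) * ((2 * n).factorial * A0 ^ (2 * n)) := by gcongr
        _ = _ := by rw [hG]; ring
    have h8 := h2.trans h7
    have h9 : (1 / H) ^ b * ((1 / H₁) ^ a * ‖aeval x R‖) * (H ^ b * H₁ ^ a) = ‖aeval x R‖ := by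
      rw [one_div, one_div, inv_pow, inv_pow]
      field_simp
    rw [← h9]
    have h10 : H ^ b * H₁ ^ a ≤ H ^ n * H₁ ^ n :=
      mul_le_mul (pow_le_pow_right₀ hH hbn) (pow_le_pow_right₀ hH1 han) (by positivity)
        (by positivity)
    exact mul_le_mul h8 h10 (by positivity) (by positivity)
  -- conclusion
  have e1 : (G' * (H₁ * H) ^ n) ^ κ = G' ^ κ * (H₁ ^ (n * κ) * H ^ (n * κ)) := by
    rw [Real.mul_rpow (by linarith) (by positivity), mul_pow, Real.mul_rpow (by positivity)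
      (by positivity), ← Real.rpow_natCast H₁, ← Real.rpow_natCast H, ← Real.rpow_mul hH10.le,
      ← Real.rpow_mul hH0.le]
  have e3 : H ^ (n * (1 + κ)) = H ^ n * H ^ (n * κ) := by
    rw [← Real.rpow_natCast H n, ← Real.rpow_add hH0]
    congr 1
    ring
  have hε1 : ε ≤ ‖evR x t P‖ := by
    rw [hε]
    have : 1 / H ≤ 1 := by rw [div_le_one hH0]; exact hH
    exact mul_le_of_le_one_right (norm_nonneg _) this
  rw [div_le_iff₀ (by positivity)]
  calc c ≤ (G' * (H₁ * H) ^ n) ^ κ * ‖aeval x R‖ := hm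
    _ ≤ (G' ^ κ * (H₁ ^ (n * κ) * H ^ (n * κ))) * (G * ‖evR x t P‖ * (H ^ n * H₁ ^ n)) := by
        rw [e1]
        refine mul_le_mul_of_nonneg_left (hval.trans ?_) (by positivity)
        gcongr
    _ = _ := by rw [e3]; ring

/-- a relation has an irreducible factor which is a relation -/
lemma exists_irr_rel (x t : ℂ) (m n : ℕ) (B : ℤ[X][X]) (hB : B ≠ 0) (hBn : B.natDegree ≤ n)
    (hBm : xd B ≤ m) (h : evR x t B = 0) :
    ∃ F : ℤ[X][X], Irreducible F ∧ F.natDegree ≤ n ∧ xd F ≤ m ∧ evR x t F = 0 := by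
  obtain ⟨f, hf, u, hu⟩ := UniqueFactorizationMonoid.exists_prime_factors B hB
  have h1 : evR x t f.prod = 0 := by
    rw [← hu, map_mul] at h
    refine (mul_eq_zero.1 h).resolve_right fun h => ?_
    have h2 : IsUnit (evR x t (u : ℤ[X][X])) := u.isUnit.map (evR x t)
    exact h2.ne_zero h
  rw [map_multiset_prod, Multiset.prod_eq_zero_iff, Multiset.mem_map] at h1
  obtain ⟨F, hF, hF0⟩ := h1
  have hdvd : F ∣ B := by
    rw [← hu]
    exact (Multiset.dvd_prod hF).mul_right _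
  obtain ⟨Q, hQ⟩ := hdvd
  have hF0' : F ≠ 0 := (hf F hF).ne_zero
  have hQ0 : Q ≠ 0 := by
    rintro rfl
    exact hB (by rw [hQ, mul_zero])
  refine ⟨F, (hf F hF).irreducible, ?_, ?_, hF0⟩
  · have := natDegree_mul hF0' hQ0
    rw [← hQ] at this
    omega
  · have := xd_mul F Q hF0' hQ0
    rw [← hQ] at this
    omega

/-- **Windows without small values.** -/
theorem windows (x t : ℂ) (m n : ℕ) (hn : 1 ≤ n) (κ c : ℝ) (hκ : 0 ≤ κ) (hc : 0 < c)
    (hmeas : ∀ R : ℤ[X], R ≠ 0 → R.natDegree ≤ 2 * n * m → ∀ H : ℝ, 1 ≤ H →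
      (∀ k, |(R.coeff k : ℝ)| ≤ H) → c ≤ H ^ κ * ‖aeval x R‖)
    (l w : ℝ) (hl : 1 ≤ l) (hw : l * (2 * n * (1 + κ)) < w) (X₀ : ℝ) :
    ∃ X : ℝ, X₀ ≤ X ∧ ∀ H : ℝ, X ≤ H → H ≤ X ^ l → ∀ P : ℤ[X][X], P.natDegree ≤ n → xd P ≤ m →
      (∀ j k, |(((P.coeff j).coeff k : ℤ) : ℝ)| ≤ H) → evR x t P = 0 ∨ H ^ (-w) < ‖evR x t P‖ := by
  have hnR : (1 : ℝ) ≤ n := by exact_mod_cast hn
  have hnκ : 0 ≤ (n : ℝ) * κ := by positivity
  have hW : 2 * (n : ℝ) * (1 + κ) ≤ l * (2 * n * (1 + κ)) :=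
    le_mul_of_one_le_left (by positivity) hl
  have hl0 : 0 < l := by linarith
  have hw0 : 0 < w := by nlinarith
  by_cases hrel : ∃ B : ℤ[X][X], B ≠ 0 ∧ B.natDegree ≤ n ∧ xd B ≤ m ∧ evR x t B = 0
  · obtain ⟨B, hB, hBn, hBm, hB0⟩ := hrel
    obtain ⟨F, hF, hFn, hFm, hF0⟩ := exists_irr_rel x t m n B hB hBn hBm hB0
    obtain ⟨c', hc', h⟩ := rel_lower x t m n hn κ c hκ hc hmeas F hF hFn hFm hF0
    obtain ⟨X1, hX1, hX1'⟩ := large (1 / c') (w - n * (1 + κ)) (by nlinarith)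
    refine ⟨max X₀ X1, le_max_left _ _, fun H hH _ P hPn hPm hPH => ?_⟩
    have hHX1 : X1 ≤ H := (le_max_right _ _).trans hH
    have hH1 : 1 ≤ H := hX1.trans hHX1
    have hH0 : 0 < H := by linarith
    rcases h P hPn hPm H hH1 hPH with h1 | h1
    · exact Or.inl h1
    · right
      have h2 := hX1' H hHX1
      rw [div_lt_iff₀ hc'] at h2
      have h3 : 0 < H ^ (n * (1 + κ)) := Real.rpow_pos_of_pos hH0 _
      have h4 : H ^ (w - n * (1 + κ)) * H ^ (n * (1 + κ)) = H ^ w := by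
        rw [← Real.rpow_add hH0]; congr 1; ring
      have h5 : 0 < H ^ (w - n * (1 + κ)) := Real.rpow_pos_of_pos hH0 _
      rw [Real.rpow_neg hH0.le, inv_lt_iff_one_lt_mul₀' (Real.rpow_pos_of_pos hH0 _), ← h4]
      calc (1 : ℝ) < H ^ (w - n * (1 + κ)) * c' := h2
        _ ≤ H ^ (w - n * (1 + κ)) * (H ^ (n * (1 + κ)) * ‖evR x t P‖) := by gcongr
        _ = _ := by ring
  · by_contra hcon
    push Not at hcon
    apply hrel
    obtain ⟨X1, hX1⟩ : ∃ X1 : ℝ, X1 = max 1 X₀ := ⟨_, rfl⟩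
    have hX11 : 1 ≤ X1 := by rw [hX1]; exact le_max_left _ _
    refine crit x t m n hn κ c hκ hc hmeas (w / l) (by
      rw [lt_div_iff₀ hl0]
      have : (2 * (n : ℝ) - 1 + 2 * n * κ) * l ≤ l * (2 * n * (1 + κ)) := by nlinarith
      linarith) (X1 ^ l) fun Y hY => ?_
    have hX10 : 0 < X1 := by linarith
    have hY0 : 0 < Y := lt_of_lt_of_le (Real.rpow_pos_of_pos hX10 _) hY
    have h1 : X1 ≤ Y ^ (1 / l) := by
      calc X1 = (X1 ^ l) ^ (1 / l) := by
            rw [← Real.rpow_mul hX10.le, mul_one_div_cancel hl0.ne', Real.rpow_one]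
        _ ≤ Y ^ (1 / l) := Real.rpow_le_rpow (by positivity) hY (by positivity)
    have h2 : (Y ^ (1 / l)) ^ l = Y := by
      rw [← Real.rpow_mul hY0.le, one_div_mul_cancel hl0.ne', Real.rpow_one]
    obtain ⟨H, hH1, hH2, P, hPn, hPm, hPH, hP0, hPv⟩ := hcon (Y ^ (1 / l)) (by
      refine le_trans ?_ h1
      rw [hX1]; exact le_max_right _ _)
    rw [h2] at hH2
    have hH0 : 0 < H := by linarith
    refine ⟨P, ?_, hPn, hPm, fun j k => (hPH j k).trans hH2, hPv.trans ?_⟩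
    · rintro rfl
      exact hP0 (map_zero _)
    · rw [Real.rpow_neg hH0.le, Real.rpow_neg hY0.le]
      refine inv_anti₀ (Real.rpow_pos_of_pos hY0 _) ?_
      calc Y ^ (w / l) = (Y ^ (1 / l)) ^ w := by
            rw [← Real.rpow_mul hY0.le]; congr 1; field_simp
        _ ≤ H ^ w := Real.rpow_le_rpow (by positivity) hH1 hw0.le

end Pool.Agent.R523.LM
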