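import Pool.Agent.R523.LogD

/-!
# Polynomials without factors of small value
-/

set_option autoImplicit false

namespace Pool.Agent.R523.LM

open Polynomial Finset
open Pool.Agent.TH456.TM
open Pool.Agent.R523.Gel

lemma hgt_neg (P : ℤ[X][X]) : hgt (-P) = hgt P := by
  unfold hgt
  simp

lemma MM_pos (m : ℕ) (P : ℤ[X][X]) (hP : P ≠ 0) (h : xd P ≤ m) : 0 < MM m P :=
  lt_of_lt_of_le one_pos (one_le_MM m P hP h)

theorem off_near (x t : ℂ) (m n : ℕ) (w : ℝ) (hw : 0 ≤ w) :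
    ∃ c : ℝ, 0 < c ∧ ∀ P : ℤ[X][X], P ≠ 0 → P.natDegree ≤ n → xd P ≤ m →
      (∀ Q : ℤ[X][X], Irreducible Q → 0 < Q.leadingCoeff.leadingCoeff → Q.natDegree ≤ n →
        xd Q ≤ m → ‖evR x t Q‖ ≤ (hgt Q : ℝ) ^ (-w) → ¬ Q ∣ P) →
      c * (hgt P : ℝ) ^ (-w) ≤ ‖evR x t P‖ := by
  have hcoef : ∀ (P : ℤ[X][X]) (j k : ℕ), |(((P.coeff j).coeff k : ℤ) : ℝ)| ≤ hgt P := by
    intro P j k
    have h2 := le_hgt P j k
    have h3 : |(((P.coeff j).coeff k : ℤ) : ℝ)| = (((P.coeff j).coeff k).natAbs : ℝ) := by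
      rw [Nat.cast_natAbs, Int.cast_abs]
    rw [h3]
    exact_mod_cast h2
  obtain ⟨C1, hC1⟩ : ∃ C1 : ℝ, C1 = 2 ^ (m + (m + 1) * n) := ⟨_, rfl⟩
  have hC11 : 1 ≤ C1 := by rw [hC1]; exact one_le_pow₀ (by norm_num)
  have hC10 : 0 < C1 := by linarith
  obtain ⟨C2, hC2⟩ : ∃ C2 : ℝ, C2 = ((m + (m + 1) * n + 1 : ℕ) : ℝ) := ⟨_, rfl⟩
  have hC20 : 0 < C2 := by rw [hC2]; positivity
  obtain ⟨r, hr⟩ : ∃ r : ℝ, r = C1 ^ (-w) := ⟨_, rfl⟩
  have hr0 : 0 < r := by rw [hr]; exact Real.rpow_pos_of_pos hC10 _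
  have hr1 : r ≤ 1 := by rw [hr]; exact Real.rpow_le_one_of_one_le_of_nonpos hC11 (by linarith)
  refine ⟨r ^ (n + m) * C2 ^ (-w), by positivity, fun P hP0 hPn hPm hP => ?_⟩
  have hhgt : ∀ Q : ℤ[X][X], Q ≠ 0 → (0 : ℝ) < hgt Q := fun Q hQ => by
    exact_mod_cast hgt_pos Q hQ
  have hhM : ∀ Q : ℤ[X][X], Q ≠ 0 → xd Q ≤ m → Q.natDegree ≤ n → (hgt Q : ℝ) ≤ C1 * MM m Q := by
    intro Q hQ hQm hQn
    have h1 : ∀ j i, ((((Q.coeff j).coeff i).natAbs : ℕ) : ℝ) ≤ C1 * MM m Q := by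
      intro j i
      have h2 := coeff_le_MM m n Q hQm hQn j i
      rw [← hC1] at h2
      rwa [Nat.cast_natAbs, Int.cast_abs]
    have h3 : hgt Q ≤ ⌊C1 * MM m Q⌋₊ := by
      unfold hgt
      refine Finset.sup_le fun j _ => Finset.sup_le fun i _ => ?_
      exact Nat.le_floor (h1 j i)
    exact (Nat.cast_le.2 h3).trans (Nat.floor_le (mul_nonneg hC10.le (MM_nonneg m Q)))
  have key := Ph_ge (evR x t) m w hw r hr0 hr1 P hP0 (fun Q hQ hQP _ => by
    obtain ⟨S, hS⟩ := hQP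
    have hS0 : S ≠ 0 := by
      rintro rfl
      exact hP0 (by rw [hS, mul_zero])
    have hQ0 := hQ.ne_zero
    have hQn : Q.natDegree ≤ n := by
      have := natDegree_mul hQ0 hS0
      rw [← hS] at this
      omega
    have hQm : xd Q ≤ m := by
      have := xd_mul Q S hQ0 hS0
      rw [← hS] at this
      omega
    have hval : (hgt Q : ℝ) ^ (-w) < ‖evR x t Q‖ := by
      by_contra hcon
      push Not at hcon
      have hl : Q.leadingCoeff.leadingCoeff ≠ 0 := by simpa using hQ0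
      rcases lt_or_gt_of_ne hl with h1 | h1
      · refine hP (-Q) ((Associated.refl Q).neg_right.irreducible hQ) ?_ (by rw [natDegree_neg]; exact hQn) ?_ ?_ ?_
        · rw [leadingCoeff_neg, leadingCoeff_neg]; omega
        · refine xd_le _ _ fun j => ?_
          rw [coeff_neg, natDegree_neg]
          exact (coeff_le_xd Q j).trans hQm
        · rw [map_neg, norm_neg, hgt_neg]; exact hcon
        · exact ⟨-S, by rw [hS]; ring⟩
      · exact hP Q hQ h1 hQn hQm hcon ⟨S, hS⟩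
    have hM0 := MM_pos m Q hQ0 hQm
    unfold Ph
    have h2 := hhM Q hQ0 hQm hQn
    have hg := hhgt Q hQ0
    calc r = (C1 * MM m Q) ^ (-w) * MM m Q ^ w := by
          rw [hr, Real.mul_rpow hC10.le hM0.le, mul_assoc, ← Real.rpow_add hM0]
          simp
      _ ≤ (hgt Q : ℝ) ^ (-w) * MM m Q ^ w := by
          refine mul_le_mul_of_nonneg_right ?_ (Real.rpow_nonneg hM0.le _)
          exact Real.rpow_le_rpow_of_nonpos hg h2 (by linarith)
      _ ≤ _ := mul_le_mul_of_nonneg_right hval.le (Real.rpow_nonneg hM0.le _))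
  have hM0 := MM_pos m P hP0 hPm
  have hg := hhgt P hP0
  have hM := MM_le m n P hPm hPn (hgt P) (hcoef P)
  rw [← hC2] at hM
  have hk : r ^ (n + m) ≤ r ^ (P.natDegree + xd P) := pow_le_pow_of_le_one hr0.le hr1 (by omega)
  have h1 := hk.trans key
  unfold Ph at h1
  have h2 : MM m P ^ w ≤ (C2 * (hgt P : ℝ)) ^ w := Real.rpow_le_rpow hM0.le hM hw
  calc r ^ (n + m) * C2 ^ (-w) * (hgt P : ℝ) ^ (-w) =
        r ^ (n + m) * (C2 * (hgt P : ℝ)) ^ (-w) := by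
        rw [Real.mul_rpow hC20.le hg.le]; ring
    _ ≤ (‖evR x t P‖ * (C2 * (hgt P : ℝ)) ^ w) * (C2 * (hgt P : ℝ)) ^ (-w) := by
        refine mul_le_mul_of_nonneg_right (h1.trans ?_) (Real.rpow_nonneg (by positivity) _)
        exact mul_le_mul_of_nonneg_left h2 (norm_nonneg _)
    _ = ‖evR x t P‖ := by
        rw [mul_assoc, ← Real.rpow_add (by positivity)]
        simp

end Pool.Agent.R523.LM
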