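import Mathlib

/-!
# Sequences of minimal points
-/

set_option autoImplicit false

namespace Pool.Agent.R523.MinSeq

/-- the sequence of minimal points of an error function `E` with respect to a size function `N` -/
theorem minseq {ι : Type} [hne : Nonempty ι] (N : ι → ℕ) (E : ι → ℝ)
    (hfin : ∀ n, {x | N x ≤ n}.Finite) (hpos : ∀ x, 0 < E x)
    (hinf : ∀ ε : ℝ, 0 < ε → ∃ x, E x < ε) :
    ∃ s : ℕ → ι, (∀ k, N (s k) < N (s (k + 1))) ∧ (∀ k, E (s (k + 1)) < E (s k)) ∧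
      ∀ k z, N z < N (s (k + 1)) → E (s k) ≤ E z := by
  classical
  obtain ⟨Rec, hRec⟩ : ∃ Rec : ι → Prop, Rec = fun x => ∀ z, N z ≤ N x → E x ≤ E z := ⟨_, rfl⟩
  have hnext : ∀ x, Rec x → ∃ y, Rec y ∧ E y < E x ∧ ∀ z, N z < N y → E x ≤ E z := by
    intro x _
    obtain ⟨z0, hz0⟩ := hinf (E x) (hpos x)
    have hex : ∃ n, ∃ z, E z < E x ∧ N z ≤ n := ⟨N z0, z0, hz0, le_rfl⟩
    obtain ⟨h, hh⟩ : ∃ h, h = Nat.find hex := ⟨_, rfl⟩
    obtain ⟨z1, hz1, hz2⟩ := Nat.find_spec hex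
    rw [← hh] at hz2
    have hmin : ∀ z, N z < h → E x ≤ E z := by
      intro z hz
      by_contra hcon
      push Not at hcon
      rw [hh] at hz
      exact Nat.find_min hex hz ⟨z, hcon, le_rfl⟩
    obtain ⟨y, hy, hy2⟩ := Set.exists_min_image {z | N z ≤ h ∧ E z < E x} E
      ((hfin h).subset fun z hz => hz.1) ⟨z1, hz2, hz1⟩
    refine ⟨y, ?_, hy.2, fun z hz => hmin z (hz.trans_le hy.1)⟩
    rw [hRec]
    intro z hz
    rcases lt_or_ge (E z) (E x) with h1 | h1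
    · exact hy2 z ⟨hz.trans hy.1, h1⟩
    · exact hy.2.le.trans h1
  obtain ⟨x0⟩ := hne
  obtain ⟨x1, hx1, hx2⟩ := Set.exists_min_image {z | N z ≤ N x0} E (hfin _) ⟨x0, le_refl (N x0)⟩
  have hstart : Rec x1 := by
    rw [hRec]
    exact fun z hz => hx2 z (le_trans hz hx1)
  choose! g hg1 hg2 hg3 using hnext
  obtain ⟨s, hs0, hs⟩ : ∃ s : ℕ → ι, s 0 = x1 ∧ ∀ k, s (k + 1) = g (s k) :=
    ⟨fun k => Nat.rec x1 (fun _ x => g x) k, rfl, fun _ => rfl⟩
  have hR : ∀ k, Rec (s k) := by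
    intro k
    induction k with
    | zero => rw [hs0]; exact hstart
    | succ k ih => rw [hs]; exact hg1 _ ih
  refine ⟨s, fun k => ?_, fun k => ?_, fun k z hz => ?_⟩
  · by_contra hcon
    push Not at hcon
    have h1 := hR k
    rw [hRec] at h1
    have h2 := h1 _ hcon
    have h3 := hg2 _ (hR k)
    rw [hs] at h2
    linarith
  · rw [hs]
    exact hg2 _ (hR k)
  · rw [hs] at hz
    exact hg3 _ (hR k) z hz

/-- the scalar product -/
def dot (u v : Fin 3 → ℤ) : ℤ := u 0 * v 0 + u 1 * v 1 + u 2 * v 2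

/-- the vector product -/
def cr (u v : Fin 3 → ℤ) : Fin 3 → ℤ :=
  ![u 1 * v 2 - u 2 * v 1, u 2 * v 0 - u 0 * v 2, u 0 * v 1 - u 1 * v 0]

lemma cr_zero (u v : Fin 3 → ℤ) : cr u v 0 = u 1 * v 2 - u 2 * v 1 := rfl
lemma cr_one (u v : Fin 3 → ℤ) : cr u v 1 = u 2 * v 0 - u 0 * v 2 := rfl
lemma cr_two (u v : Fin 3 → ℤ) : cr u v 2 = u 0 * v 1 - u 1 * v 0 := rfl

lemma vec_ne_zero {v : Fin 3 → ℤ} (h : v ≠ 0) : v 0 ≠ 0 ∨ v 1 ≠ 0 ∨ v 2 ≠ 0 := by
  by_contra hcon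
  push Not at hcon
  apply h
  funext i
  fin_cases i
  · exact hcon.1
  · exact hcon.2.1
  · exact hcon.2.2

/-- vectors orthogonal to `u` and `u'` are parallel to the vector product -/
lemma parallel (v u u' : Fin 3 → ℤ) (h1 : dot v u = 0) (h2 : dot v u' = 0) :
    v 1 * cr u u' 2 = v 2 * cr u u' 1 ∧ v 2 * cr u u' 0 = v 0 * cr u u' 2 ∧
      v 0 * cr u u' 1 = v 1 * cr u u' 0 := by
  unfold dot at h1 h2
  rw [cr_zero, cr_one, cr_two]
  refine ⟨?_, ?_, ?_⟩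
  · linear_combination u 0 * h2 - u' 0 * h1
  · linear_combination u 1 * h2 - u' 1 * h1
  · linear_combination u 2 * h2 - u' 2 * h1

/-- if all triples of consecutive vectors are dependent, the vectors lie in a plane -/
theorem plane (y : ℕ → Fin 3 → ℤ) (K : ℕ) (hind : ∀ k, cr (y k) (y (k + 1)) ≠ 0)
    (hdet : ∀ k, K ≤ k → dot (cr (y k) (y (k + 1))) (y (k + 2)) = 0) :
    ∀ k, K ≤ k → dot (cr (y K) (y (K + 1))) (y k) = 0 := by
  obtain ⟨v, hv⟩ : ∃ v, v = cr (y K) (y (K + 1)) := ⟨_, rfl⟩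
  rw [← hv]
  have key : ∀ j, dot v (y (K + j)) = 0 ∧ dot v (y (K + j + 1)) = 0 := by
    intro j
    induction j with
    | zero =>
      rw [hv]
      unfold dot
      simp only [cr_zero, cr_one, cr_two, add_zero]
      constructor <;> ring
    | succ j ih =>
      refine ⟨by rw [show K + (j + 1) = K + j + 1 by ring]; exact ih.2, ?_⟩
      obtain ⟨h1, h2, h3⟩ := parallel v _ _ ih.1 ih.2
      have h4 := hdet (K + j) (by omega)
      have h5 := hind (K + j)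
      rw [show K + (j + 1) + 1 = K + j + 2 by ring]
      obtain ⟨C, hC⟩ : ∃ C, C = cr (y (K + j)) (y (K + j + 1)) := ⟨_, rfl⟩
      rw [← hC] at h1 h2 h3 h4 h5
      obtain ⟨z, hz⟩ : ∃ z, z = y (K + j + 2) := ⟨_, rfl⟩
      rw [← hz] at h4 ⊢
      unfold dot at h4 ⊢
      rcases vec_ne_zero h5 with h6 | h6 | h6
      · apply mul_left_cancel₀ h6
        linear_combination v 0 * h4 - z 1 * h3 + z 2 * h2
      · apply mul_left_cancel₀ h6
        linear_combination v 1 * h4 + z 0 * h3 - z 2 * h1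
      · apply mul_left_cancel₀ h6
        linear_combination v 2 * h4 - z 0 * h2 + z 1 * h1
  intro k hk
  obtain ⟨j, rfl⟩ : ∃ j, k = K + j := ⟨k - K, by omega⟩
  exact (key j).1

end Pool.Agent.R523.MinSeq
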