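import Pool.Agent.Y928.PL.Mixed

/-!
# Linear complexity of several numbers, each in its own base: sharp form

The loss of the summand `m_j` in `Pool.Agent.Y928.PL.mixed` is avoided.
-/

set_option autoImplicit false

namespace Pool.Agent.R523.MixedSharp

open Finset
open Pool.Agent.W47.JL Pool.Agent.Y928.PL

theorem mixedSharp (h : ℕ) (hh : 1 ≤ h) (μ c0 : ℝ) (hμ : 1 ≤ μ) (hc0 : 0 < c0) :
    ∃ C : ℝ, 0 < C ∧ ∀ (J : ℕ) (x : Fin J → ℝ), Meas J x μ c0 0 →
      ∀ b : Fin J → ℕ, (∀ j, 2 ≤ b j) → ∀ s : Fin J → ℕ → ℤ,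
      (∀ j i, |s j i| ≤ ((b j ^ h : ℕ) : ℤ)) →
      (∀ j, ∃ n : ℤ, HasSum (fun i : ℕ => (s j i : ℝ) / (b j : ℝ) ^ (i + 1)) (x j - n)) →
      ∀ L m : Fin J → ℕ, (∀ j, ∃ c : ℕ → ℚ, ∀ i, i + m j < L j →
        (s j (i + m j) : ℚ) = ∑ l ∈ range (m j), c l * (s j (i + l) : ℚ)) →
      ∃ j, (L j : ℝ) * Real.log (b j) ≤
        μ * ∑ i, (m i + C * err (m i)) * Real.log (b i) := by
  classical
  have hhR : (1 : ℝ) ≤ h := by exact_mod_cast hh
  refine ⟨17 * h + 2 * |Real.log c0|, by positivity, ?_⟩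
  intro J x hM b hb s hs hx L m hc
  have key : ∀ j, ∃ q : ℕ, 1 ≤ q ∧ ∃ p : ℤ,
      (q : ℝ) ≤ (b j : ℝ) ^ ((m j : ℝ) + 15 * h * err (m j) + h) ∧
      |(q : ℝ) * x j - p| ≤ (b j : ℝ) ^ (((m j : ℝ) + 15 * h * err (m j) + h) - L j) := by
    intro j
    obtain ⟨n, hn⟩ := hx j
    obtain ⟨c, hc'⟩ := hc j
    obtain ⟨q, hq, p, h1, h2⟩ := core2 h (b j) hh (hb j) (x j - n) (s j) (hs j) hn (L j) (m j) c hc'
    refine ⟨q, hq, p + q * n, h1, ?_⟩
    have e : (q : ℝ) * x j - ((p + q * n : ℤ) : ℝ) = (q : ℝ) * (x j - n) - p := by push_cast; ring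
    rw [e]
    exact h2
  choose q hq p hqb hpb using key
  obtain ⟨j, hjm⟩ := hM (∏ i, q i)
    (Nat.pos_of_ne_zero (Finset.prod_ne_zero_iff.2 fun i _ => by have := hq i; omega))
    (fun j => p j * ((∏ i ∈ univ.erase j, q i : ℕ) : ℤ))
  refine ⟨j, ?_⟩
  rw [Real.rpow_zero, mul_one] at hjm
  obtain ⟨Q, hQ⟩ : ∃ Q : ℝ, Q = ((∏ i, q i : ℕ) : ℝ) := ⟨_, rfl⟩
  rw [← hQ] at hjm
  have hQ1 : 1 ≤ Q := by
    have : 1 ≤ ∏ i, q i :=
      Nat.pos_of_ne_zero (Finset.prod_ne_zero_iff.2 fun i _ => by have := hq i; omega)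
    rw [hQ]
    exact_mod_cast this
  have hbR : ∀ i, (2 : ℝ) ≤ b i := fun i => by exact_mod_cast hb i
  have hb0 : ∀ i, (0 : ℝ) < b i := fun i => by have := hbR i; linarith
  have hlb : ∀ i, 0.69 ≤ Real.log (b i) := by
    intro i
    have h1 := Real.log_two_gt_d9
    have h2 := Real.log_le_log (by norm_num) (hbR i)
    linarith
  obtain ⟨M, hMd⟩ : ∃ M : Fin J → ℝ, M = fun i => (m i : ℝ) + 15 * h * err (m i) + h := ⟨_, rfl⟩
  have hMe : ∀ i, (m i : ℝ) + 15 * h * err (m i) + h = M i := fun i => by rw [hMd]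
  simp only [hMe] at hqb hpb
  -- the product of the bounds
  obtain ⟨P, hP⟩ : ∃ P : ℝ, P = ∏ i, (b i : ℝ) ^ M i := ⟨_, rfl⟩
  have hP0 : 0 < P := by
    rw [hP]
    exact Finset.prod_pos fun i _ => Real.rpow_pos_of_pos (hb0 i) _
  have hQP : Q ≤ P := by
    rw [hQ, hP]
    push_cast
    exact Finset.prod_le_prod (fun i _ => Nat.cast_nonneg _) fun i _ => hqb i
  have hR : ((∏ i ∈ univ.erase j, q i : ℕ) : ℝ) * (b j : ℝ) ^ M j ≤ P := by
    rw [hP, ← Finset.mul_prod_erase univ (fun i => (b i : ℝ) ^ M i) (mem_univ j), mul_comm]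
    push_cast
    apply mul_le_mul_of_nonneg_left _ (Real.rpow_nonneg (hb0 j).le _)
    exact Finset.prod_le_prod (fun i _ => Nat.cast_nonneg _) fun i _ => hqb i
  have hQj : Q = q j * ((∏ i ∈ univ.erase j, q i : ℕ) : ℝ) := by
    rw [hQ, ← Finset.mul_prod_erase univ q (mem_univ j)]
    push_cast
    ring
  have hPe : (0 : ℝ) ≤ ((∏ i ∈ univ.erase j, q i : ℕ) : ℝ) := Nat.cast_nonneg _
  have h1 : c0 ≤ P ^ μ * (b j : ℝ) ^ (-(L j : ℝ)) := by
    have e1 : Q * x j - ((p j * ((∏ i ∈ univ.erase j, q i : ℕ) : ℤ) : ℤ) : ℝ) =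
        ((∏ i ∈ univ.erase j, q i : ℕ) : ℝ) * (q j * x j - p j) := by
      rw [hQj]
      push_cast
      ring
    rw [e1, abs_mul, abs_of_nonneg hPe] at hjm
    calc c0 ≤ Q ^ (μ - 1) * (((∏ i ∈ univ.erase j, q i : ℕ) : ℝ) * |(q j : ℝ) * x j - p j|) := hjm
      _ ≤ P ^ (μ - 1) * (P * (b j : ℝ) ^ (-(L j : ℝ))) := by
          apply mul_le_mul (Real.rpow_le_rpow (by linarith) hQP (by linarith)) _
            (mul_nonneg hPe (abs_nonneg _)) (Real.rpow_nonneg hP0.le _)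
          calc ((∏ i ∈ univ.erase j, q i : ℕ) : ℝ) * |(q j : ℝ) * x j - p j| ≤
              ((∏ i ∈ univ.erase j, q i : ℕ) : ℝ) * (b j : ℝ) ^ (M j - L j) :=
                mul_le_mul_of_nonneg_left (hpb j) hPe
            _ = ((∏ i ∈ univ.erase j, q i : ℕ) : ℝ) * (b j : ℝ) ^ M j * (b j : ℝ) ^ (-(L j : ℝ)) := by
                rw [sub_eq_add_neg, Real.rpow_add (hb0 j)]
                ring
            _ ≤ P * (b j : ℝ) ^ (-(L j : ℝ)) :=
                mul_le_mul_of_nonneg_right hR (Real.rpow_nonneg (hb0 j).le _)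
      _ = P ^ μ * (b j : ℝ) ^ (-(L j : ℝ)) := by
          have : P ^ μ = P ^ (μ - 1) * P := by
            conv_rhs => rw [← Real.rpow_one P, ← Real.rpow_mul hP0.le, one_mul]
            rw [← Real.rpow_add hP0]
            congr 1
            ring
          rw [this]
          ring
  have h2 := Real.log_le_log hc0 h1
  rw [Real.log_mul (Real.rpow_pos_of_pos hP0 _).ne' (Real.rpow_pos_of_pos (hb0 j) _).ne',
    Real.log_rpow hP0, Real.log_rpow (hb0 j)] at h2
  have hlogP : Real.log P = ∑ i, M i * Real.log (b i) := by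
    rw [hP, Real.log_prod (fun i _ => (Real.rpow_pos_of_pos (hb0 i) _).ne')]
    exact Finset.sum_congr rfl fun i _ => Real.log_rpow (hb0 i) _
  have h3 : -|Real.log c0| ≤ Real.log c0 := neg_abs_le _
  have hcmp : ∀ i, M i * Real.log (b i) ≤
      (m i + (17 * h + 2 * |Real.log c0|) * err (m i)) * Real.log (b i) := by
    intro i
    have h4 := err_ge (m i)
    have h5 := hlb i
    have h6 := abs_nonneg (Real.log c0)
    apply mul_le_mul_of_nonneg_right _ (by linarith)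
    rw [← hMe]
    nlinarith
  have hcmpj : M j * Real.log (b j) + |Real.log c0| ≤
      (m j + (17 * h + 2 * |Real.log c0|) * err (m j)) * Real.log (b j) := by
    have h4 := err_ge (m j)
    have h6 := abs_nonneg (Real.log c0)
    have hlj := hlb j
    rw [← hMe]
    have h7 : (h : ℝ) ≤ 2 * h * err (m j) := by nlinarith
    have h8 : |Real.log c0| ≤ 2 * |Real.log c0| * err (m j) * Real.log (b j) := by
      have : 1 ≤ 2 * err (m j) * Real.log (b j) := by nlinarith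
      nlinarith
    nlinarith
  have hsum : ∑ i, M i * Real.log (b i) + |Real.log c0| ≤
      ∑ i, (m i + (17 * h + 2 * |Real.log c0|) * err (m i)) * Real.log (b i) := by
    rw [← Finset.add_sum_erase univ _ (mem_univ j),
      ← Finset.add_sum_erase univ (fun i => ((m i : ℝ) + (17 * h + 2 * |Real.log c0|) * err (m i)) *
        Real.log (b i)) (mem_univ j)]
    have h4 := Finset.sum_le_sum (s := univ.erase j) fun i _ => hcmp i
    beta_reduce
    linarith
  have h9 := mul_le_mul_of_nonneg_left hsum (by linarith : (0 : ℝ) ≤ μ)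
  rw [hlogP] at h2
  have h10 := abs_nonneg (Real.log c0)
  nlinarith

end Pool.Agent.R523.MixedSharp
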