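import Pool.Agent.R523.MinSeq

/-!
# Uniform exponents of pairs, one of which has the measure 2
-/

set_option autoImplicit false

namespace Pool.Agent.R523.Sim

open Filter Pool.Agent.R523.MinSeq

/-- a measure of irrationality with exponent arbitrarily close to `1` -/
def Good (ξ : ℝ) : Prop :=
  ∀ η : ℝ, 0 < η → ∃ c : ℝ, 0 < c ∧ ∀ a b : ℤ, (a ≠ 0 ∨ b ≠ 0) → ∀ H : ℝ, 1 ≤ H → |(a : ℝ)| ≤ H →
    |(b : ℝ)| ≤ H → c ≤ H ^ (1 + η) * |a + b * ξ|

lemma Good.ne_zero {ξ : ℝ} (h : Good ξ) (a b : ℤ) (hab : a ≠ 0 ∨ b ≠ 0) : (a : ℝ) + b * ξ ≠ 0 := by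
  obtain ⟨c, hc, h1⟩ := h 1 one_pos
  intro h0
  have h2 := h1 a b hab (1 + |(a : ℝ)| + |(b : ℝ)|)
    (by linarith [abs_nonneg (a : ℝ), abs_nonneg (b : ℝ)])
    (by linarith [abs_nonneg (a : ℝ), abs_nonneg (b : ℝ)])
    (by linarith [abs_nonneg (a : ℝ), abs_nonneg (b : ℝ)])
  rw [h0, abs_zero, mul_zero] at h2
  linarith

/-- a sequence that satisfies two linear inequalities is bounded -/
lemma bounded_of (u v α β γ δ C C' : ℝ) (hγ : 0 ≤ γ) (h1 : α * u ≤ β * v + C)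
    (h2 : γ * v ≤ δ * u + C') (hβ : 0 ≤ β) : (α * γ - β * δ) * u ≤ β * C' + γ * C := by
  have h3 := mul_le_mul_of_nonneg_left h1 hγ
  have h4 := mul_le_mul_of_nonneg_left h2 hβ
  linarith

theorem simult (ξ t lam : ℝ) (hξ : Good ξ) (h0 : 0 < lam) (h1 : lam < 1)
    (hlam : 1 < lam ^ 2 + lam)
    (hS : ∀ᶠ X : ℕ in atTop, ∃ q : ℕ, 1 ≤ q ∧ q ≤ X ∧ ∃ p r : ℤ,
      |(q : ℝ) * ξ - p| ≤ (X : ℝ) ^ (-lam) ∧ |(q : ℝ) * t - r| ≤ (X : ℝ) ^ (-lam)) :
    ∃ a b c : ℤ, c ≠ 0 ∧ (a : ℝ) + b * ξ + c * t = 0 := by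
  -- the error function
  obtain ⟨E, hE⟩ : ∃ E : ℕ → ℝ, E = fun i => max |((i + 1 : ℕ) : ℝ) * ξ - round (((i + 1 : ℕ) : ℝ) * ξ)|
    |((i + 1 : ℕ) : ℝ) * t - round (((i + 1 : ℕ) : ℝ) * t)| := ⟨_, rfl⟩
  have hEa : ∀ i, |((i + 1 : ℕ) : ℝ) * ξ - round (((i + 1 : ℕ) : ℝ) * ξ)| ≤ E i := fun i => by
    rw [hE]; exact le_max_left _ _
  have hEb : ∀ i, |((i + 1 : ℕ) : ℝ) * t - round (((i + 1 : ℕ) : ℝ) * t)| ≤ E i := fun i => by
    rw [hE]; exact le_max_right _ _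
  have hpos : ∀ i, 0 < E i := by
    intro i
    refine lt_of_lt_of_le (abs_pos.mpr ?_) (hEa i)
    have h2 := hξ.ne_zero (-round (((i + 1 : ℕ) : ℝ) * ξ)) ((i + 1 : ℕ) : ℤ)
      (Or.inr (by exact_mod_cast Nat.succ_ne_zero i))
    intro h3
    apply h2
    push_cast at h3 ⊢
    linarith
  have hEX : ∀ᶠ X : ℕ in atTop, ∃ i : ℕ, i < X ∧ E i ≤ (X : ℝ) ^ (-lam) := by
    filter_upwards [hS] with X hX
    obtain ⟨q, hq1, hq2, p, r, hp, hr⟩ := hX
    refine ⟨q - 1, by omega, ?_⟩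
    rw [hE]
    beta_reduce
    rw [show q - 1 + 1 = q by omega]
    exact max_le ((round_le _ _).trans hp) ((round_le _ _).trans hr)
  have htend : Tendsto (fun X : ℕ => (X : ℝ) ^ (-lam)) atTop (nhds 0) :=
    (tendsto_rpow_neg_atTop h0).comp tendsto_natCast_atTop_atTop
  have hinf : ∀ ε : ℝ, 0 < ε → ∃ i, E i < ε := by
    intro ε hε
    obtain ⟨X, ⟨i, _, hi⟩, hX⟩ := (hEX.and (htend.eventually (gt_mem_nhds hε))).exists
    exact ⟨i, hi.trans_lt hX⟩
  obtain ⟨s, hs1, hs2, hs3⟩ := minseq (fun i : ℕ => i) E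
    (fun n => (Set.finite_Iic n).subset fun i hi => hi) hpos hinf
  have hmono : StrictMono s := strictMono_nat_of_lt_succ hs1
  have hsk : ∀ k, k ≤ s k := fun k => hmono.le_apply
  -- the points
  obtain ⟨y, hy⟩ : ∃ y : ℕ → Fin 3 → ℤ, y = fun k => ![((s k + 1 : ℕ) : ℤ),
    round (((s k + 1 : ℕ) : ℝ) * ξ), round (((s k + 1 : ℕ) : ℝ) * t)] := ⟨_, rfl⟩
  have hy0 : ∀ k, y k 0 = ((s k + 1 : ℕ) : ℤ) := fun k => by rw [hy]; rfl
  obtain ⟨Q, hQ⟩ : ∃ Q : ℕ → ℝ, Q = fun k => (s k : ℝ) + 1 := ⟨_, rfl⟩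
  have hQy : ∀ k, ((y k 0 : ℤ) : ℝ) = Q k := fun k => by rw [hy0, hQ]; push_cast; rfl
  have hQ1 : ∀ k, 1 ≤ Q k := fun k => by
    rw [hQ]
    have : (0 : ℝ) ≤ s k := Nat.cast_nonneg _
    linarith
  have hQ0 : ∀ k, 0 < Q k := fun k => by linarith [hQ1 k]
  have hQm : ∀ k, Q k < Q (k + 1) := fun k => by
    rw [hQ]
    have : (s k : ℝ) < s (k + 1) := by exact_mod_cast hs1 k
    beta_reduce
    linarith
  obtain ⟨D, hD⟩ : ∃ D : ℕ → ℝ, D = fun k => E (s k) := ⟨_, rfl⟩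
  have hD0 : ∀ k, 0 < D k := fun k => by rw [hD]; exact hpos _
  have hDm : ∀ k, D (k + 1) < D k := fun k => by rw [hD]; exact hs2 k
  have hy1 : ∀ k, |Q k * ξ - (y k 1 : ℤ)| ≤ D k := fun k => by
    have h2 := hEa (s k)
    rw [hD, hQ, hy]
    push_cast at h2 ⊢
    exact h2
  have hy2 : ∀ k, |Q k * t - (y k 2 : ℤ)| ≤ D k := fun k => by
    have h2 := hEb (s k)
    rw [hD, hQ, hy]
    push_cast at h2 ⊢
    exact h2
  have hDmax : ∀ k, D k = max |Q k * ξ - (y k 1 : ℤ)| |Q k * t - (y k 2 : ℤ)| := fun k => by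
    rw [hD, hE, hQ, hy]
    push_cast
    rfl
  -- upper bound for the errors
  obtain ⟨X0, hX0⟩ := eventually_atTop.1 hEX
  have hup : ∀ k, X0 + 1 ≤ k → D k ≤ (Q (k + 1) / 2) ^ (-lam) := by
    intro k hk
    have h2 := hsk (k + 1)
    obtain ⟨i, hi, hi2⟩ := hX0 (s (k + 1)) (by omega)
    have h3 := hs3 k i hi
    rw [hD]
    refine h3.trans (hi2.trans ?_)
    have h4 : (1 : ℝ) ≤ s (k + 1) := by exact_mod_cast (by omega : 1 ≤ s (k + 1))
    apply Real.rpow_le_rpow_of_nonpos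
    · rw [hQ]
      beta_reduce
      linarith
    · rw [hQ]
      beta_reduce
      linarith
    · linarith
  obtain ⟨ℓ, hℓ⟩ : ∃ ℓ : ℕ → ℝ, ℓ = fun k => Real.log (Q k) := ⟨_, rfl⟩
  have hlogD : ∀ k, X0 + 1 ≤ k → Real.log (D k) ≤ -lam * (ℓ (k + 1) - Real.log 2) := by
    intro k hk
    have h2 := Real.log_le_log (hD0 k) (hup k hk)
    have h3 : 0 < Q (k + 1) / 2 := by linarith [hQ0 (k + 1)]
    rw [Real.log_rpow h3, Real.log_div (hQ0 _).ne' two_ne_zero] at h2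
    rw [hℓ]
    exact h2
  -- consecutive points are independent
  have hind : ∀ k, cr (y k) (y (k + 1)) ≠ 0 := by
    intro k hcon
    have h2 : cr (y k) (y (k + 1)) 2 = 0 := by rw [hcon]; rfl
    have h3 : cr (y k) (y (k + 1)) 1 = 0 := by rw [hcon]; rfl
    rw [cr_two] at h2
    rw [cr_one] at h3
    have h2R : Q k * (y (k + 1) 1 : ℤ) - (y k 1 : ℤ) * Q (k + 1) = 0 := by
      rw [← hQy, ← hQy]; exact_mod_cast h2
    have h3R : (y k 2 : ℤ) * Q (k + 1) - Q k * (y (k + 1) 2 : ℤ) = 0 := by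
      rw [← hQy, ← hQy]; exact_mod_cast h3
    have e1 : Q k * |Q (k + 1) * ξ - (y (k + 1) 1 : ℤ)| = Q (k + 1) * |Q k * ξ - (y k 1 : ℤ)| := by
      rw [← abs_of_pos (hQ0 k), ← abs_of_pos (hQ0 (k + 1)), ← abs_mul, ← abs_mul,
        abs_of_pos (hQ0 k), abs_of_pos (hQ0 (k + 1))]
      congr 1
      linarith
    have e2 : Q k * |Q (k + 1) * t - (y (k + 1) 2 : ℤ)| = Q (k + 1) * |Q k * t - (y k 2 : ℤ)| := by
      rw [← abs_of_pos (hQ0 k), ← abs_of_pos (hQ0 (k + 1)), ← abs_mul, ← abs_mul,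
        abs_of_pos (hQ0 k), abs_of_pos (hQ0 (k + 1))]
      congr 1
      linarith
    have e3 : Q k * D (k + 1) = Q (k + 1) * D k := by
      rw [hDmax, hDmax, mul_max_of_nonneg _ _ (hQ0 k).le, mul_max_of_nonneg _ _ (hQ0 _).le, e1, e2]
    have h4 : Q k * D (k + 1) < Q (k + 1) * D k :=
      mul_lt_mul'' (hQm k) (hDm k) (hQ0 k).le (hD0 _).le
    linarith
  by_cases hcase : ∃ K, ∀ k, K ≤ k → dot (cr (y k) (y (k + 1))) (y (k + 2)) = 0
  · -- all points in a plane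
    obtain ⟨K, hK⟩ := hcase
    have h2 := plane y K hind hK
    obtain ⟨v, hv⟩ : ∃ v, v = cr (y K) (y (K + 1)) := ⟨_, rfl⟩
    rw [← hv] at h2
    have hv0 : v ≠ 0 := by rw [hv]; exact hind K
    have hzero : (v 0 : ℝ) + v 1 * ξ + v 2 * t = 0 := by
      by_contra hne
      have h3 : 0 < |(v 0 : ℝ) + v 1 * ξ + v 2 * t| := abs_pos.mpr hne
      -- choose a point with small error
      obtain ⟨B, hB⟩ : ∃ B : ℝ, B = |(v 1 : ℝ)| + |(v 2 : ℝ)| + 1 := ⟨_, rfl⟩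
      have hB0 : 0 < B := by rw [hB]; positivity
      have htd : ∀ ε : ℝ, 0 < ε → ∃ k, K ≤ k ∧ D k < ε := by
        intro ε hε
        obtain ⟨i, hi⟩ := hinf ε hε
        refine ⟨max K (i + 1), le_max_left _ _, ?_⟩
        have h5 : i < s (max K (i + 1) + 1) := by
          have := hsk (max K (i + 1) + 1)
          have := le_max_right K (i + 1)
          omega
        rw [hD]
        exact (hs3 _ i h5).trans_lt hi
      obtain ⟨k, hk, hk2⟩ := htd _ (div_pos h3 hB0)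
      have h6 := h2 k hk
      unfold dot at h6
      have h7 : (v 0 : ℝ) * Q k + v 1 * (y k 1 : ℤ) + v 2 * (y k 2 : ℤ) = 0 := by
        rw [← hQy]; exact_mod_cast h6
      have h8 : Q k * ((v 0 : ℝ) + v 1 * ξ + v 2 * t) =
          v 1 * (Q k * ξ - (y k 1 : ℤ)) + v 2 * (Q k * t - (y k 2 : ℤ)) := by
        linear_combination h7
      have h9 : |(v 0 : ℝ) + v 1 * ξ + v 2 * t| ≤ B * D k := by
        calc |(v 0 : ℝ) + v 1 * ξ + v 2 * t| ≤ Q k * |(v 0 : ℝ) + v 1 * ξ + v 2 * t| :=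
              le_mul_of_one_le_left (abs_nonneg _) (hQ1 k)
          _ = |Q k * ((v 0 : ℝ) + v 1 * ξ + v 2 * t)| := by rw [abs_mul, abs_of_pos (hQ0 k)]
          _ = |v 1 * (Q k * ξ - (y k 1 : ℤ)) + v 2 * (Q k * t - (y k 2 : ℤ))| := by rw [h8]
          _ ≤ |(v 1 : ℝ)| * |Q k * ξ - (y k 1 : ℤ)| + |(v 2 : ℝ)| * |Q k * t - (y k 2 : ℤ)| := by
              rw [← abs_mul, ← abs_mul]; exact abs_add_le _ _
          _ ≤ |(v 1 : ℝ)| * D k + |(v 2 : ℝ)| * D k :=
              add_le_add (mul_le_mul_of_nonneg_left (hy1 k) (abs_nonneg _))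
                (mul_le_mul_of_nonneg_left (hy2 k) (abs_nonneg _))
          _ ≤ B * D k := by rw [hB]; nlinarith [hD0 k]
      rw [lt_div_iff₀ hB0] at hk2
      linarith
    refine ⟨v 0, v 1, v 2, ?_, hzero⟩
    intro h5
    rw [h5] at hzero
    push_cast at hzero
    rw [zero_mul, add_zero] at hzero
    rcases vec_ne_zero hv0 with h6 | h6 | h6
    · exact hξ.ne_zero _ _ (Or.inl h6) hzero
    · exact hξ.ne_zero _ _ (Or.inr h6) hzero
    · exact h6 h5
  · -- infinitely many independent triples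
    exfalso
    push Not at hcase
    obtain ⟨η, hη⟩ : ∃ η : ℝ, η = (lam ^ 2 + lam - 1) / 2 := ⟨_, rfl⟩
    have hη0 : 0 < η := by rw [hη]; linarith
    obtain ⟨c, hc, hm⟩ := hξ η hη0
    obtain ⟨C0, hC0⟩ : ∃ C0 : ℝ, C0 = |ξ| + 1 := ⟨_, rfl⟩
    have hC01 : 1 ≤ C0 := by rw [hC0]; linarith [abs_nonneg ξ]
    have hlow : ∀ k, Real.log c - (1 + η) * (Real.log C0 + ℓ k) ≤ Real.log (D k) := by
      intro k
      have hH1 : 1 ≤ C0 * Q k := by nlinarith [hQ1 k]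
      have hH0 : 0 < C0 * Q k := by linarith
      have h2 := hm (-(y k 1)) (y k 0) (Or.inr (by
        rw [hy0]; exact_mod_cast Nat.succ_ne_zero (s k))) (C0 * Q k) hH1 (by
        have h3 : |((y k 1 : ℤ) : ℝ)| ≤ |Q k * ξ| + 1 / 2 := by
          have h4 : ((y k 1 : ℤ) : ℝ) = round (Q k * ξ) := by
            rw [hy, hQ]; push_cast; rfl
          have h5 := abs_sub_round (Q k * ξ)
          rw [h4]
          have h6 : |((round (Q k * ξ) : ℤ) : ℝ)| ≤ |Q k * ξ| + |Q k * ξ - round (Q k * ξ)| := by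
            have := abs_sub_abs_le_abs_sub ((round (Q k * ξ) : ℤ) : ℝ) (Q k * ξ)
            rw [abs_sub_comm] at this
            linarith
          linarith
        push_cast
        rw [abs_neg]
        rw [abs_mul, abs_of_pos (hQ0 k)] at h3
        rw [hC0]
        nlinarith [hQ1 k]) (by
        rw [hQy, abs_of_pos (hQ0 k)]
        nlinarith [hQ0 k])
      rw [hQy] at h2
      have h3 : |((-(y k 1) : ℤ) : ℝ) + Q k * ξ| ≤ D k := by
        refine le_trans (le_of_eq ?_) (hy1 k)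
        congr 1
        push_cast
        ring
      have h4 : c ≤ (C0 * Q k) ^ (1 + η) * D k :=
        h2.trans (mul_le_mul_of_nonneg_left h3 (Real.rpow_nonneg hH0.le _))
      have h5 := Real.log_le_log hc h4
      rw [Real.log_mul (Real.rpow_pos_of_pos hH0 _).ne' (hD0 k).ne', Real.log_rpow hH0,
        Real.log_mul (by linarith) (hQ0 k).ne'] at h5
      rw [hℓ]
      linarith
    -- the sequence tends to infinity
    obtain ⟨C1, hC1⟩ : ∃ C1 : ℝ, C1 = Real.log 6 + 2 * lam * Real.log 2 := ⟨_, rfl⟩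
    obtain ⟨C2, hC2⟩ : ∃ C2 : ℝ, C2 = (1 + η) * Real.log C0 - Real.log c + lam * Real.log 2 :=
      ⟨_, rfl⟩
    have hmain : ∀ K, ∃ k, K ≤ k ∧ (lam ^ 2 - (1 - lam) * (1 + η)) * ℓ (k + 1) ≤
        (1 - lam) * C2 + lam * C1 := by
      intro K
      obtain ⟨k, hk, hdet⟩ := hcase (max K (X0 + 1))
      have hkX : X0 + 1 ≤ k := (le_max_right _ _).trans hk
      refine ⟨k, (le_max_left _ _).trans hk, ?_⟩
      -- the determinant
      obtain ⟨e0, he0⟩ : ∃ e : ℕ → ℝ, e = fun k => Q k * ξ - (y k 1 : ℤ) := ⟨_, rfl⟩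
      obtain ⟨g0, hg0⟩ : ∃ g : ℕ → ℝ, g = fun k => Q k * t - (y k 2 : ℤ) := ⟨_, rfl⟩
      have he : ∀ k, |e0 k| ≤ D k := fun k => by rw [he0]; exact hy1 k
      have hg : ∀ k, |g0 k| ≤ D k := fun k => by rw [hg0]; exact hy2 k
      have hdR : ((dot (cr (y k) (y (k + 1))) (y (k + 2)) : ℤ) : ℝ) =
          Q k * (e0 (k + 1) * g0 (k + 2) - e0 (k + 2) * g0 (k + 1)) +
          Q (k + 1) * (e0 (k + 2) * g0 k - e0 k * g0 (k + 2)) +
          Q (k + 2) * (e0 k * g0 (k + 1) - e0 (k + 1) * g0 k) := by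
        unfold dot
        rw [cr_zero, cr_one, cr_two, he0, hg0]
        simp only [← hQy]
        push_cast
        ring
      have hd1 : (1 : ℝ) ≤ |((dot (cr (y k) (y (k + 1))) (y (k + 2)) : ℤ) : ℝ)| := by
        rw [← Int.cast_abs]
        exact_mod_cast Int.one_le_abs hdet
      have hDD : ∀ i j, |e0 i * g0 j - e0 j * g0 i| ≤ 2 * (D i * D j) := by
        intro i j
        calc |e0 i * g0 j - e0 j * g0 i| ≤ |e0 i * g0 j| + |e0 j * g0 i| := abs_sub _ _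
          _ = |e0 i| * |g0 j| + |e0 j| * |g0 i| := by rw [abs_mul, abs_mul]
          _ ≤ D i * D j + D j * D i :=
              add_le_add (mul_le_mul (he i) (hg j) (abs_nonneg _) (hD0 i).le)
                (mul_le_mul (he j) (hg i) (abs_nonneg _) (hD0 j).le)
          _ = 2 * (D i * D j) := by ring
      have hbd : |((dot (cr (y k) (y (k + 1))) (y (k + 2)) : ℤ) : ℝ)| ≤
          6 * (Q (k + 2) * (D k * D (k + 1))) := by
        rw [hdR]
        have a1 : |Q k * (e0 (k + 1) * g0 (k + 2) - e0 (k + 2) * g0 (k + 1))| ≤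
            2 * (Q (k + 2) * (D k * D (k + 1))) := by
          rw [abs_mul, abs_of_pos (hQ0 k)]
          calc Q k * |e0 (k + 1) * g0 (k + 2) - e0 (k + 2) * g0 (k + 1)| ≤
              Q (k + 2) * (2 * (D (k + 1) * D (k + 2))) :=
                mul_le_mul ((hQm k).trans (hQm (k + 1))).le (hDD _ _) (abs_nonneg _) (hQ0 _).le
            _ ≤ Q (k + 2) * (2 * (D (k + 1) * D k)) := by
                refine mul_le_mul_of_nonneg_left ?_ (hQ0 _).le
                refine mul_le_mul_of_nonneg_left ?_ (by norm_num)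
                exact mul_le_mul_of_nonneg_left ((hDm (k + 1)).trans (hDm k)).le (hD0 _).le
            _ = _ := by ring
        have a2 : |Q (k + 1) * (e0 (k + 2) * g0 k - e0 k * g0 (k + 2))| ≤
            2 * (Q (k + 2) * (D k * D (k + 1))) := by
          rw [abs_mul, abs_of_pos (hQ0 _)]
          calc Q (k + 1) * |e0 (k + 2) * g0 k - e0 k * g0 (k + 2)| ≤
              Q (k + 2) * (2 * (D (k + 2) * D k)) :=
                mul_le_mul (hQm (k + 1)).le (hDD _ _) (abs_nonneg _) (hQ0 _).le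
            _ ≤ Q (k + 2) * (2 * (D (k + 1) * D k)) := by
                refine mul_le_mul_of_nonneg_left ?_ (hQ0 _).le
                refine mul_le_mul_of_nonneg_left ?_ (by norm_num)
                exact mul_le_mul_of_nonneg_right (hDm (k + 1)).le (hD0 _).le
            _ = _ := by ring
        have a3 : |Q (k + 2) * (e0 k * g0 (k + 1) - e0 (k + 1) * g0 k)| ≤
            2 * (Q (k + 2) * (D k * D (k + 1))) := by
          rw [abs_mul, abs_of_pos (hQ0 _)]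
          calc Q (k + 2) * |e0 k * g0 (k + 1) - e0 (k + 1) * g0 k| ≤
              Q (k + 2) * (2 * (D k * D (k + 1))) :=
                mul_le_mul_of_nonneg_left (hDD _ _) (hQ0 _).le
            _ = _ := by ring
        have b1 := abs_add_le (Q k * (e0 (k + 1) * g0 (k + 2) - e0 (k + 2) * g0 (k + 1)) +
          Q (k + 1) * (e0 (k + 2) * g0 k - e0 k * g0 (k + 2)))
          (Q (k + 2) * (e0 k * g0 (k + 1) - e0 (k + 1) * g0 k))
        have b2 := abs_add_le (Q k * (e0 (k + 1) * g0 (k + 2) - e0 (k + 2) * g0 (k + 1)))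
          (Q (k + 1) * (e0 (k + 2) * g0 k - e0 k * g0 (k + 2)))
        linarith
      have h2 := Real.log_le_log one_pos (hd1.trans hbd)
      rw [Real.log_one, Real.log_mul (by norm_num) (mul_pos (hQ0 _) (mul_pos (hD0 _) (hD0 _))).ne',
        Real.log_mul (hQ0 _).ne' (mul_pos (hD0 _) (hD0 _)).ne',
        Real.log_mul (hD0 _).ne' (hD0 _).ne'] at h2
      have h3 := hlogD k hkX
      have h4 := hlogD (k + 1) (by omega)
      have h5 := hlow (k + 1)
      have hℓ2 : Real.log (Q (k + 2)) = ℓ (k + 2) := by rw [hℓ]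
      rw [hℓ2] at h2
      rw [show k + 1 + 1 = k + 2 by ring] at h4
      have i1 : lam * ℓ (k + 1) ≤ (1 - lam) * ℓ (k + 2) + C1 := by rw [hC1]; linarith
      have i2 : lam * ℓ (k + 2) ≤ (1 + η) * ℓ (k + 1) + C2 := by rw [hC2]; linarith
      have h6 := bounded_of (ℓ (k + 1)) (ℓ (k + 2)) lam (1 - lam) lam (1 + η) C1 C2 h0.le
        i1 i2 (by linarith)
      refine le_trans (le_of_eq ?_) h6
      ring
    have hδ : 0 < lam ^ 2 - (1 - lam) * (1 + η) := by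
      have h2 : lam ^ 2 + lam - 1 = 2 * η := by rw [hη]; ring
      nlinarith
    obtain ⟨K, hK⟩ := exists_nat_gt (Real.exp (((1 - lam) * C2 + lam * C1) /
      (lam ^ 2 - (1 - lam) * (1 + η))))
    obtain ⟨k, hk, hk2⟩ := hmain K
    have h2 : ((1 - lam) * C2 + lam * C1) / (lam ^ 2 - (1 - lam) * (1 + η)) < ℓ (k + 1) := by
      rw [hℓ]
      have h3 : (K : ℝ) ≤ Q (k + 1) := by
        rw [hQ]
        have h4 := hsk (k + 1)
        have h5 : (K : ℝ) ≤ s (k + 1) := by exact_mod_cast (by omega : K ≤ s (k + 1))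
        beta_reduce
        linarith
      have h4 := hK.trans_le h3
      rw [Real.lt_log_iff_exp_lt (hQ0 _)]
      exact h4
    rw [div_lt_iff₀ hδ] at h2
    linarith

end Pool.Agent.R523.Sim
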